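import Pool.Agent.Lib.MP_c37a72_al.LB.Spec

/-!
# MP_c37a72_al, block LB, module JD: density for a simple ring
-/

set_option autoImplicit false

open scoped TensorProduct
open Coalgebra HopfAlgebra

namespace Pool.Agent.Lib.MP_c37a72_al.LB

universe v

namespace JDM

/-- the operators `x ↦ ∑ a_l x b_l` -/
inductive Op {S : Type v} [Ring S] : (S → S) → Prop
  | base (a b : S) : Op fun x => a * x * b
  | zero : Op fun _ => 0
  | add {θ θ' : S → S} (h : Op θ) (h' : Op θ') : Op fun x => θ x + θ' x

section Ring

variable {S : Type v} [Ring S]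

theorem Op.id : Op (fun x : S => x) := by
  have h := Op.base (1 : S) 1
  simp only [one_mul, mul_one] at h
  exact h

theorem Op.left {θ : S → S} (h : Op θ) (c : S) : Op fun x => c * θ x := by
  induction h with
  | base a b =>
    have h1 := Op.base (c * a) b
    have e : (fun x => c * a * x * b) = fun x => c * (a * x * b) := by
      funext x
      simp only [mul_assoc]
    rw [e] at h1
    exact h1
  | zero =>
    have e : (fun _ : S => c * (0 : S)) = fun _ => 0 := by
      funext x
      rw [mul_zero]
    rw [e]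
    exact Op.zero
  | add h h' ih ih' =>
    have h1 := Op.add ih ih'
    simp only [← mul_add] at h1
    exact h1

theorem Op.right {θ : S → S} (h : Op θ) (c : S) : Op fun x => θ x * c := by
  induction h with
  | base a b =>
    have h1 := Op.base a (b * c)
    have e : (fun x => a * x * (b * c)) = fun x => a * x * b * c := by
      funext x
      simp only [mul_assoc]
    rw [e] at h1
    exact h1
  | zero =>
    have e : (fun _ : S => (0 : S) * c) = fun _ => 0 := by
      funext x
      rw [zero_mul]
    rw [e]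
    exact Op.zero
  | add h h' ih ih' =>
    have h1 := Op.add ih ih'
    simp only [← add_mul] at h1
    exact h1

theorem Op.comp {θ φ : S → S} (h : Op θ) (h' : Op φ) : Op fun x => θ (φ x) := by
  induction h with
  | base a b => exact (h'.left a).right b
  | zero => exact Op.zero
  | add _ _ ih ih' => exact Op.add ih ih'

theorem Op.neg {θ : S → S} (h : Op θ) : Op fun x => -θ x := by
  have h1 := h.left (-1)
  simp only [neg_mul, one_mul] at h1
  exact h1

theorem Op.sub {θ φ : S → S} (h : Op θ) (h' : Op φ) : Op fun x => θ x - φ x := by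
  have h1 := h.add h'.neg
  simp only [← sub_eq_add_neg] at h1
  exact h1

theorem Op.sum {ι : Type*} (t : Finset ι) (θ : ι → S → S) (h : ∀ i ∈ t, Op (θ i)) :
    Op fun x => ∑ i ∈ t, θ i x := by
  classical
  induction t using Finset.induction_on with
  | empty =>
    simp only [Finset.sum_empty]
    exact Op.zero
  | insert i t hi ih =>
    simp only [Finset.sum_insert hi]
    exact (h i (Finset.mem_insert_self i t)).add
      (ih fun l hl => h l (Finset.mem_insert_of_mem hl))

theorem Op.map_add {θ : S → S} (h : Op θ) (x y : S) : θ (x + y) = θ x + θ y := by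
  induction h with
  | base a b => simp only [mul_add, add_mul]
  | zero => rw [add_zero]
  | add _ _ ih ih' =>
    simp only [ih, ih']
    abel

theorem Op.map_zero {θ : S → S} (h : Op θ) : θ 0 = 0 := by
  have h1 := h.map_add 0 0
  rw [add_zero] at h1
  exact left_eq_add.1 h1

theorem Op.repr {θ : S → S} (h : Op θ) :
    ∃ (m : ℕ) (a b : Fin m → S), ∀ x, θ x = ∑ l, a l * x * b l := by
  induction h with
  | base a b => exact ⟨1, fun _ => a, fun _ => b, fun x => by simp⟩
  | zero => exact ⟨0, fun _ => 0, fun _ => 0, fun x => by simp⟩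
  | add _ _ ih ih' =>
    obtain ⟨m, a, b, h⟩ := ih
    obtain ⟨m', a', b', h'⟩ := ih'
    refine ⟨m + m', Fin.append a a', Fin.append b b', fun x => ?_⟩
    simp only [Fin.sum_univ_add, h, h', Fin.append_left, Fin.append_right]

/-- nonzero elements are mapped to `1` by an operator -/
theorem exists_one [IsSimpleRing S] {y : S} (hy : y ≠ 0) : ∃ θ : S → S, Op θ ∧ θ y = 1 := by
  let I : TwoSidedIdeal S := TwoSidedIdeal.mk' {z | ∃ θ : S → S, Op θ ∧ θ y = z}
    ⟨fun _ => 0, Op.zero, rfl⟩
    (by
      rintro z z' ⟨θ, h, rfl⟩ ⟨θ', h', rfl⟩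
      exact ⟨_, h.add h', rfl⟩)
    (by
      rintro z ⟨θ, h, rfl⟩
      exact ⟨_, h.neg, rfl⟩)
    (by
      rintro c z ⟨θ, h, rfl⟩
      exact ⟨_, h.left c, rfl⟩)
    (by
      rintro z c ⟨θ, h, rfl⟩
      exact ⟨_, h.right c, rfl⟩)
  have hyI : y ∈ I := by
    rw [TwoSidedIdeal.mem_mk']
    exact ⟨fun x => x, Op.id, rfl⟩
  have h1 := IsSimpleRing.one_mem_of_ne_zero_mem I hy hyI
  rw [TwoSidedIdeal.mem_mk'] at h1
  exact h1

/-- density -/
theorem density {K : Type v} [Field K] [Algebra K S] [IsSimpleRing S]
    (hc : ∀ c : S, (∀ x : S, x * c = c * x) → ∃ a : K, algebraMap K S a = c)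
    {ι : Type*} {s : ι → S} (hs : LinearIndependent K s) :
    ∀ (m : ℕ) (t : Finset ι), t.card = m → ∀ i0 ∈ t, ∃ θ : S → S, Op θ ∧
      ∀ i ∈ t, (i = i0 → θ (s i) = 1) ∧ (i ≠ i0 → θ (s i) = 0) := by
  classical
  intro m
  induction m with
  | zero =>
    intro t ht i0 hi0
    rw [Finset.card_eq_zero] at ht
    rw [ht] at hi0
    exact absurd hi0 (Finset.notMem_empty i0)
  | succ m ih =>
    intro t ht i0 hi0
    set I := t.erase i0 with hI
    have hIc : I.card = m := by
      rw [hI, Finset.card_erase_of_mem hi0, ht]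
      omega
    -- an operator which kills the other elements
    have key : ∃ θ : S → S, Op θ ∧ (∀ i ∈ I, θ (s i) = 0) ∧ θ (s i0) ≠ 0 := by
      by_contra hno
      push Not at hno
      have hθ : ∀ i, i ∈ I → ∃ θ : S → S, Op θ ∧
          ∀ l ∈ I, (l = i → θ (s l) = 1) ∧ (l ≠ i → θ (s l) = 0) := fun i hi => ih I hIc i hi
      choose! θ hθO hθs using hθ
      have hexp : ∀ φ : S → S, Op φ → φ (s i0) = ∑ i ∈ I, φ (s i) * θ i (s i0) := by
        intro φ hφ
        have h1 : Op fun x => φ x - ∑ i ∈ I, φ (s i) * θ i x :=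
          hφ.sub (Op.sum I (fun i x => φ (s i) * θ i x) fun i hi => (hθO i hi).left _)
        have h2 := hno _ h1 (by
          intro l hl
          rw [Finset.sum_eq_single l]
          · rw [(hθs l hl l hl).1 rfl, mul_one, sub_self]
          · intro i hi hil
            rw [(hθs i hi l hl).2 (Ne.symm hil), mul_zero]
          · intro h
            exact absurd hl h)
        exact sub_eq_zero.1 h2
      have hcen : ∀ j ∈ I, ∃ a : K, algebraMap K S a = θ j (s i0) := by
        intro j hj
        refine hc _ fun b => ?_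
        have h1 := hexp _ ((hθO j hj).right b)
        have h2 : ∑ i ∈ I, θ j (s i) * b * θ i (s i0) = b * θ j (s i0) := by
          rw [Finset.sum_eq_single j]
          · rw [(hθs j hj j hj).1 rfl, one_mul]
          · intro i hi hij
            rw [(hθs j hj i hi).2 hij, zero_mul, zero_mul]
          · intro h
            exact absurd hj h
        rw [h2] at h1
        exact h1.symm
      choose! a ha using hcen
      have h3 := hexp _ Op.id
      have h4 : ∑ i ∈ t, (if i = i0 then (-1 : K) else a i) • s i = 0 := by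
        rw [← Finset.add_sum_erase t _ hi0, if_pos rfl, ← hI]
        have h5 : ∑ i ∈ I, (if i = i0 then (-1 : K) else a i) • s i =
            ∑ i ∈ I, s i * θ i (s i0) := by
          refine Finset.sum_congr rfl fun i hi => ?_
          have hne : i ≠ i0 := (Finset.mem_erase.1 hi).1
          rw [if_neg hne, Algebra.smul_def, ha i hi]
          obtain ⟨c, hc'⟩ : ∃ c : K, algebraMap K S c = θ i (s i0) := ⟨a i, ha i hi⟩
          rw [← hc']
          exact Algebra.commutes c (s i)
        rw [h5, ← h3]
        simp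
      have h6 := (linearIndependent_iff'.1 hs) t _ h4 i0 hi0
      rw [if_pos rfl] at h6
      exact one_ne_zero (neg_eq_zero.1 h6)
    obtain ⟨θ, hθ, hkill, hne⟩ := key
    obtain ⟨φ, hφ, hφ1⟩ := exists_one hne
    refine ⟨fun x => φ (θ x), hφ.comp hθ, fun i hi => ⟨fun h => ?_, fun h => ?_⟩⟩
    · rw [h]
      exact hφ1
    · change φ (θ (s i)) = 0
      rw [hkill i (Finset.mem_erase.2 ⟨h, hi⟩), hφ.map_zero]

/-- density for families indexed by a finite type -/
theorem density' {K : Type v} [Field K] [Algebra K S] [IsSimpleRing S]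
    (hc : ∀ c : S, (∀ x : S, x * c = c * x) → ∃ a : K, algebraMap K S a = c)
    {ι : Type*} [Fintype ι] [DecidableEq ι] {s : ι → S} (hs : LinearIndependent K s) (i0 : ι) :
    ∃ θ : S → S, Op θ ∧ ∀ i, θ (s i) = if i = i0 then 1 else 0 := by
  obtain ⟨θ, hθ, h⟩ := density hc hs _ Finset.univ rfl i0 (Finset.mem_univ i0)
  refine ⟨θ, hθ, fun i => ?_⟩
  by_cases hi : i = i0
  · rw [if_pos hi]
    exact (h i (Finset.mem_univ i)).1 hi
  · rw [if_neg hi]
    exact (h i (Finset.mem_univ i)).2 hi

end Ring

end JDM

open JDM in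
/-- **JD**. -/
theorem specJD : SpecJD.{v} := by
  intro K S _ _ _ _ hc n s hs i0
  obtain ⟨θ, hθ, h⟩ := density' hc hs i0
  obtain ⟨m, a, b, hr⟩ := hθ.repr
  exact ⟨m, a, b, fun i => by rw [← hr, h]⟩

end Pool.Agent.Lib.MP_c37a72_al.LB
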