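import Pool.Agent.Lib.MP_c37a72_al.LB.Spec
import Pool.Agent.Lib.MP_c37a72_al.LB.JD
import Pool.Agent.Lib.MP_c37a72_al.Pts

section
/-!
# MP_c37a72_al, block LB, module DCT: double centraliser for a subfield
-/
set_option autoImplicit false
set_option linter.style.haveILetI false

open scoped TensorProduct
open Coalgebra HopfAlgebra

namespace Pool.Agent.Lib.MP_c37a72_al.LB

universe v

namespace DCTM

open JDM

variable {F R : Type v} [Field F] [Ring R] [Algebra F R]

section basis

variable {ι : Type} [Fintype ι] [DecidableEq ι] (e : Module.Basis ι F R)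

/-- the maps `x ↦ ∑ a_m x e_m` with coefficients in a subspace -/
def Rep (J : Submodule F R) (φ : R → R) : Prop :=
  ∃ a : ι → R, (∀ m, a m ∈ J) ∧ ∀ x, φ x = ∑ m, a m * x * e m

omit [DecidableEq ι] in
theorem rep_base (J : Submodule F R) (a b : R) (ha : a ∈ J) : Rep e J fun x => a * x * b := by
  refine ⟨fun m => e.repr b m • a, fun m => J.smul_mem _ ha, fun x => ?_⟩
  change a * x * b = _
  conv_lhs => rw [← e.sum_repr b, Finset.mul_sum]
  refine Finset.sum_congr rfl fun m _ => ?_
  rw [Algebra.mul_smul_comm, Algebra.smul_mul_assoc, Algebra.smul_mul_assoc]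

omit [DecidableEq ι] in
theorem rep_zero (J : Submodule F R) : Rep e J fun _ => 0 :=
  ⟨fun _ => 0, fun _ => J.zero_mem, fun x => by simp⟩

omit [DecidableEq ι] in
theorem rep_add {J : Submodule F R} {φ ψ : R → R} (h : Rep e J φ) (h' : Rep e J ψ) :
    Rep e J fun x => φ x + ψ x := by
  obtain ⟨a, ha, h⟩ := h
  obtain ⟨b, hb, h'⟩ := h'
  refine ⟨fun m => a m + b m, fun m => J.add_mem (ha m) (hb m), fun x => ?_⟩
  change φ x + ψ x = _
  rw [h, h', ← Finset.sum_add_distrib]
  refine Finset.sum_congr rfl fun m _ => ?_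
  rw [add_mul, add_mul]

omit [DecidableEq ι] in
theorem rep_sum {J : Submodule F R} {κ : Type*} (t : Finset κ) (φ : κ → R → R)
    (h : ∀ i ∈ t, Rep e J (φ i)) : Rep e J fun x => ∑ i ∈ t, φ i x := by
  classical
  induction t using Finset.induction_on with
  | empty =>
    simp only [Finset.sum_empty]
    exact rep_zero e J
  | insert i t hi ih =>
    simp only [Finset.sum_insert hi]
    exact rep_add e (h i (Finset.mem_insert_self i t))
      (ih fun l hl => h l (Finset.mem_insert_of_mem hl))

omit [DecidableEq ι] in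
theorem op_rep {θ : R → R} (h : Op θ) : Rep e ⊤ θ := by
  induction h with
  | base a b => exact rep_base e ⊤ a b Submodule.mem_top
  | zero => exact rep_zero e ⊤
  | add _ _ ih ih' => exact rep_add e ih ih'

omit [DecidableEq ι] in
/-- composition -/
theorem rep_comp {J J' J'' : Submodule F R} (hJ : ∀ a ∈ J', ∀ b ∈ J'', a * b ∈ J) {φ ψ : R → R}
    (h : Rep e J' φ) (h' : Rep e J'' ψ) : Rep e J fun x => φ (ψ x) := by
  obtain ⟨a, ha, h⟩ := h
  obtain ⟨b, hb, h'⟩ := h'
  have h1 : (fun x => φ (ψ x)) = fun x => ∑ m, ∑ l, (a m * b l) * x * (e l * e m) := by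
    funext x
    rw [h, h']
    refine Finset.sum_congr rfl fun m _ => ?_
    rw [Finset.mul_sum, Finset.sum_mul]
    refine Finset.sum_congr rfl fun l _ => ?_
    simp only [mul_assoc]
  rw [h1]
  exact rep_sum e _ _ fun m _ => rep_sum e _ _ fun l _ => rep_base e J _ _ (hJ _ (ha m) _ (hb l))

end basis

section simple

variable [IsSimpleRing R]
  (hc : ∀ c : R, (∀ x : R, x * c = c * x) → ∃ a : F, algebraMap F R a = c)
  {ι : Type} [Fintype ι] [DecidableEq ι] (e : Module.Basis ι F R)

include hc

/-- uniqueness of the coefficients -/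
theorem uniq {a : ι → R} (h : ∀ x, ∑ m, a m * x * e m = 0) (m0 : ι) : a m0 = 0 := by
  obtain ⟨θ, hθ, hθe⟩ := density' hc e.linearIndependent m0
  obtain ⟨n, u, v, hr⟩ := hθ.repr
  have h1 : ∑ l, (∑ m, a m * u l * e m) * v l = a m0 := by
    calc ∑ l, (∑ m, a m * u l * e m) * v l = ∑ l, ∑ m, a m * (u l * e m * v l) := by
          refine Finset.sum_congr rfl fun l _ => ?_
          rw [Finset.sum_mul]
          refine Finset.sum_congr rfl fun m _ => ?_
          simp only [mul_assoc]
      _ = ∑ m, a m * θ (e m) := by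
          rw [Finset.sum_comm]
          refine Finset.sum_congr rfl fun m _ => ?_
          rw [hr, Finset.mul_sum]
      _ = a m0 := by
          rw [Finset.sum_eq_single m0]
          · rw [hθe, if_pos rfl, mul_one]
          · intro m _ hm
            rw [hθe, if_neg hm, mul_zero]
          · intro h
            exact absurd (Finset.mem_univ _) h
  rw [← h1]
  refine Finset.sum_eq_zero fun l _ => ?_
  rw [h, zero_mul]

theorem uniq' {a b : ι → R} (h : ∀ x, ∑ m, a m * x * e m = ∑ m, b m * x * e m) (m : ι) :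
    a m = b m := by
  refine sub_eq_zero.1 (uniq hc e (a := fun m => a m - b m) (fun x => ?_) m)
  simp only [sub_mul, Finset.sum_sub_distrib, h x, sub_self]

/-- every linear map has coefficients -/
theorem lin_rep (φ : R →ₗ[F] R) : Rep e ⊤ φ := by
  have h1 : ∀ i, ∃ θ : R → R, Op θ ∧ ∀ l, θ (e l) = if l = i then 1 else 0 := fun i =>
    density' hc e.linearIndependent i
  choose θ hθ hθe using h1
  have h2 : ∀ i, ∀ x, θ i x = algebraMap F R (e.repr x i) := by
    intro i x
    have hlin : ∀ (s : Finset ι) (c : ι → F), θ i (∑ l ∈ s, c l • e l) =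
        ∑ l ∈ s, c l • θ i (e l) := by
      intro s c
      induction s using Finset.induction_on with
      | empty => rw [Finset.sum_empty, Finset.sum_empty, (hθ i).map_zero]
      | insert l s hl ih =>
        rw [Finset.sum_insert hl, Finset.sum_insert hl, (hθ i).map_add, ih]
        congr 1
        obtain ⟨n, u, v, hr⟩ := (hθ i).repr
        rw [hr, hr, Finset.smul_sum]
        refine Finset.sum_congr rfl fun j _ => ?_
        rw [Algebra.mul_smul_comm, Algebra.smul_mul_assoc]
    conv_lhs => rw [← e.sum_repr x, hlin]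
    rw [Finset.sum_eq_single i]
    · rw [hθe, if_pos rfl, Algebra.algebraMap_eq_smul_one]
    · intro l _ hl
      rw [hθe, if_neg hl, smul_zero]
    · intro h
      exact absurd (Finset.mem_univ _) h
  have h3 : (φ : R → R) = fun x => ∑ i, φ (e i) * θ i x := by
    funext x
    conv_lhs => rw [← e.sum_repr x, map_sum]
    refine Finset.sum_congr rfl fun i _ => ?_
    rw [map_smul, h2, Algebra.smul_def, Algebra.commutes]
  rw [h3]
  exact op_rep e (Op.sum _ _ fun i _ => (hθ i).left _)

variable (K : Subalgebra F R)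

/-- the coefficients of a `K`-linear map commute with `K` -/
theorem klin_rep (φ : R →ₗ[F] R) (hφ : ∀ c ∈ K, ∀ x, φ (c * x) = c * φ x) :
    Rep e (Subalgebra.toSubmodule (Subalgebra.centralizer F (K : Set R))) φ := by
  obtain ⟨a, -, ha⟩ := lin_rep hc e φ
  refine ⟨a, fun m => ?_, ha⟩
  rw [Subalgebra.mem_toSubmodule, Subalgebra.mem_centralizer_iff]
  intro c hcK
  have h1 := uniq' hc e (a := fun m => c * a m) (b := fun m => a m * c) (fun x => ?_) m
  · exact h1
  · have h2 := hφ c hcK x
    rw [ha, ha, Finset.mul_sum] at h2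
    simp only [mul_assoc] at h2 ⊢
    exact h2.symm

end simple

end DCTM

open DCTM JDM in
/-- **DCT**. -/
theorem specDCT : SpecDCT.{v} := by
  intro F R _ _ _ _ _ hc K hK
  classical
  letI : Field K := hK.toField
  haveI : Module.Finite K R := Module.Finite.of_restrictScalars_finite F K R
  set C := Subalgebra.centralizer F (K : Set R) with hC
  let e := Module.finBasis F R
  have hmem : ∀ {x : R}, x ∈ C ↔ ∀ c ∈ K, c * x = x * c := fun {x} => by
    rw [hC, Subalgebra.mem_centralizer_iff]
    rfl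
  have hrep : ∀ φ : R →ₗ[K] R, Rep e (Subalgebra.toSubmodule C) φ := by
    intro φ
    exact klin_rep hc e K (φ.restrictScalars F) fun c hcK x => φ.map_smul (⟨c, hcK⟩ : K) x
  -- linear maps with values in `K • u`
  have hval : ∀ (f : R →ₗ[K] K) (u : R), Rep e (Subalgebra.toSubmodule C)
      fun x => (f x : R) * u := by
    intro f u
    exact hrep (f.smulRight u)
  have hone : ∃ m, e.repr 1 m ≠ 0 := by
    by_contra h
    push Not at h
    have h1 : e.repr (1 : R) = 0 := Finsupp.ext h
    rw [LinearEquiv.map_eq_zero_iff] at h1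
    exact one_ne_zero h1
  refine ⟨?_, fun c hcC hcc => ?_⟩
  · -- simple
    haveI : Nontrivial C := ⟨0, 1, fun h => zero_ne_one (congrArg Subtype.val h)⟩
    refine ⟨⟨fun J => ?_⟩⟩
    by_cases hJ : J = ⊥
    · exact Or.inl hJ
    right
    obtain ⟨y, hyJ, hy0⟩ : ∃ y : C, y ∈ J ∧ y ≠ 0 := by
      by_contra h
      push Not at h
      apply hJ
      rw [eq_bot_iff]
      intro y hy
      rw [TwoSidedIdeal.mem_bot]
      exact h y hy
    -- the ideal as a subspace of `R`
    let J' : Submodule F R :=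
      { carrier := {r | ∃ h : r ∈ C, (⟨r, h⟩ : C) ∈ J}
        add_mem' := by
          rintro r s ⟨hr, hrJ⟩ ⟨hs, hsJ⟩
          exact ⟨C.add_mem hr hs, J.add_mem hrJ hsJ⟩
        zero_mem' := ⟨C.zero_mem, J.zero_mem⟩
        smul_mem' := by
          rintro a r ⟨hr, hrJ⟩
          refine ⟨C.smul_mem hr a, ?_⟩
          have h1 := J.mul_mem_left (algebraMap F C a) _ hrJ
          rwa [← Algebra.smul_def] at h1 }
    have hJl : ∀ a ∈ Subalgebra.toSubmodule C, ∀ b ∈ J', a * b ∈ J' := by
      rintro a ha b ⟨hb, hbJ⟩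
      exact ⟨C.mul_mem ha hb, J.mul_mem_left (⟨a, ha⟩ : C) _ hbJ⟩
    have hJr : ∀ b ∈ J', ∀ a ∈ Subalgebra.toSubmodule C, b * a ∈ J' := by
      rintro b ⟨hb, hbJ⟩ a ha
      exact ⟨C.mul_mem hb ha, J.mul_mem_right _ (⟨a, ha⟩ : C) hbJ⟩
    have hy' : (y : R) ≠ 0 := fun h => hy0 (Subtype.ext h)
    obtain ⟨f, hf⟩ : ∃ f : R →ₗ[K] K, f y ≠ 0 := by
      by_contra h
      push Not at h
      exact hy' ((Module.forall_dual_apply_eq_zero_iff K (y : R)).1 h)
    let b := Module.finBasis K R
    -- the identity has coefficients in the ideal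
    have hid : Rep e J' fun x => x := by
      have h1 : ∀ i, Rep e J' fun x => (((f y)⁻¹ • f) ((y : R) * ((b.coord i x : K) : R)) : R) *
          b i := by
        intro i
        have h2 : Rep e J' fun x : R => (y : R) * x := by
          have h3 := rep_base e J' (y : R) 1 ⟨y.2, hyJ⟩
          simp only [mul_one] at h3
          exact h3
        have h4 : Rep e (Subalgebra.toSubmodule C) fun x => ((b.coord i x : K) : R) := by
          have h5 := hval (b.coord i) 1
          simp only [mul_one] at h5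
          exact h5
        exact rep_comp e hJl (hval ((f y)⁻¹ • f) (b i)) (rep_comp e hJr h2 h4)
      have h6 := rep_sum e Finset.univ _ fun i _ => h1 i
      have h7 : (fun x => ∑ i, (((f y)⁻¹ • f) ((y : R) * ((b.coord i x : K) : R)) : R) * b i) =
          fun x => x := by
        funext x
        conv_rhs => rw [← b.sum_repr x]
        refine Finset.sum_congr rfl fun i _ => ?_
        have h8 : (y : R) * ((b.coord i x : K) : R) = (b.coord i x : K) • (y : R) :=
          (hmem.1 y.2 _ (b.coord i x : K).2).symm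
        rw [h8, map_smul]
        have h9 : ((f y)⁻¹ • f) (y : R) = 1 := inv_mul_cancel₀ hf
        rw [h9, smul_eq_mul, mul_one]
        rfl
      rw [h7] at h6
      exact h6
    obtain ⟨a, haJ, ha⟩ := hid
    obtain ⟨m, hm⟩ := hone
    have h1 := uniq' hc e (a := a) (b := fun m => algebraMap F R (e.repr 1 m)) (fun x => ?_) m
    · have h2 : (1 : R) ∈ J' := by
        have h3 := J'.smul_mem (e.repr 1 m)⁻¹ (haJ m)
        rw [h1, Algebra.smul_def, ← map_mul, inv_mul_cancel₀ hm, map_one] at h3
        exact h3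
      obtain ⟨h4, h5⟩ := h2
      rw [eq_top_iff]
      intro z _
      have h6 := J.mul_mem_left z _ h5
      have h7 : z * (⟨1, h4⟩ : C) = z := mul_one z
      rwa [h7] at h6
    · rw [← ha]
      conv_lhs => rw [← mul_one x, ← e.sum_repr (1 : R), Finset.mul_sum]
      refine Finset.sum_congr rfl fun l _ => ?_
      rw [Algebra.mul_smul_comm, ← Algebra.smul_def, Algebra.smul_mul_assoc]
  · -- centre
    by_contra hcK
    have h1 : c ∉ Submodule.span K {(1 : R)} := by
      intro h
      rw [Submodule.mem_span_singleton] at h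
      obtain ⟨a, ha⟩ := h
      apply hcK
      have : (a : R) * 1 = c := ha
      rw [← this, mul_one]
      exact a.2
    obtain ⟨f, hf, hf'⟩ := Submodule.exists_dual_map_eq_bot_of_notMem h1 inferInstance
    have h2 : f 1 = 0 := by
      have := Submodule.mem_map_of_mem (f := f)
        (Submodule.mem_span_singleton_self (1 : R) (R := K))
      rw [hf', Submodule.mem_bot] at this
      exact this
    obtain ⟨a, haC, ha⟩ := hval f 1
    have h3 : (f c : R) = c * (f 1 : R) := by
      have e1 := ha c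
      have e2 := ha 1
      simp only [mul_one] at e1 e2
      rw [e1, e2, Finset.mul_sum]
      refine Finset.sum_congr rfl fun m _ => ?_
      rw [hcc _ (haC m), mul_assoc]
    rw [h2] at h3
    apply hf
    have h4 : ((f c : K) : R) = 0 := by
      rw [h3]
      simp
    exact Subtype.ext h4

end Pool.Agent.Lib.MP_c37a72_al.LB
end

section
/-!
# Module ALG: related points are algebraic over each other
-/
set_option autoImplicit false

open scoped TensorProduct
open Coalgebra HopfAlgebra

namespace Pool.Agent.Lib.MP_c37a72_al.LB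

universe u v w

namespace ALGM

/-- Cayley-Hamilton for an operator which preserves a finitely generated subspace. -/
theorem core {Z R : Type*} [Field Z] [AddCommGroup R] [Module Z R] (T : R →ₗ[Z] R) (s : Set R)
    (hs : s.Finite) (hT : ∀ x ∈ Submodule.span Z s, T x ∈ Submodule.span Z s) :
    ∃ p : Polynomial Z, p.Monic ∧ ∀ x ∈ Submodule.span Z s,
      ∑ i ∈ Finset.range (p.natDegree + 1), p.coeff i • (T ^ i) x = 0 := by
  have hf : Module.Finite Z (Submodule.span Z s) := Module.Finite.span_of_finite Z hs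
  let U : Submodule.span Z s →ₗ[Z] Submodule.span Z s := T.restrict hT
  refine ⟨U.charpoly, U.charpoly_monic, fun x hx => ?_⟩
  have hpow : ∀ (i : ℕ) (y : Submodule.span Z s), (((U ^ i) y : Submodule.span Z s) : R) =
      (T ^ i) y := by
    intro i
    induction i with
    | zero => intro y; rfl
    | succ n ih =>
      intro y
      rw [pow_succ, pow_succ, Module.End.mul_apply, Module.End.mul_apply, ih]
      rfl
  have h1 := congrArg (fun g : Module.End Z (Submodule.span Z s) => ((g ⟨x, hx⟩ : _) : R))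
    U.aeval_self_charpoly
  simp only [Polynomial.aeval_eq_sum_range, LinearMap.sum_apply, LinearMap.smul_apply,
    LinearMap.zero_apply, ZeroMemClass.coe_zero, AddSubmonoidClass.coe_finsetSum,
    SetLike.val_smul] at h1
  rw [← h1]
  refine Finset.sum_congr rfl fun i _ => ?_
  rw [hpow]

variable {k : Type u} {Z Q R2 : Type v} [Field k] [Field Z] [Algebra k Z] [DivisionRing Q]
  [Algebra k Q] [Algebra Z Q] [IsScalarTower k Z Q] [Ring R2] [Algebra k R2]

theorem D_alg (D : Q →ₐ[k] R2) (c : k) :
    D (algebraMap Z Q (algebraMap k Z c)) = algebraMap k R2 c := by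
  rw [← IsScalarTower.algebraMap_apply k Z Q, AlgHom.commutes]

/-- `W D(Q)` is finitely generated over `Z` acting on the right. -/
theorem gens_right [Module.Finite Z Q] (D : Q →ₐ[k] R2) (W : Submodule k R2)
    (hW : Module.Finite k W) : ∃ s : Set R2, s.Finite ∧ s ⊆ WD D W ∧ ∀ N : AddSubgroup R2,
      s ⊆ N → (∀ y ∈ N, ∀ z : Z, y * D (algebraMap Z Q z) ∈ N) → (WD D W : Set R2) ⊆ N := by
  obtain ⟨sW, hsW⟩ := Module.Finite.iff_fg.1 hW
  obtain ⟨sQ, hsQ⟩ := (inferInstance : Module.Finite Z Q)
  refine ⟨Set.image2 (fun w q => w * D q) sW sQ, Set.Finite.image2 _ sW.finite_toSet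
    sQ.finite_toSet, ?_, ?_⟩
  · rintro _ ⟨w, hw, q, -, rfl⟩
    refine Submodule.subset_span ⟨w, ?_, q, rfl⟩
    rw [← hsW]
    exact Submodule.subset_span hw
  · intro N hs hN
    have hk : ∀ (c : k) (y : R2), y ∈ N → c • y ∈ N := by
      intro c y hy
      have := hN y hy (algebraMap k Z c)
      rw [D_alg] at this
      rw [Algebra.smul_def, Algebra.commutes]
      exact this
    have h1 : ∀ q ∈ sQ, ∀ w ∈ W, w * D q ∈ N := by
      intro q hq w hw
      rw [← hsW] at hw
      induction hw using Submodule.span_induction with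
      | mem w hw => exact hs ⟨w, hw, q, hq, rfl⟩
      | zero =>
        rw [zero_mul]
        exact N.zero_mem
      | add w w' _ _ h h' =>
        rw [add_mul]
        exact N.add_mem h h'
      | smul c w _ h =>
        rw [smul_mul_assoc]
        exact hk c _ h
    have h2 : ∀ w ∈ W, ∀ q : Q, w * D q ∈ N := by
      intro w hw q
      have hq : q ∈ Submodule.span Z (sQ : Set Q) := by rw [hsQ]; trivial
      induction hq using Submodule.span_induction with
      | mem q hq => exact h1 q hq w hw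
      | zero =>
        rw [map_zero, mul_zero]
        exact N.zero_mem
      | add q q' _ _ h h' =>
        rw [map_add, mul_add]
        exact N.add_mem h h'
      | smul z q _ h =>
        rw [Algebra.smul_def, Algebra.commutes, map_mul, ← mul_assoc]
        exact hN _ h z
    intro y hy
    rw [SetLike.mem_coe] at hy
    unfold WD at hy
    induction hy using Submodule.span_induction with
    | mem y hy =>
      obtain ⟨w, hw, q, rfl⟩ := hy
      exact h2 w hw q
    | zero => exact N.zero_mem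
    | add y y' _ _ h h' => exact N.add_mem h h'
    | smul c y _ h => exact hk c y h

/-- `D(Q) W` is finitely generated over `Z` acting on the left. -/
theorem gens_left [Module.Finite Z Q] (D : Q →ₐ[k] R2) (W : Submodule k R2)
    (hW : Module.Finite k W) : ∃ s : Set R2, s.Finite ∧ s ⊆ DW D W ∧ ∀ N : AddSubgroup R2,
      s ⊆ N → (∀ y ∈ N, ∀ z : Z, D (algebraMap Z Q z) * y ∈ N) → (DW D W : Set R2) ⊆ N := by
  obtain ⟨sW, hsW⟩ := Module.Finite.iff_fg.1 hW
  obtain ⟨sQ, hsQ⟩ := (inferInstance : Module.Finite Z Q)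
  refine ⟨Set.image2 (fun w q => D q * w) sW sQ, Set.Finite.image2 _ sW.finite_toSet
    sQ.finite_toSet, ?_, ?_⟩
  · rintro _ ⟨w, hw, q, -, rfl⟩
    refine Submodule.subset_span ⟨w, ?_, q, rfl⟩
    rw [← hsW]
    exact Submodule.subset_span hw
  · intro N hs hN
    have hk : ∀ (c : k) (y : R2), y ∈ N → c • y ∈ N := by
      intro c y hy
      have := hN y hy (algebraMap k Z c)
      rw [D_alg] at this
      rw [Algebra.smul_def]
      exact this
    have h1 : ∀ q ∈ sQ, ∀ w ∈ W, D q * w ∈ N := by
      intro q hq w hw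
      rw [← hsW] at hw
      induction hw using Submodule.span_induction with
      | mem w hw => exact hs ⟨w, hw, q, hq, rfl⟩
      | zero =>
        rw [mul_zero]
        exact N.zero_mem
      | add w w' _ _ h h' =>
        rw [mul_add]
        exact N.add_mem h h'
      | smul c w _ h =>
        rw [mul_smul_comm]
        exact hk c _ h
    have h2 : ∀ w ∈ W, ∀ q : Q, D q * w ∈ N := by
      intro w hw q
      have hq : q ∈ Submodule.span Z (sQ : Set Q) := by rw [hsQ]; trivial
      induction hq using Submodule.span_induction with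
      | mem q hq => exact h1 q hq w hw
      | zero =>
        rw [map_zero, zero_mul]
        exact N.zero_mem
      | add q q' _ _ h h' =>
        rw [map_add, add_mul]
        exact N.add_mem h h'
      | smul z q _ h =>
        rw [Algebra.smul_def, map_mul, mul_assoc]
        exact hN _ h z
    intro y hy
    rw [SetLike.mem_coe] at hy
    unfold DW at hy
    induction hy using Submodule.span_induction with
    | mem y hy =>
      obtain ⟨w, hw, q, rfl⟩ := hy
      exact h2 w hw q
    | zero => exact N.zero_mem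
    | add y y' _ _ h h' => exact N.add_mem h h'
    | smul c y _ h => exact hk c y h

theorem WD_mul (D : Q →ₐ[k] R2) (W : Submodule k R2) (y : R2) (hy : y ∈ WD D W) (q : Q) :
    y * D q ∈ WD D W := by
  unfold WD at hy ⊢
  induction hy using Submodule.span_induction with
  | mem y hy =>
    obtain ⟨w, hw, q', rfl⟩ := hy
    exact Submodule.subset_span ⟨w, hw, q' * q, by rw [map_mul, mul_assoc]⟩
  | zero =>
    rw [zero_mul]
    exact Submodule.zero_mem _
  | add y y' _ _ h h' =>
    rw [add_mul]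
    exact Submodule.add_mem _ h h'
  | smul c y _ h =>
    rw [smul_mul_assoc]
    exact Submodule.smul_mem _ c h

theorem DW_mul (D : Q →ₐ[k] R2) (W : Submodule k R2) (y : R2) (hy : y ∈ DW D W) (q : Q) :
    D q * y ∈ DW D W := by
  unfold DW at hy ⊢
  induction hy using Submodule.span_induction with
  | mem y hy =>
    obtain ⟨w, hw, q', rfl⟩ := hy
    exact Submodule.subset_span ⟨w, hw, q * q', by rw [map_mul, mul_assoc]⟩
  | zero =>
    rw [mul_zero]
    exact Submodule.zero_mem _
  | add y y' _ _ h h' =>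
    rw [mul_add]
    exact Submodule.add_mem _ h h'
  | smul c y _ h =>
    rw [mul_smul_comm]
    exact Submodule.smul_mem _ c h

theorem W_le (D : Q →ₐ[k] R2) (W : Submodule k R2) (y : R2) (hy : y ∈ W) : y ∈ WD D W :=
  Submodule.subset_span ⟨y, hy, 1, by rw [map_one, mul_one]⟩

/-- the first relation -/
theorem rel_right [Module.Finite Z Q] (D : Q →ₐ[k] R2) (W : Submodule k R2)
    (hfin : Module.Finite k W) (heq : WD D W = DW D W) (a : Z) :
    ∃ p : Polynomial Z, p.Monic ∧ ∀ r ∈ W, ∑ i ∈ Finset.range (p.natDegree + 1),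
      D (algebraMap Z Q a) ^ i * r * D (algebraMap Z Q (p.coeff i)) = 0 := by
  obtain ⟨s, hs, hsV, hN⟩ := gens_right (Z := Z) D W hfin
  let g : Z →+* R2ᵐᵒᵖ := (D.comp (zQ k Z Q)).toRingHom.toOpposite (fun x y => by
    show _ * _ = _ * _
    rw [← map_mul, mul_comm, map_mul])
  let mZ : Module Z R2 := Module.compHom R2 g
  have hsm : ∀ (z : Z) (r : R2), z • r = r * D (algebraMap Z Q z) := fun z r => rfl
  let T : R2 →ₗ[Z] R2 :=
    { toFun := fun r => D (algebraMap Z Q a) * r
      map_add' := fun x y => mul_add _ _ _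
      map_smul' := fun z r => by
        rw [hsm, RingHom.id_apply, hsm, mul_assoc] }
  have hTp : ∀ (i : ℕ) (r : R2), (T ^ i) r = D (algebraMap Z Q a) ^ i * r := by
    intro i
    induction i with
    | zero =>
      intro r
      rw [pow_zero, pow_zero, one_mul]
      rfl
    | succ n ih =>
      intro r
      rw [pow_succ, Module.End.mul_apply, ih]
      show _ * (D (algebraMap Z Q a) * r) = _
      rw [pow_succ, mul_assoc]
  have h1 : (WD D W : Set R2) ⊆ (Submodule.span Z s : Submodule Z R2) := by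
    refine hN (Submodule.span Z s).toAddSubgroup Submodule.subset_span fun y hy z => ?_
    exact (Submodule.span Z s).smul_mem z hy
  have h2 : ∀ y ∈ (Submodule.span Z s : Submodule Z R2), y ∈ WD D W := by
    intro y hy
    induction hy using Submodule.span_induction with
    | mem y hy => exact hsV hy
    | zero => exact Submodule.zero_mem _
    | add y y' _ _ h h' => exact Submodule.add_mem _ h h'
    | smul z y _ h => exact WD_mul D W y h _
  obtain ⟨p, hp, hpr⟩ := core T s hs (fun y hy => h1 (by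
    have h3 := h2 y hy
    rw [heq] at h3
    have h4 := DW_mul D W y h3 (algebraMap Z Q a)
    rw [← heq] at h4
    exact h4))
  refine ⟨p, hp, fun r hr => ?_⟩
  rw [← hpr r (h1 (W_le D W r hr))]
  refine Finset.sum_congr rfl fun i _ => ?_
  rw [hTp, hsm]

/-- the second relation -/
theorem rel_left [Module.Finite Z Q] (D : Q →ₐ[k] R2) (W : Submodule k R2)
    (hfin : Module.Finite k W) (heq : WD D W = DW D W) (a : Z) :
    ∃ p : Polynomial Z, p.Monic ∧ ∀ r ∈ W, ∑ i ∈ Finset.range (p.natDegree + 1),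
      D (algebraMap Z Q (p.coeff i)) * r * D (algebraMap Z Q a) ^ i = 0 := by
  obtain ⟨s, hs, hsV, hN⟩ := gens_left (Z := Z) D W hfin
  let g : Z →+* R2 := (D.comp (zQ k Z Q)).toRingHom
  let mZ : Module Z R2 := Module.compHom R2 g
  have hsm : ∀ (z : Z) (r : R2), z • r = D (algebraMap Z Q z) * r := fun z r => rfl
  let T : R2 →ₗ[Z] R2 :=
    { toFun := fun r => r * D (algebraMap Z Q a)
      map_add' := fun x y => add_mul _ _ _
      map_smul' := fun z r => by
        rw [hsm, RingHom.id_apply, hsm, mul_assoc] }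
  have hTp : ∀ (i : ℕ) (r : R2), (T ^ i) r = r * D (algebraMap Z Q a) ^ i := by
    intro i
    induction i with
    | zero =>
      intro r
      rw [pow_zero, pow_zero, mul_one]
      rfl
    | succ n ih =>
      intro r
      rw [pow_succ, Module.End.mul_apply, ih]
      show (r * D (algebraMap Z Q a)) * _ = _
      rw [pow_succ', mul_assoc]
  have h1 : (DW D W : Set R2) ⊆ (Submodule.span Z s : Submodule Z R2) := by
    refine hN (Submodule.span Z s).toAddSubgroup Submodule.subset_span fun y hy z => ?_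
    exact (Submodule.span Z s).smul_mem z hy
  have h2 : ∀ y ∈ (Submodule.span Z s : Submodule Z R2), y ∈ DW D W := by
    intro y hy
    induction hy using Submodule.span_induction with
    | mem y hy => exact hsV hy
    | zero => exact Submodule.zero_mem _
    | add y y' _ _ h h' => exact Submodule.add_mem _ h h'
    | smul z y _ h => exact DW_mul D W y h _
  obtain ⟨p, hp, hpr⟩ := core T s hs (fun y hy => h1 (by
    have h3 := h2 y hy
    rw [← heq] at h3
    have h4 := WD_mul D W y h3 (algebraMap Z Q a)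
    rw [heq] at h4
    exact h4))
  refine ⟨p, hp, fun r hr => ?_⟩
  have h5 : r ∈ DW D W := by
    rw [← heq]
    exact W_le D W r hr
  rw [← hpr r (h1 h5)]
  refine Finset.sum_congr rfl fun i _ => ?_
  rw [hTp, hsm, mul_assoc]

end ALGM

open ALGM in
/-- **ALG.** -/
theorem specALG : SpecALG := by
  intro k Z Q F2 R2 _ _ _ _ _ _ _ _ _ _ _ _ _ _ _ D W hW Ω _ _ z x hR a
  constructor
  · obtain ⟨p, hp, hpr⟩ := rel_right (Z := Z) D W hW.fin hW.eq a
    refine ⟨p, hp, ?_⟩
    have h1 := hR (∑ i ∈ Finset.range (p.natDegree + 1), (a ^ i) ⊗ₜ[k] (p.coeff i)) (by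
      intro r hr
      rw [map_sum, ← hpr r hr]
      refine Finset.sum_congr rfl fun i _ => ?_
      rw [sand_tmul, DZ_apply, DZ_apply, map_pow, map_pow])
    rw [map_sum] at h1
    rw [Polynomial.eval₂_eq_sum_range, ← h1]
    refine Finset.sum_congr rfl fun i _ => ?_
    rw [mu_tmul, map_pow, mul_comm]
    rfl
  · obtain ⟨p, hp, hpr⟩ := rel_left (Z := Z) D W hW.fin hW.eq a
    refine ⟨p, hp, ?_⟩
    have h1 := hR (∑ i ∈ Finset.range (p.natDegree + 1), (p.coeff i) ⊗ₜ[k] (a ^ i)) (by
      intro r hr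
      rw [map_sum, ← hpr r hr]
      refine Finset.sum_congr rfl fun i _ => ?_
      rw [sand_tmul, DZ_apply, DZ_apply, map_pow, map_pow])
    rw [map_sum] at h1
    rw [Polynomial.eval₂_eq_sum_range, ← h1]
    refine Finset.sum_congr rfl fun i _ => ?_
    rw [mu_tmul, map_pow]
    rfl

end Pool.Agent.Lib.MP_c37a72_al.LB
end

section
/-!
# CHL: the point `(x, y | z, y)` of `F2[τ(F2)]`
-/
set_option autoImplicit false

open scoped TensorProduct
open Coalgebra HopfAlgebra

namespace Pool.Agent.Lib.MP_c37a72_al.LB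

universe u v w

namespace CHLM

/-- independence -/
theorem indep {k U Z Q Ω I : Type*} [Field k] [AddCommGroup U] [Module k U] [AddCommGroup Z]
    [Module k Z] [AddCommGroup Q] [Module k Q] [CommRing Ω] [Algebra k Ω] (f : I → U →ₗ[k] Q)
    (incl : Z →ₗ[k] Q) (hi : Function.Injective incl) (g : U →ₗ[k] Ω)
    (hg : ∀ u, (∀ i, f i u = 0) → g u = 0) (h : Z →ₗ[k] Ω) (w : U ⊗[k] Z)
    (hw : ∀ i, TensorProduct.map (f i) incl w = 0) :
    LinearMap.mul' k Ω (TensorProduct.map g h w) = 0 := by
  classical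
  let C := Module.Basis.ofVectorSpace k Z
  obtain ⟨b, hb⟩ := TensorProduct.eq_repr_basis_right C w
  have h1 : ∀ i m, f i (b m) = 0 := by
    intro i
    have h20 : (b.mapRange (f i) (map_zero _)).sum (fun l m => m ⊗ₜ[k] C l) =
        b.sum (fun l m => f i m ⊗ₜ[k] C l) :=
      Finsupp.sum_mapRange_index (h := fun l m => m ⊗ₜ[k] C l)
        (fun l => TensorProduct.zero_tmul _ _)
    have h2 : (incl.lTensor Q) ((b.mapRange (f i) (map_zero _)).sum
        fun l m => m ⊗ₜ[k] C l) = 0 := by
      rw [h20, ← hw i, ← hb, Finsupp.sum, Finsupp.sum, map_sum, map_sum]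
      refine Finset.sum_congr rfl fun l _ => ?_
      rw [LinearMap.lTensor_tmul, TensorProduct.map_tmul]
    have hinj : Function.Injective (incl.lTensor Q) :=
      Module.Flat.lTensor_preserves_injective_linearMap _ hi
    have h3 := TensorProduct.sum_tmul_basis_right_eq_zero C _ (hinj (h2.trans (map_zero _).symm))
    intro m
    have h4 := DFunLike.congr_fun h3 m
    rw [Finsupp.mapRange_apply] at h4
    exact h4
  rw [← hb, Finsupp.sum, map_sum, map_sum]
  apply Finset.sum_eq_zero
  intro m _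
  rw [TensorProduct.map_tmul, LinearMap.mul'_apply, hg (b m) (fun i => h1 i m), zero_mul]

theorem mu_mul {k A B R : Type*} [Field k] [Ring A] [Algebra k A] [Ring B] [Algebra k B] [Ring R]
    [Algebra k R] (p : A →ₐ[k] R) (q : B →ₐ[k] R) (h : ∀ a b, p a * q b = q b * p a) (a : A) (b : B)
    (t : A ⊗[k] B) : mu k p q ((a ⊗ₜ b) * t) = p a * q b * mu k p q t := by
  induction t with
  | zero => simp
  | add s t hs ht => rw [mul_add, map_add, map_add, mul_add, hs, ht]
  | tmul a' b' =>
    rw [Algebra.TensorProduct.tmul_mul_tmul, mu_tmul, mu_tmul, map_mul, map_mul, mul_assoc,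
      mul_assoc, ← mul_assoc (p a') (q b), h a' b, mul_assoc]

section

variable {k : Type*} {Z F2 : Type*} [Field k] [Field Z] [Algebra k Z] [Field F2] [Algebra k F2]
  {jF : Z ⊗[k] Z →ₐ[k] F2}

/-- denominators -/
theorem den (hF : IsFrc jF) (t : F2 ⊗[k] F2) :
    ∃ (c d : Z ⊗[k] Z) (s : (Z ⊗[k] Z) ⊗[k] (Z ⊗[k] Z)), c ≠ 0 ∧ d ≠ 0 ∧
      (jF c ⊗ₜ[k] jF d) * t = TensorProduct.map jF.toLinearMap jF.toLinearMap s := by
  induction t with
  | zero => exact ⟨1, 1, 0, hF.one_ne, hF.one_ne, by rw [mul_zero, map_zero]⟩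
  | tmul a b =>
    obtain ⟨a', c, hc, hac⟩ := hF.surj a
    obtain ⟨b', d, hd, hbd⟩ := hF.surj b
    refine ⟨c, d, a' ⊗ₜ b', hc, hd, ?_⟩
    rw [Algebra.TensorProduct.tmul_mul_tmul, TensorProduct.map_tmul, AlgHom.toLinearMap_apply,
      AlgHom.toLinearMap_apply, ← hac, ← hbd, mul_comm a, mul_comm b]
  | add t₁ t₂ h₁ h₂ =>
    obtain ⟨c₁, d₁, s₁, hc₁, hd₁, e₁⟩ := h₁
    obtain ⟨c₂, d₂, s₂, hc₂, hd₂, e₂⟩ := h₂
    have hmap : ∀ (c d : Z ⊗[k] Z) (s : (Z ⊗[k] Z) ⊗[k] (Z ⊗[k] Z)),
        TensorProduct.map jF.toLinearMap jF.toLinearMap ((c ⊗ₜ d) * s) =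
          (jF c ⊗ₜ[k] jF d) * TensorProduct.map jF.toLinearMap jF.toLinearMap s := by
      intro c d s
      induction s with
      | zero => simp
      | add s s' hs hs' => rw [mul_add, map_add, map_add, mul_add, hs, hs']
      | tmul a b =>
        rw [Algebra.TensorProduct.tmul_mul_tmul, TensorProduct.map_tmul, TensorProduct.map_tmul,
          Algebra.TensorProduct.tmul_mul_tmul, AlgHom.toLinearMap_apply, AlgHom.toLinearMap_apply,
          AlgHom.toLinearMap_apply, AlgHom.toLinearMap_apply, map_mul, map_mul]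
    refine ⟨c₁ * c₂, d₁ * d₂, (c₂ ⊗ₜ d₂) * s₁ + (c₁ ⊗ₜ d₁) * s₂, hF.mul_ne hc₁ hc₂,
      hF.mul_ne hd₁ hd₂, ?_⟩
    rw [map_add, hmap, hmap, ← e₁, ← e₂, mul_add, ← mul_assoc, ← mul_assoc,
      Algebra.TensorProduct.tmul_mul_tmul, Algebra.TensorProduct.tmul_mul_tmul, map_mul, map_mul,
      mul_comm (jF c₂), mul_comm (jF d₂)]

/-- `(z₁ ⊗ y₁) ⊗ (z₂ ⊗ y₂) ↦ (z₂ ⊗ z₁) ⊗ y₁ y₂` -/
noncomputable def sig (k Z : Type*) [Field k] [Field Z] [Algebra k Z] :
    (Z ⊗[k] Z) ⊗[k] (Z ⊗[k] Z) →ₗ[k] (Z ⊗[k] Z) ⊗[k] Z :=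
  TensorProduct.map (TensorProduct.comm k Z Z).toLinearMap (LinearMap.mul' k Z) ∘ₗ
    (TensorProduct.tensorTensorTensorComm k Z Z Z Z).toLinearMap

@[simp] theorem sig_tmul (z₁ y₁ z₂ y₂ : Z) :
    sig k Z ((z₁ ⊗ₜ y₁) ⊗ₜ (z₂ ⊗ₜ y₂)) = (z₂ ⊗ₜ z₁) ⊗ₜ (y₁ * y₂) := by
  simp [sig]

/-- induction for the fourfold tensor product -/
theorem ext4 {V : Type*} [AddCommGroup V] [Module k V]
    {f g : (Z ⊗[k] Z) ⊗[k] (Z ⊗[k] Z) →ₗ[k] V}
    (h : ∀ z₁ y₁ z₂ y₂ : Z, f ((z₁ ⊗ₜ y₁) ⊗ₜ (z₂ ⊗ₜ y₂)) = g ((z₁ ⊗ₜ y₁) ⊗ₜ (z₂ ⊗ₜ y₂))) : f = g := by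
  refine TensorProduct.ext' fun a b => ?_
  induction a with
  | zero => simp
  | add a a' ha ha' => rw [TensorProduct.add_tmul, map_add, map_add, ha, ha']
  | tmul z₁ y₁ =>
    induction b with
    | zero => simp
    | add b b' hb hb' => rw [TensorProduct.tmul_add, map_add, map_add, hb, hb']
    | tmul z₂ y₂ => exact h z₁ y₁ z₂ y₂

end

/-- an entry of a matrix -/
def ent (k : Type*) {Q : Type*} [Field k] [Ring Q] [Algebra k Q] {n : ℕ} (p l : Fin n) :
    Matrix (Fin n) (Fin n) Q →ₗ[k] Q where
  toFun M := M p l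
  map_add' _ _ := rfl
  map_smul' _ _ := rfl

@[simp] theorem ent_apply {k Q : Type*} [Field k] [Ring Q] [Algebra k Q] {n : ℕ} (p l : Fin n)
    (M : Matrix (Fin n) (Fin n) Q) : ent k p l M = M p l := rfl

end CHLM

open CHLM in
/-- **CHL**. -/
theorem specCHL : SpecCHL.{u, v} := by
  intro k Z Q F2 R2 _ _ _ _ _ _ _ _ _ _ _ _ _ jF j hF hj n T τ hτ Ω _ _ x y z ξ ξ' hξ hξ' hT t ht
  obtain ⟨c, d, s, hc, hd, hs⟩ := den hF t
  set P : F2 →ₐ[k] Matrix (Fin n) (Fin n) R2 :=
    IsScalarTower.toAlgHom k F2 (Matrix (Fin n) (Fin n) R2) with hP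
  set q : F2 →ₐ[k] Matrix (Fin n) (Fin n) R2 := τ.comp (IsScalarTower.toAlgHom k F2 R2) with hq
  have hcomm : ∀ a b, P a * q b = q b * P a := fun a b => Algebra.commutes a (q b)
  have e1 : mu k P q (TensorProduct.map jF.toLinearMap jF.toLinearMap s) = 0 := by
    rw [← hs, mu_mul P q hcomm, ht, mul_zero]
  -- the entries
  let muT : Z ⊗[k] Z →ₗ[k] Matrix (Fin n) (Fin n) Q :=
    mu k (T.comp (zQ k Z Q)) (IsScalarTower.toAlgHom k Z (Matrix (Fin n) (Fin n) Q))
  have h1 : ∀ p l, ent k p l ∘ₗ mu k P q ∘ₗ TensorProduct.map jF.toLinearMap jF.toLinearMap =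
      j.toLinearMap ∘ₗ TensorProduct.map (ent k p l ∘ₗ muT) (zQ k Z Q).toLinearMap ∘ₗ sig k Z := by
    intro p l
    refine ext4 fun z₁ y₁ z₂ y₂ => ?_
    simp only [LinearMap.comp_apply, TensorProduct.map_tmul, sig_tmul, AlgHom.toLinearMap_apply]
    rw [mu_tmul, ent_apply, ent_apply]
    have e2 : (P (jF (z₁ ⊗ₜ y₁)) * q (jF (z₂ ⊗ₜ y₂))) p l =
        algebraMap F2 R2 (jF (z₁ ⊗ₜ y₁)) * (τ (algebraMap F2 R2 (jF (z₂ ⊗ₜ y₂)))) p l := by
      have : P (jF (z₁ ⊗ₜ y₁)) * q (jF (z₂ ⊗ₜ y₂)) = jF (z₁ ⊗ₜ y₁) • q (jF (z₂ ⊗ₜ y₂)) :=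
        (Algebra.smul_def _ _).symm
      rw [this, Matrix.smul_apply, Algebra.smul_def]
      rfl
    have e3 : muT (z₂ ⊗ₜ z₁) p l = T (algebraMap Z Q z₂) p l * algebraMap Z Q z₁ := by
      have : muT (z₂ ⊗ₜ z₁) = z₁ • T (algebraMap Z Q z₂) := by
        show T (algebraMap Z Q z₂) * algebraMap Z (Matrix (Fin n) (Fin n) Q) z₁ = _
        rw [← Algebra.commutes, Algebra.smul_def]
      rw [this, Matrix.smul_apply, Algebra.smul_def, Algebra.commutes]
    rw [e2, e3, ← hj.comp, ← hj.comp, iZ_tmul, iZ_tmul, hτ, ← map_mul,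
      Algebra.TensorProduct.tmul_mul_tmul, Algebra.commutes z₁]
    show _ = j (_ ⊗ₜ[k] algebraMap Z Q (y₁ * y₂))
    rw [map_mul (algebraMap Z Q)]
  have h2 : ∀ p : Fin n × Fin n, TensorProduct.map (ent k p.1 p.2 ∘ₗ muT)
      (zQ k Z Q).toLinearMap (sig k Z s) = 0 := by
    intro p
    apply hj.inj
    have := LinearMap.congr_fun (h1 p.1 p.2) s
    simp only [LinearMap.comp_apply, AlgHom.toLinearMap_apply] at this
    rw [← this, e1, map_zero, map_zero]
  have h3 : mu k ξ ξ' ∘ₗ TensorProduct.map jF.toLinearMap jF.toLinearMap =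
      LinearMap.mul' k Ω ∘ₗ TensorProduct.map (mu k z x) y.toLinearMap ∘ₗ sig k Z := by
    refine ext4 fun z₁ y₁ z₂ y₂ => ?_
    simp only [LinearMap.comp_apply, TensorProduct.map_tmul, sig_tmul, AlgHom.toLinearMap_apply,
      mu_tmul, LinearMap.mul'_apply]
    rw [hξ, hξ', map_mul]
    ring
  have h4 : mu k ξ ξ' (TensorProduct.map jF.toLinearMap jF.toLinearMap s) = 0 := by
    have h5 := LinearMap.congr_fun h3 s
    simp only [LinearMap.comp_apply] at h5
    rw [h5]
    refine indep (fun p : Fin n × Fin n => ent k p.1 p.2 ∘ₗ muT) (zQ k Z Q).toLinearMap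
      (algebraMap Z Q).injective (mu k z x) (fun u hu => hT u ?_) y.toLinearMap (sig k Z s) h2
    ext p l
    exact hu (p, l)
  rw [← hs, mu_mul ξ ξ' (fun a b => mul_comm _ _), mul_eq_zero, mul_eq_zero] at h4
  rcases h4 with (h4 | h4) | h4
  · exact absurd ((map_eq_zero ξ).1 h4) (hF.ne' hc)
  · exact absurd ((map_eq_zero ξ').1 h4) (hF.ne' hd)
  · exact h4

end Pool.Agent.Lib.MP_c37a72_al.LB
end

section
/-!
# CHR: the point `(x, y | x, z)` of `F2[τ(F2)]`
-/
set_option autoImplicit false

open scoped TensorProduct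
open Coalgebra HopfAlgebra

namespace Pool.Agent.Lib.MP_c37a72_al.LB

universe u v w

namespace CHRM

/-- `(z₁ ⊗ y₁) ⊗ (z₂ ⊗ y₂) ↦ (y₂ ⊗ y₁) ⊗ z₁ z₂` -/
noncomputable def sig (k Z : Type*) [Field k] [Field Z] [Algebra k Z] :
    (Z ⊗[k] Z) ⊗[k] (Z ⊗[k] Z) →ₗ[k] (Z ⊗[k] Z) ⊗[k] Z :=
  (TensorProduct.comm k Z (Z ⊗[k] Z)).toLinearMap ∘ₗ
    TensorProduct.map (LinearMap.mul' k Z) (TensorProduct.comm k Z Z).toLinearMap ∘ₗ
    (TensorProduct.tensorTensorTensorComm k Z Z Z Z).toLinearMap

@[simp] theorem sig_tmul {k Z : Type*} [Field k] [Field Z] [Algebra k Z] (z₁ y₁ z₂ y₂ : Z) :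
    sig k Z ((z₁ ⊗ₜ y₁) ⊗ₜ (z₂ ⊗ₜ y₂)) = (y₂ ⊗ₜ y₁) ⊗ₜ (z₁ * z₂) := by
  simp [sig]

end CHRM

open CHLM CHRM in
/-- **CHR**. -/
theorem specCHR : SpecCHR.{u, v} := by
  intro k Z Q F2 R2 _ _ _ _ _ _ _ _ _ _ _ _ _ jF j hF hj n T τ hτ Ω _ _ x y z ξ ξ' hξ hξ' hT t ht
  obtain ⟨c, d, s, hc, hd, hs⟩ := den hF t
  set P : F2 →ₐ[k] Matrix (Fin n) (Fin n) R2 :=
    IsScalarTower.toAlgHom k F2 (Matrix (Fin n) (Fin n) R2) with hP
  set q : F2 →ₐ[k] Matrix (Fin n) (Fin n) R2 := τ.comp (IsScalarTower.toAlgHom k F2 R2) with hq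
  have hcomm : ∀ a b, P a * q b = q b * P a := fun a b => Algebra.commutes a (q b)
  have e1 : mu k P q (TensorProduct.map jF.toLinearMap jF.toLinearMap s) = 0 := by
    rw [← hs, mu_mul P q hcomm, ht, mul_zero]
  -- the entries
  let muT : Z ⊗[k] Z →ₗ[k] Matrix (Fin n) (Fin n) Q :=
    mu k (T.comp (zQ k Z Q)) (IsScalarTower.toAlgHom k Z (Matrix (Fin n) (Fin n) Q))
  have h1 : ∀ p l, ent k p l ∘ₗ mu k P q ∘ₗ TensorProduct.map jF.toLinearMap jF.toLinearMap =
      j.toLinearMap ∘ₗ (TensorProduct.comm k Q Q).toLinearMap ∘ₗ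
        TensorProduct.map (ent k p l ∘ₗ muT) (zQ k Z Q).toLinearMap ∘ₗ CHRM.sig k Z := by
    intro p l
    refine ext4 fun z₁ y₁ z₂ y₂ => ?_
    simp only [LinearMap.comp_apply, TensorProduct.map_tmul, CHRM.sig_tmul,
      AlgHom.toLinearMap_apply, LinearEquiv.coe_coe, TensorProduct.comm_tmul]
    rw [mu_tmul, ent_apply, ent_apply]
    have e2 : (P (jF (z₁ ⊗ₜ y₁)) * q (jF (z₂ ⊗ₜ y₂))) p l =
        algebraMap F2 R2 (jF (z₁ ⊗ₜ y₁)) * (τ (algebraMap F2 R2 (jF (z₂ ⊗ₜ y₂)))) p l := by
      have : P (jF (z₁ ⊗ₜ y₁)) * q (jF (z₂ ⊗ₜ y₂)) = jF (z₁ ⊗ₜ y₁) • q (jF (z₂ ⊗ₜ y₂)) :=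
        (Algebra.smul_def _ _).symm
      rw [this, Matrix.smul_apply, Algebra.smul_def]
      rfl
    have e3 : muT (y₂ ⊗ₜ y₁) p l = T (algebraMap Z Q y₂) p l * algebraMap Z Q y₁ := by
      have : muT (y₂ ⊗ₜ y₁) = y₁ • T (algebraMap Z Q y₂) := by
        show T (algebraMap Z Q y₂) * algebraMap Z (Matrix (Fin n) (Fin n) Q) y₁ = _
        rw [← Algebra.commutes, Algebra.smul_def]
      rw [this, Matrix.smul_apply, Algebra.smul_def, Algebra.commutes]
    rw [e2, e3, ← hj.comp, ← hj.comp, iZ_tmul, iZ_tmul, hτ, ← map_mul,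
      Algebra.TensorProduct.tmul_mul_tmul, Algebra.commutes y₁]
    show _ = j (algebraMap Z Q (z₁ * z₂) ⊗ₜ[k] _)
    rw [map_mul (algebraMap Z Q)]
  have h2 : ∀ p : Fin n × Fin n, TensorProduct.map (ent k p.1 p.2 ∘ₗ muT)
      (zQ k Z Q).toLinearMap (CHRM.sig k Z s) = 0 := by
    intro p
    apply (TensorProduct.comm k Q Q).injective
    apply hj.inj
    have := LinearMap.congr_fun (h1 p.1 p.2) s
    simp only [LinearMap.comp_apply, AlgHom.toLinearMap_apply, LinearEquiv.coe_coe] at this
    rw [← this, e1, map_zero, map_zero, map_zero]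
  have h3 : mu k ξ ξ' ∘ₗ TensorProduct.map jF.toLinearMap jF.toLinearMap =
      LinearMap.mul' k Ω ∘ₗ TensorProduct.map (mu k z y) x.toLinearMap ∘ₗ CHRM.sig k Z := by
    refine ext4 fun z₁ y₁ z₂ y₂ => ?_
    simp only [LinearMap.comp_apply, TensorProduct.map_tmul, CHRM.sig_tmul,
      AlgHom.toLinearMap_apply, mu_tmul, LinearMap.mul'_apply]
    rw [hξ, hξ', map_mul]
    ring
  have h4 : mu k ξ ξ' (TensorProduct.map jF.toLinearMap jF.toLinearMap s) = 0 := by
    have h5 := LinearMap.congr_fun h3 s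
    simp only [LinearMap.comp_apply] at h5
    rw [h5]
    refine indep (fun p : Fin n × Fin n => ent k p.1 p.2 ∘ₗ muT) (zQ k Z Q).toLinearMap
      (algebraMap Z Q).injective (mu k z y) (fun u hu => hT u ?_) x.toLinearMap
      (CHRM.sig k Z s) h2
    ext p l
    exact hu (p, l)
  rw [← hs, mu_mul ξ ξ' (fun a b => mul_comm _ _), mul_eq_zero, mul_eq_zero] at h4
  rcases h4 with (h4 | h4) | h4
  · exact absurd ((map_eq_zero ξ).1 h4) (hF.ne' hc)
  · exact absurd ((map_eq_zero ξ').1 h4) (hF.ne' hd)
  · exact h4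

end Pool.Agent.Lib.MP_c37a72_al.LB
end

section
/-!
# EXT: homomorphisms to an algebraically closed field extend along integral extensions
-/
set_option autoImplicit false

open scoped TensorProduct

namespace Pool.Agent.Lib.MP_c37a72_al.LB

universe u v w

theorem specEXT : SpecEXT := by
  intro k A B Ω _ _ _ _ _ _ _ _ _ _ hint hinj φ
  have := hint
  let P : Ideal A := RingHom.ker (φ : A →+* Ω)
  have hP : P.IsPrime := RingHom.ker_isPrime _
  obtain ⟨Q, _, hQ, hQP⟩ := Ideal.exists_ideal_over_prime_of_isIntegral P (⊥ : Ideal B)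
    (by rw [← RingHom.ker_eq_comap_bot, (RingHom.injective_iff_ker_eq_bot _).1 hinj]; exact bot_le)
  have hlo : Q.LiesOver P := ⟨hQP.symm⟩
  let : Algebra (A ⧸ P) Ω := (Ideal.Quotient.lift P (φ : A →+* Ω) (fun a ha => ha)).toAlgebra
  have hmap : ∀ a : A, algebraMap (A ⧸ P) Ω (Ideal.Quotient.mk P a) = φ a := fun a => rfl
  have hi1 : Function.Injective (algebraMap (A ⧸ P) Ω) := by
    rw [injective_iff_map_eq_zero]
    intro x hx
    obtain ⟨a, rfl⟩ := Ideal.Quotient.mk_surjective x
    rw [hmap] at hx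
    exact Ideal.Quotient.eq_zero_iff_mem.2 hx
  have hi2 : Function.Injective (algebraMap (A ⧸ P) (B ⧸ Q)) := by
    rw [injective_iff_map_eq_zero]
    intro x hx
    obtain ⟨a, rfl⟩ := Ideal.Quotient.mk_surjective x
    have h1 : Ideal.Quotient.mk Q (algebraMap A B a) = 0 := hx
    rw [Ideal.Quotient.eq_zero_iff_mem] at h1
    rw [Ideal.Quotient.eq_zero_iff_mem, ← hQP]
    exact h1
  have : FaithfulSMul (A ⧸ P) Ω := (faithfulSMul_iff_algebraMap_injective _ _).2 hi1
  have : FaithfulSMul (A ⧸ P) (B ⧸ Q) := (faithfulSMul_iff_algebraMap_injective _ _).2 hi2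
  have t1 : Module.IsTorsionFree (A ⧸ P) Ω := Module.isTorsionFree_iff_faithfulSMul.2 inferInstance
  have t2 : Module.IsTorsionFree (A ⧸ P) (B ⧸ Q) := Module.isTorsionFree_iff_faithfulSMul.2 inferInstance
  let L : (B ⧸ Q) →ₐ[A ⧸ P] Ω := IsAlgClosed.lift
  have hL : ∀ a : A, L (Ideal.Quotient.mk Q (algebraMap A B a)) = φ a := by
    intro a
    exact (L.commutes (Ideal.Quotient.mk P a)).trans (hmap a)
  refine ⟨{ (L : (B ⧸ Q) →+* Ω).comp (Ideal.Quotient.mk Q) with commutes' := fun c => ?_ }, hL⟩
  have h2 := hL (algebraMap k A c)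
  rw [← IsScalarTower.algebraMap_apply, AlgHom.commutes] at h2
  exact h2
end Pool.Agent.Lib.MP_c37a72_al.LB
end

section
/-!
# FIN: finiteness of the point sets
-/
set_option autoImplicit false

open scoped TensorProduct
open Coalgebra HopfAlgebra

namespace Pool.Agent.Lib.MP_c37a72_al.LB

universe u v w

namespace FINM

/-- Homomorphisms `w : A → Ω` compatible with `ξ : F → Ω` on the relations of `F · lam(A)`. -/
theorem fin_of {A F E Ω : Type*} [Ring A] [Field F] [Ring E] [Algebra F E] [Module.Finite F E]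
    [Field Ω] (lam : A →+* E) (ξ : F →+* Ω) (P : Set (A →+* Ω))
    (hP : ∀ w ∈ P, ∀ (n : ℕ) (a : Fin n → F) (c : Fin n → A), ∑ i, a i • lam (c i) = 0 →
      ∑ i, ξ (a i) * w (c i) = 0) : P.Finite := by
  classical
  -- generators
  obtain ⟨s, hs, hspan⟩ := Submodule.fg_span_iff_fg_span_finset_subset (Set.range lam) |>.1
    (IsNoetherian.noetherian (Submodule.span F (Set.range lam)))
  have hc : ∀ b : s, ∃ c : A, lam c = b := fun b => hs b.2
  choose c hc using hc
  let e : Fin s.card ≃ s := s.equivFin.symm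
  -- values
  have hval : ∀ w ∈ P, ∀ x : A, w x ∈ ((minpoly F (lam x)).map ξ).roots.toFinset := by
    intro w hw x
    have hmon : (minpoly F (lam x)).Monic := minpoly.monic (Algebra.IsIntegral.isIntegral _)
    rw [Multiset.mem_toFinset, Polynomial.mem_roots (hmon.map ξ).ne_zero, Polynomial.IsRoot,
      Polynomial.eval_map, Polynomial.eval₂_eq_sum_range, Finset.sum_range]
    have h1 := hP w hw _ (fun i : Fin ((minpoly F (lam x)).natDegree + 1) =>
      (minpoly F (lam x)).coeff i) (fun i => x ^ (i : ℕ)) (by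
        have h2 := minpoly.aeval F (lam x)
        rw [Polynomial.aeval_eq_sum_range, Finset.sum_range] at h2
        simpa using h2)
    simpa using h1
  -- determination
  have hdet : ∀ w ∈ P, ∀ w' ∈ P, (∀ b : s, w (c b) = w' (c b)) → w = w' := by
    intro w hw w' hw' hww
    ext x
    have hx : lam x ∈ Submodule.span F (s : Set E) := by
      rw [← hspan]
      exact Submodule.subset_span ⟨x, rfl⟩
    rw [Submodule.mem_span_finset'] at hx
    obtain ⟨f, hf⟩ := hx
    have key : ∀ u ∈ P, u x = ∑ i, ξ (f (e i)) * u (c (e i)) := by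
      intro u hu
      have h1 := hP u hu _ (Fin.cons 1 fun i => -f (e i) : Fin (s.card + 1) → F)
        (Fin.cons x fun i => c (e i)) (by
          rw [Fin.sum_univ_succ]
          simp only [Fin.cons_zero, Fin.cons_succ, one_smul, neg_smul, hc,
            Finset.sum_neg_distrib]
          rw [Equiv.sum_comp e (fun b : s => f b • (b : E)), hf, add_neg_cancel])
      rw [Fin.sum_univ_succ] at h1
      simp only [Fin.cons_zero, Fin.cons_succ, map_one, one_mul, map_neg, neg_mul,
        Finset.sum_neg_distrib] at h1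
      exact sub_eq_zero.1 (by rw [sub_eq_add_neg]; exact h1)
    rw [key w hw, key w' hw']
    exact Finset.sum_congr rfl fun i _ => by rw [hww]
  -- finiteness
  let G : (A →+* Ω) → (s → Ω) := fun w b => w (c b)
  refine Set.Finite.of_finite_image (f := G) ?_ (fun w hw w' hw' h =>
    hdet w hw w' hw' fun b => congrFun h b)
  refine (Set.Finite.pi' (t := fun b : s =>
    (((minpoly F (lam (c b))).map ξ).roots.toFinset : Set Ω)) fun b => Finset.finite_toSet _).subset ?_
  rintro _ ⟨w, hw, rfl⟩ b
  exact hval w hw (c b)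

/-- the same for homomorphisms of `k`-algebras -/
theorem fin_alg {k : Type u} {A F E Ω : Type*} [Field k] [Ring A] [Algebra k A] [Field F] [Ring E]
    [Algebra F E] [Module.Finite F E] [Field Ω] [Algebra k Ω] (lam : A →+* E) (ξ : F →+* Ω)
    (P : Set (A →ₐ[k] Ω)) (hP : ∀ w ∈ P, ∀ (n : ℕ) (a : Fin n → F) (c : Fin n → A),
      ∑ i, a i • lam (c i) = 0 → ∑ i, ξ (a i) * w (c i) = 0) : P.Finite := by
  refine Set.Finite.of_finite_image (f := fun w : A →ₐ[k] Ω => (w : A →+* Ω)) ?_
    (fun w _ w' _ h => AlgHom.coe_ringHom_injective h)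
  refine fin_of lam ξ _ ?_
  rintro _ ⟨w, hw, rfl⟩ n a c h
  exact hP w hw n a c h

section rel

variable {k : Type u} {Z Q R2 : Type v} [Field k] [Field Z] [Algebra k Z] [DivisionRing Q]
  [Algebra k Q] [Algebra Z Q] [IsScalarTower k Z Q] [Ring R2] [Algebra k R2]

/-- `R2` as a `Z`-module by right multiplication with `D z` -/
@[reducible] noncomputable def modR (D : Q →ₐ[k] R2) (Z : Type v) [Field Z] [Algebra k Z]
    [Algebra Z Q] [IsScalarTower k Z Q] : Module Z R2 where
  smul z r := r * DZ D Z z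
  one_smul r := by
    show r * DZ D Z 1 = r
    rw [map_one, mul_one]
  mul_smul a b r := by
    show r * DZ D Z (a * b) = r * DZ D Z b * DZ D Z a
    rw [mul_comm a b, map_mul, mul_assoc]
  smul_zero a := by
    show (0 : R2) * DZ D Z a = 0
    rw [zero_mul]
  smul_add a r s := by
    show (r + s) * DZ D Z a = r * DZ D Z a + s * DZ D Z a
    rw [add_mul]
  add_smul a b r := by
    show r * DZ D Z (a + b) = r * DZ D Z a + r * DZ D Z b
    rw [map_add, mul_add]
  zero_smul r := by
    show r * DZ D Z 0 = 0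
    rw [map_zero, mul_zero]

theorem rel_fin [Module.Finite Z Q] (D : Q →ₐ[k] R2) (W : Submodule k R2) (hW : Bif D W)
    (Ω : Type v) [Field Ω] [Algebra k Ω] (x : Z →ₐ[k] Ω) :
    {z : Z →ₐ[k] Ω | Rel D W z x}.Finite := by
  classical
  let _ : Module Z R2 := modR D Z
  have hsm : ∀ (z : Z) (r : R2), z • r = r * D (algebraMap Z Q z) := fun _ _ => rfl
  -- closure properties of `N = WD D W`
  have hr : ∀ r ∈ WD D W, ∀ q : Q, r * D q ∈ WD D W := by
    intro r hr q
    induction hr using Submodule.span_induction with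
    | mem r h =>
      obtain ⟨w, hw, p, rfl⟩ := h
      rw [mul_assoc, ← map_mul]
      exact Submodule.subset_span ⟨w, hw, p * q, rfl⟩
    | zero => rw [zero_mul]; exact Submodule.zero_mem _
    | add a b _ _ ha hb => rw [add_mul]; exact Submodule.add_mem _ ha hb
    | smul c a _ ha => rw [smul_mul_assoc]; exact Submodule.smul_mem _ _ ha
  have hl : ∀ r ∈ WD D W, ∀ q : Q, D q * r ∈ WD D W := by
    intro r hr q
    rw [hW.eq] at hr ⊢
    induction hr using Submodule.span_induction with
    | mem r h =>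
      obtain ⟨w, hw, p, rfl⟩ := h
      rw [← mul_assoc, ← map_mul]
      exact Submodule.subset_span ⟨w, hw, q * p, rfl⟩
    | zero => rw [mul_zero]; exact Submodule.zero_mem _
    | add a b _ _ ha hb => rw [mul_add]; exact Submodule.add_mem _ ha hb
    | smul c a _ ha => rw [mul_smul_comm]; exact Submodule.smul_mem _ _ ha
  have hWN : ∀ r ∈ W, r ∈ WD D W := fun r hr =>
    Submodule.subset_span ⟨r, hr, 1, by rw [map_one, mul_one]⟩
  let N : Submodule Z R2 :=
    { carrier := WD D W
      add_mem' := fun {a b} ha hb => Submodule.add_mem _ ha hb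
      zero_mem' := Submodule.zero_mem _
      smul_mem' := fun z r hr' => hr r hr' _ }
  have hN : ∀ r, r ∈ N ↔ r ∈ WD D W := fun _ => Iff.rfl
  -- `N` is finite over `Z`
  have hfinN : Module.Finite Z N := by
    have := hW.fin
    obtain ⟨n, w, hw⟩ := Module.Finite.exists_fin (R := k) (M := W)
    obtain ⟨m, q, hq⟩ := Module.Finite.exists_fin (R := Z) (M := Q)
    have hle : N ≤ Submodule.span Z (Set.range fun p : Fin n × Fin m => (w p.1 : R2) * D (q p.2)) := by
      set S := Submodule.span Z (Set.range fun p : Fin n × Fin m => (w p.1 : R2) * D (q p.2)) with hS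
      -- closed under scalars of `k`
      have hk : ∀ (c : k) (r : R2), r ∈ S → c • r ∈ S := by
        intro c r hr'
        have e : c • r = (algebraMap k Z c) • r := by
          rw [hsm, ← IsScalarTower.algebraMap_apply, AlgHom.commutes, Algebra.smul_def,
            Algebra.commutes]
        rw [e]
        exact Submodule.smul_mem _ _ hr'
      have h1 : ∀ (i : Fin n) (p : Q), (w i : R2) * D p ∈ S := by
        intro i p
        have hp : p ∈ Submodule.span Z (Set.range q) := by rw [hq]; exact Submodule.mem_top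
        induction hp using Submodule.span_induction with
        | mem p h =>
          obtain ⟨l, rfl⟩ := h
          exact Submodule.subset_span ⟨(i, l), rfl⟩
        | zero => rw [map_zero, mul_zero]; exact Submodule.zero_mem _
        | add a b _ _ ha hb => rw [map_add, mul_add]; exact Submodule.add_mem _ ha hb
        | smul c a _ ha =>
          have e : (w i : R2) * D (c • a) = c • ((w i : R2) * D a) := by
            rw [hsm, Algebra.smul_def, Algebra.commutes, map_mul, mul_assoc]
          rw [e]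
          exact Submodule.smul_mem _ _ ha
      have h2 : ∀ (r : W) (p : Q), (r : R2) * D p ∈ S := by
        intro r p
        have hr' : r ∈ Submodule.span k (Set.range w) := by rw [hw]; exact Submodule.mem_top
        induction hr' using Submodule.span_induction with
        | mem r h =>
          obtain ⟨l, rfl⟩ := h
          exact h1 l p
        | zero => rw [Submodule.coe_zero, zero_mul]; exact Submodule.zero_mem _
        | add a b _ _ ha hb => rw [Submodule.coe_add, add_mul]; exact Submodule.add_mem _ ha hb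
        | smul c a _ ha => rw [Submodule.coe_smul, smul_mul_assoc]; exact hk _ _ ha
      intro r hr'
      rw [hN] at hr'
      induction hr' using Submodule.span_induction with
      | mem r h =>
        obtain ⟨w', hw', p, rfl⟩ := h
        exact h2 ⟨w', hw'⟩ p
      | zero => exact Submodule.zero_mem _
      | add a b _ _ ha hb => exact Submodule.add_mem _ ha hb
      | smul c a _ ha => exact hk _ _ ha
    have : Module.Finite Z (Submodule.span Z
        (Set.range fun p : Fin n × Fin m => (w p.1 : R2) * D (q p.2))) :=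
      Module.Finite.span_of_finite Z (Set.finite_range _)
    exact Module.Finite.of_injective (Submodule.inclusion hle) (Submodule.inclusion_injective hle)
  -- left multiplication
  let lam : Z →+* Module.End Z N :=
    { toFun := fun c =>
        { toFun := fun r => ⟨D (algebraMap Z Q c) * r, hl r r.2 _⟩
          map_add' := fun a b => Subtype.ext (by
            show D (algebraMap Z Q c) * ((a : R2) + b) = _
            rw [mul_add]
            rfl)
          map_smul' := fun z a => Subtype.ext (by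
            show D (algebraMap Z Q c) * ((a : R2) * D (algebraMap Z Q z)) = _
            rw [← mul_assoc]
            rfl) }
      map_one' := LinearMap.ext fun r => Subtype.ext (by
        show D (algebraMap Z Q 1) * (r : R2) = r
        rw [map_one, map_one, one_mul])
      map_mul' := fun a b => LinearMap.ext fun r => Subtype.ext (by
        show D (algebraMap Z Q (a * b)) * (r : R2) =
          D (algebraMap Z Q a) * (D (algebraMap Z Q b) * (r : R2))
        rw [map_mul, map_mul, mul_assoc])
      map_zero' := LinearMap.ext fun r => Subtype.ext (by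
        show D (algebraMap Z Q 0) * (r : R2) = 0
        rw [map_zero, map_zero, zero_mul])
      map_add' := fun a b => LinearMap.ext fun r => Subtype.ext (by
        show D (algebraMap Z Q (a + b)) * (r : R2) =
          D (algebraMap Z Q a) * (r : R2) + D (algebraMap Z Q b) * (r : R2)
        rw [map_add, map_add, add_mul]) }
  have hlam : ∀ (c : Z) (r : N), ((lam c r : N) : R2) = D (algebraMap Z Q c) * r := fun _ _ => rfl
  refine fin_alg (E := Module.End Z N) lam (x : Z →+* Ω) _ ?_
  intro z hz n a c h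
  have h1 := hz (∑ i, c i ⊗ₜ[k] a i) (fun r hr' => by
    have h2 := LinearMap.congr_fun h ⟨r, hWN r hr'⟩
    have h3 := congrArg (fun y : N => (y : R2)) h2
    rw [map_sum]
    simp only [sand_tmul, DZ_apply]
    simp only [LinearMap.sum_apply, LinearMap.smul_apply, Submodule.coe_sum, Submodule.coe_smul,
      hlam, hsm, LinearMap.zero_apply, Submodule.coe_zero] at h3
    exact h3)
  rw [map_sum] at h1
  simp only [mu_tmul] at h1
  rw [← h1]
  exact Finset.sum_congr rfl fun i _ => mul_comm _ _

end rel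

end FINM

open FINM in
theorem specFIN : SpecFIN.{u, v} := by
  intro k Z Q F2 R2 _ _ _ _ _ _ _ _ _ _ _ _ _ _ _ D K _ Ω _ _ ξ
  refine ⟨?_, ?_, fun W hW x => rel_fin D W hW Ω x⟩
  · refine fin_alg (DZ D Z : Z →+* R2) (ξ : F2 →+* Ω) _ ?_
    intro w hw n a c h
    have h1 := hw (∑ i, a i ⊗ₜ[k] c i) (by
      rw [map_sum]
      simp only [mu_tmul]
      rw [← h]
      exact Finset.sum_congr rfl fun i _ => (Algebra.smul_def _ _).symm)
    rw [map_sum] at h1
    simpa using h1
  · refine fin_alg (K.val : K →+* R2) (ξ : F2 →+* Ω) _ ?_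
    intro w hw n a c h
    have h0 : ((∑ i, a i • c i : K) : R2) = ∑ i, a i • (c i : R2) := by simp
    have h1 : ∑ i, a i • c i = 0 := Subtype.ext (h0.trans h)
    have h2 : w (∑ i, a i • c i) = 0 := by rw [h1, map_zero]
    rw [map_sum] at h2
    rw [← h2]
    refine Finset.sum_congr rfl fun i _ => ?_
    rw [Algebra.smul_def, map_mul, hw]
    rfl

end Pool.Agent.Lib.MP_c37a72_al.LB
end

section
/-!
# KEX: extension of points, in the language of `Kill`
-/
set_option autoImplicit false

open scoped TensorProduct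
open Coalgebra HopfAlgebra

namespace Pool.Agent.Lib.MP_c37a72_al.LB

universe u v w

namespace KEXM

variable {k : Type u} {A B C R : Type v} [Field k] [CommRing A] [Algebra k A] [CommRing B]
  [Algebra k B] [CommRing C] [Algebra k C] [Ring R] [Algebra k R]

/-- `a ⊗ b ↦ p a * q b` as a homomorphism. -/
noncomputable def l2 (p : A →ₐ[k] R) (q : B →ₐ[k] R) (h : ∀ a b, p a * q b = q b * p a) :
    A ⊗[k] B →ₐ[k] R :=
  Algebra.TensorProduct.lift p q (fun a b => (show Commute (p a) (q b) from h a b))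

theorem l2_tmul (p : A →ₐ[k] R) (q : B →ₐ[k] R) (h : ∀ a b, p a * q b = q b * p a) (a : A) (b : B) :
    l2 p q h (a ⊗ₜ b) = p a * q b :=
  Algebra.TensorProduct.lift_tmul _ _ _ _ _

theorem l2_eq (p : A →ₐ[k] R) (q : B →ₐ[k] R) (h : ∀ a b, p a * q b = q b * p a)
    (t : A ⊗[k] B) : l2 p q h t = mu k p q t := by
  induction t using TensorProduct.induction_on with
  | zero => rw [map_zero, map_zero]
  | add x y hx hy => rw [map_add, map_add, hx, hy]
  | tmul a b => rw [l2_tmul, mu_tmul]

theorem l2_comm (p : A →ₐ[k] R) (q : B →ₐ[k] R) (r : C →ₐ[k] R)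
    (h : ∀ a b, p a * q b = q b * p a) (hpr : ∀ a c, p a * r c = r c * p a)
    (hqr : ∀ b c, q b * r c = r c * q b) (t : A ⊗[k] B) (c : C) :
    l2 p q h t * r c = r c * l2 p q h t := by
  induction t using TensorProduct.induction_on with
  | zero => rw [map_zero, zero_mul, mul_zero]
  | add x y hx hy => rw [map_add, add_mul, mul_add, hx, hy]
  | tmul a b => rw [l2_tmul, mul_assoc, hqr, ← mul_assoc, hpr, mul_assoc]

/-- The extension, for abstract commutative rings `T → U` over `R`. -/
theorem core (hEXT : SpecEXT.{u, v}) {T U F Ω : Type v} [CommRing T] [Algebra k T] [CommRing U]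
    [Algebra k U] [Field F] [Algebra F R] [Module.Finite F R] [Field Ω] [IsAlgClosed Ω]
    [Algebra k Ω] (inc : T →ₐ[k] U) (L2 : T →ₐ[k] R) (L3 : U →ₐ[k] R)
    (hinc : ∀ t, L3 (inc t) = L2 t) (hF : ∀ x : F, ∃ t, L2 t = algebraMap F R x)
    (fg : T →ₐ[k] Ω) (hfg : ∀ t, L2 t = 0 → fg t = 0) :
    ∃ ψ : U →ₐ[k] Ω, (∀ u, L3 u = 0 → ψ u = 0) ∧ ∀ t, ψ (inc t) = fg t := by
  let I2 : Ideal T := RingHom.ker L2
  let I3 : Ideal U := RingHom.ker L3
  have hle : I2 ≤ I3.comap inc := by
    intro t ht
    show L3 (inc t) = 0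
    rw [hinc]
    exact ht
  let m : T ⧸ I2 →ₐ[k] U ⧸ I3 := Ideal.quotientMapₐ I3 inc hle
  have hm : ∀ t, m (Ideal.Quotient.mk I2 t) = Ideal.Quotient.mk I3 (inc t) := fun t => rfl
  let e2 : T ⧸ I2 →+* R := RingHom.kerLift (L2 : T →+* R)
  let e3 : U ⧸ I3 →+* R := RingHom.kerLift (L3 : U →+* R)
  have he2 : ∀ t, e2 (Ideal.Quotient.mk I2 t) = L2 t := fun t => rfl
  have he3 : ∀ t, e3 (Ideal.Quotient.mk I3 t) = L3 t := fun t => rfl
  have hi2 : Function.Injective e2 := RingHom.kerLift_injective _
  have hi3 : Function.Injective e3 := RingHom.kerLift_injective _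
  have hem : ∀ x, e3 (m x) = e2 x := by
    intro x
    obtain ⟨t, rfl⟩ := Ideal.Quotient.mk_surjective x
    rw [hm, he3, he2, hinc]
  have hmi : Function.Injective m := by
    intro x y hxy
    apply hi2
    rw [← hem, ← hem, hxy]
  choose a ha using hF
  have hea : ∀ x, e2 (Ideal.Quotient.mk I2 (a x)) = algebraMap F R x := fun x => by
    rw [he2, ha x]
  let s : F →+* T ⧸ I2 :=
    { toFun := fun x => Ideal.Quotient.mk I2 (a x)
      map_one' := hi2 (by rw [hea, map_one, map_one])
      map_mul' := fun x y => hi2 (by rw [map_mul, hea, hea, hea, map_mul])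
      map_zero' := hi2 (by rw [hea, map_zero, map_zero])
      map_add' := fun x y => hi2 (by rw [map_add, hea, hea, hea, map_add]) }
  have hs : ∀ x, e2 (s x) = algebraMap F R x := hea
  let _ : Algebra (T ⧸ I2) (U ⧸ I3) := RingHom.toAlgebra (m : T ⧸ I2 →+* U ⧸ I3)
  let _ : Algebra F (T ⧸ I2) := RingHom.toAlgebra s
  let _ : Algebra F (U ⧸ I3) := RingHom.toAlgebra ((m : T ⧸ I2 →+* U ⧸ I3).comp s)
  have : IsScalarTower F (T ⧸ I2) (U ⧸ I3) := IsScalarTower.of_algebraMap_eq fun x => rfl
  have : IsScalarTower k (T ⧸ I2) (U ⧸ I3) :=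
    IsScalarTower.of_algebraMap_eq fun x => (m.commutes x).symm
  have hint : Algebra.IsIntegral (T ⧸ I2) (U ⧸ I3) := by
    refine ⟨fun x => ?_⟩
    have h1 : IsIntegral F (e3 x) := Algebra.IsIntegral.isIntegral _
    let e3' : U ⧸ I3 →ₐ[F] R :=
      { e3 with commutes' := fun y => (hem (s y)).trans (hs y) }
    have h2 : IsIntegral F (e3' x) := h1
    have h3 : IsIntegral F x := (isIntegral_algHom_iff e3' hi3).1 h2
    exact h3.tower_top
  let φ : T ⧸ I2 →ₐ[k] Ω := Ideal.Quotient.liftₐ I2 fg (fun t ht => hfg t ht)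
  have hφ : ∀ t, φ (Ideal.Quotient.mk I2 t) = fg t := fun t => rfl
  obtain ⟨ψ, hψ⟩ := hEXT k (T ⧸ I2) (U ⧸ I3) Ω hint hmi φ
  refine ⟨ψ.comp (Ideal.Quotient.mkₐ k I3), fun u hu => ?_, fun t => ?_⟩
  · have h2 : Ideal.Quotient.mk I3 u = 0 := Ideal.Quotient.eq_zero_iff_mem.2 hu
    show ψ (Ideal.Quotient.mk I3 u) = 0
    rw [h2, map_zero]
  · exact (hψ (Ideal.Quotient.mk I2 t)).trans (hφ t)

end KEXM

open KEXM in
theorem specKEX (hEXT : SpecEXT.{u, v}) : SpecKEX.{u, v} := by
  intro k F R A B C Ω _ _ _ _ _ _ _ _ _ _ _ _ _ _ _ _ _ p q r f g hF hpq hpr hqr hk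
  have hc3 := l2_comm p q r hpq hpr hqr
  let L2 : A ⊗[k] B →ₐ[k] R := l2 p q hpq
  let L3 : (A ⊗[k] B) ⊗[k] C →ₐ[k] R := l2 L2 r hc3
  let inc : A ⊗[k] B →ₐ[k] (A ⊗[k] B) ⊗[k] C := Algebra.TensorProduct.includeLeft
  have hinc : ∀ t, L3 (inc t) = L2 t := fun t => by
    show l2 L2 r hc3 (t ⊗ₜ 1) = _
    rw [l2_tmul, map_one, mul_one]
  let fg : A ⊗[k] B →ₐ[k] Ω := l2 f g (fun a b => mul_comm _ _)
  have hfg : ∀ t, L2 t = 0 → fg t = 0 := by
    intro t ht
    show l2 f g _ t = 0
    rw [l2_eq]
    refine hk t ?_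
    rw [← l2_eq p q hpq]
    exact ht
  obtain ⟨ψ, hψ0, hψ⟩ := core (F := F) hEXT inc L2 L3 hinc (fun x => by
    obtain ⟨a, ha⟩ := hF x
    refine ⟨a ⊗ₜ 1, ?_⟩
    rw [← ha]
    show l2 p q hpq (a ⊗ₜ 1) = _
    rw [l2_tmul, map_one, mul_one]) fg hfg
  let h : C →ₐ[k] Ω := ψ.comp
    (Algebra.TensorProduct.includeRight : C →ₐ[k] (A ⊗[k] B) ⊗[k] C)
  have hh : ∀ c, h c = ψ (1 ⊗ₜ c) := fun c => rfl
  have key : ∀ (t : (A ⊗[k] B) ⊗[k] C), L3 t = 0 → mu k fg h t = 0 := by
    intro t ht
    have h1 : ∀ t, mu k fg h t = ψ t := by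
      intro t
      induction t using TensorProduct.induction_on with
      | zero => simp
      | add x y hx hy => rw [map_add, hx, hy, map_add]
      | tmul x c =>
        rw [mu_tmul, ← hψ, hh, ← map_mul]
        congr 1
        show (x ⊗ₜ[k] (1 : C)) * ((1 : A ⊗[k] B) ⊗ₜ[k] c) = x ⊗ₜ c
        rw [Algebra.TensorProduct.tmul_mul_tmul, mul_one, one_mul]
    rw [h1]
    exact hψ0 t ht
  refine ⟨h, fun t ht => ?_, fun t ht => ?_⟩
  · let T : A ⊗[k] C →ₐ[k] (A ⊗[k] B) ⊗[k] C :=
      Algebra.TensorProduct.map (Algebra.TensorProduct.includeLeft : A →ₐ[k] A ⊗[k] B) (AlgHom.id k C)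
    have e1 : ∀ t, L3 (T t) = mu k p r t := by
      intro t
      induction t using TensorProduct.induction_on with
      | zero => simp
      | add x y hx hy => rw [map_add, map_add, hx, hy, map_add]
      | tmul x c =>
        show l2 L2 r hc3 ((x ⊗ₜ[k] (1 : B)) ⊗ₜ[k] c) = _
        rw [l2_tmul, mu_tmul]
        congr 1
        show l2 p q hpq (x ⊗ₜ[k] (1 : B)) = _
        rw [l2_tmul, map_one, mul_one]
    have e2 : ∀ t, mu k fg h (T t) = mu k f h t := by
      intro t
      induction t using TensorProduct.induction_on with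
      | zero => simp
      | add x y hx hy => rw [map_add, map_add, hx, hy, map_add]
      | tmul x c =>
        show mu k fg h ((x ⊗ₜ[k] (1 : B)) ⊗ₜ[k] c) = _
        rw [mu_tmul, mu_tmul]
        congr 1
        show l2 f g _ (x ⊗ₜ[k] (1 : B)) = _
        rw [l2_tmul, map_one, mul_one]
    rw [← e2]
    exact key _ (by rw [e1, ht])
  · let T : B ⊗[k] C →ₐ[k] (A ⊗[k] B) ⊗[k] C :=
      Algebra.TensorProduct.map (Algebra.TensorProduct.includeRight : B →ₐ[k] A ⊗[k] B) (AlgHom.id k C)
    have e1 : ∀ t, L3 (T t) = mu k q r t := by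
      intro t
      induction t using TensorProduct.induction_on with
      | zero => simp
      | add x y hx hy => rw [map_add, map_add, hx, hy, map_add]
      | tmul x c =>
        show l2 L2 r hc3 (((1 : A) ⊗ₜ[k] x) ⊗ₜ[k] c) = _
        rw [l2_tmul, mu_tmul]
        congr 1
        show l2 p q hpq ((1 : A) ⊗ₜ[k] x) = _
        rw [l2_tmul, map_one, one_mul]
    have e2 : ∀ t, mu k fg h (T t) = mu k g h t := by
      intro t
      induction t using TensorProduct.induction_on with
      | zero => simp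
      | add x y hx hy => rw [map_add, map_add, hx, hy, map_add]
      | tmul x c =>
        show mu k fg h (((1 : A) ⊗ₜ[k] x) ⊗ₜ[k] c) = _
        rw [mu_tmul, mu_tmul]
        congr 1
        show l2 f g _ ((1 : A) ⊗ₜ[k] x) = _
        rw [l2_tmul, map_one, one_mul]
    rw [← e2]
    exact key _ (by rw [e1, ht])

end Pool.Agent.Lib.MP_c37a72_al.LB
end

section
/-!
# MP_c37a72_al, block LB, module LAB: points and labels
-/
set_option autoImplicit false

open scoped TensorProduct

namespace Pool.Agent.Lib.MP_c37a72_al.LB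

universe u v w

namespace LABM

/-- `mu` and a homomorphism of the target. -/
theorem mu_comp {k : Type u} {A B : Type*} {F Ω : Type*} [Field k] [Ring A] [Algebra k A] [Ring B]
    [Algebra k B] [Field F] [Algebra k F] [Field Ω] [Algebra k Ω] (xt : F →ₐ[k] Ω)
    (f : A →ₐ[k] F) (g : B →ₐ[k] F) (z : A →ₐ[k] Ω) (x : B →ₐ[k] Ω)
    (hz : ∀ a, z a = xt (f a)) (hx : ∀ b, x b = xt (g b)) (t : A ⊗[k] B) :
    mu k z x t = xt (mu k f g t) := by
  have : mu k z x = xt.toLinearMap ∘ₗ mu k f g := by
    apply TensorProduct.ext'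
    intro a b
    simp [hz, hx]
  rw [this]
  rfl

/-- A root in `Ω` of a monic polynomial over an algebraically closed field `F ⊆ Ω` is in `F`. -/
theorem mem_range {F Ω : Type*} [Field F] [IsAlgClosed F] [Field Ω] (xt : F →+* Ω) (y : Ω)
    (p : Polynomial F) (hp : p.Monic) (h : p.eval₂ xt y = 0) : ∃ b, xt b = y := by
  let := xt.toAlgebra
  have hi : IsIntegral F y := ⟨p, hp, h⟩
  have h1 : (minpoly F y).degree = 1 :=
    IsAlgClosed.degree_eq_one_of_irreducible F (minpoly.irreducible hi)
  obtain ⟨b, hb⟩ := minpoly.mem_range_of_degree_eq_one F y h1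
  exact ⟨b, hb⟩

/-- Extension of a point `z₀ : Z → F` to an automorphism. -/
theorem exists_aut {k Z F : Type*} [Field k] [Field Z] [Algebra k Z] [Field F] [IsAlgClosed F]
    [Algebra k F] [Algebra Z F] [IsScalarTower k Z F] [Algebra.IsAlgebraic Z F] (z₀ : Z →ₐ[k] F)
    (h : ∀ a : Z, ∃ p : Polynomial Z, p.Monic ∧
      p.eval₂ (z₀ : Z →+* F) (algebraMap Z F a) = 0) :
    ∃ τ : F ≃ₐ[k] F, ∀ a, τ (algebraMap Z F a) = z₀ a := by
  classical
  have hinj : Function.Injective z₀ := z₀.toRingHom.injective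
  let e : Z ≃ₐ[k] z₀.range := AlgEquiv.ofInjective z₀ hinj
  have he : ∀ a, ((e a : z₀.range) : F) = z₀ a := fun a => rfl
  have hA : ∀ a : Z, algebraMap Z F a ∈ integralClosure z₀.range F := by
    intro a
    obtain ⟨p, hp, h0⟩ := h a
    refine ⟨p.map (e : Z →+* z₀.range), hp.map _, ?_⟩
    have hc : (algebraMap z₀.range F).comp (e : Z →+* z₀.range) = (z₀ : Z →+* F) :=
      RingHom.ext fun _ => rfl
    rw [Polynomial.eval₂_map]
    exact (congrArg (fun φ => Polynomial.eval₂ φ (algebraMap Z F a) p) hc).trans h0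
  let i : Z →+* integralClosure z₀.range F := (algebraMap Z F).codRestrict _ hA
  have hint : ∀ f : F, IsIntegral z₀.range f := by
    intro f
    obtain ⟨p, hp, h0⟩ := Algebra.IsIntegral.isIntegral (R := Z) f
    have h1 : IsIntegral (integralClosure z₀.range F) f := by
      refine ⟨p.map i, hp.map _, ?_⟩
      have hc : (algebraMap (integralClosure z₀.range F) F).comp i = algebraMap Z F :=
        RingHom.ext fun _ => rfl
      rw [Polynomial.eval₂_map]
      exact (congrArg (fun φ => Polynomial.eval₂ φ f p) hc).trans h0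
    exact isIntegral_trans (A := integralClosure z₀.range F) f h1
  have : Algebra.IsIntegral z₀.range F := ⟨hint⟩
  have : Algebra.IsAlgebraic z₀.range F := inferInstance
  have : IsAlgClosure z₀.range F := ⟨inferInstance, inferInstance⟩
  have : IsAlgClosure Z F := ⟨inferInstance, inferInstance⟩
  let τ : F ≃+* F := IsAlgClosure.equivOfEquiv F F (e : Z ≃+* z₀.range)
  have hτ : ∀ a, τ (algebraMap Z F a) = z₀ a := by
    intro a
    have := IsAlgClosure.equivOfEquiv_algebraMap F F (e : Z ≃+* z₀.range) a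
    exact this
  refine ⟨AlgEquiv.ofRingEquiv (f := τ) ?_, ?_⟩
  · intro c
    rw [IsScalarTower.algebraMap_apply k Z F, hτ]
    rw [z₀.commutes]
    exact IsScalarTower.algebraMap_apply k Z F c
  · intro a
    exact hτ a

end LABM

open LABM in
theorem specLAB (hALG : SpecALG.{u, v}) : SpecLAB.{u, v} := by
  intro k Z Q F2 R2 _ _ _ _ _ _ _ _ _ _ _ _ _ _ _ D W hW F _ _ _ _ _ _ Ω _ _ z x xt hxt
  constructor
  · intro hR
    have h1 := hALG k Z Q F2 R2 D W hW Ω z x hR
    have hz : ∀ a, ∃ b, xt b = z a := by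
      intro a
      obtain ⟨p, hp, h0⟩ := (h1 a).1
      refine mem_range (xt : F →+* Ω) (z a) (p.map (algebraMap Z F)) (hp.map _) ?_
      rw [Polynomial.eval₂_map]
      convert h0 using 2
      ext b
      exact hxt b
    have hinj : Function.Injective xt := xt.toRingHom.injective
    let e : F ≃ₐ[k] xt.range := AlgEquiv.ofInjective xt hinj
    let z₀ : Z →ₐ[k] F := (e.symm : xt.range →ₐ[k] F).comp
      (z.codRestrict xt.range (fun a => by
        obtain ⟨b, hb⟩ := hz a
        exact ⟨b, hb⟩))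
    have hz₀ : ∀ a, xt (z₀ a) = z a := by
      intro a
      have h2 : e (z₀ a) = (z.codRestrict xt.range (fun a => by
        obtain ⟨b, hb⟩ := hz a
        exact ⟨b, hb⟩)) a := e.apply_symm_apply _
      have h3 := congrArg (Subtype.val) h2
      exact h3
    obtain ⟨τ, hτ⟩ := exists_aut z₀ (by
      intro a
      obtain ⟨p, hp, h0⟩ := (h1 a).2
      refine ⟨p, hp, hinj ?_⟩
      rw [map_zero, ← h0]
      have h4 : xt (Polynomial.eval₂ (z₀ : Z →+* F) (algebraMap Z F a) p) =
        (xt : F →+* Ω) (Polynomial.eval₂ (z₀ : Z →+* F) (algebraMap Z F a) p) := rfl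
      rw [h4, Polynomial.hom_eval₂]
      have h5 : (xt : F →+* Ω).comp (z₀ : Z →+* F) = (z : Z →+* Ω) := by
        ext b
        exact hz₀ b
      rw [h5]
      congr 1
      exact hxt a)
    refine ⟨τ, ?_, ?_⟩
    · intro t ht
      have h6 := hR t ht
      rw [mu_comp xt (rs Z τ) (rs Z 1) z x (fun a => by rw [rs_apply, hτ, hz₀])
        (fun b => by rw [rs_apply, ← hxt b]; rfl) t] at h6
      exact hinj (by rw [h6, map_zero])
    · intro a
      rw [hτ, hz₀]
  · rintro ⟨τ, hτ, hz⟩ t ht
    have h6 := hτ t ht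
    rw [mu_comp xt (rs Z τ) (rs Z 1) z x (fun a => by rw [rs_apply, hz])
        (fun b => by rw [rs_apply, ← hxt b]; rfl) t, h6, map_zero]

end Pool.Agent.Lib.MP_c37a72_al.LB
end

section
/-!
# MP_c37a72_al, block LB, module LCL: labels are stable under `Gal(F / Z)` and finite modulo it
-/
set_option autoImplicit false

open scoped TensorProduct
open Coalgebra HopfAlgebra

namespace Pool.Agent.Lib.MP_c37a72_al.LB

universe u v w

namespace LCLM

section

variable {k : Type u} {Z Q R2 : Type v} [Field k] [Field Z] [Algebra k Z] [DivisionRing Q]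
  [Algebra k Q] [Algebra Z Q] [IsScalarTower k Z Q] [Ring R2] [Algebra k R2]

/-- right multiplication by `D z` -/
noncomputable def rmh (D : Q →ₐ[k] R2) : Z →+* R2ᵐᵒᵖ where
  toFun z := MulOpposite.op (D (algebraMap Z Q z))
  map_one' := by simp
  map_mul' a b := by
    rw [← MulOpposite.op_mul, ← map_mul, ← map_mul, mul_comm a b]
  map_zero' := by simp
  map_add' a b := by simp

/-- linearity in the middle argument -/
theorem sand_zero_of_span (D : Q →ₐ[k] R2) {n : ℕ} (w : Fin n → R2) (t : Z ⊗[k] Z)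
    (h : ∀ j, sand k (DZ D Z) (DZ D Z) (w j) t = 0) :
    ∀ r ∈ Submodule.span k (Set.range w), sand k (DZ D Z) (DZ D Z) r t = 0 := by
  have hadd : ∀ (r s : R2) (t : Z ⊗[k] Z), sand k (DZ D Z) (DZ D Z) (r + s) t =
      sand k (DZ D Z) (DZ D Z) r t + sand k (DZ D Z) (DZ D Z) s t := by
    intro r s t
    induction t using TensorProduct.induction_on with
    | zero => simp
    | tmul a b =>
      rw [sand_tmul, sand_tmul, sand_tmul]
      rw [mul_add, add_mul]
    | add t t' h1 h2 =>
      rw [map_add, map_add, map_add, h1, h2]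
      abel
  have hsmul : ∀ (c : k) (r : R2) (t : Z ⊗[k] Z), sand k (DZ D Z) (DZ D Z) (c • r) t =
      c • sand k (DZ D Z) (DZ D Z) r t := by
    intro c r t
    induction t using TensorProduct.induction_on with
    | zero => simp
    | tmul a b =>
      rw [sand_tmul, sand_tmul, mul_smul_comm, smul_mul_assoc]
    | add t t' h1 h2 =>
      rw [map_add, map_add, h1, h2, smul_add]
  have hz : sand k (DZ D Z) (DZ D Z) (0 : R2) t = 0 := by
    have := hsmul 0 0 t
    rwa [zero_smul, zero_smul] at this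
  intro r hr
  induction hr using Submodule.span_induction with
  | mem x hx =>
    obtain ⟨j, rfl⟩ := hx
    exact h j
  | zero => exact hz
  | add x y _ _ hx hy => rw [hadd, hx, hy, add_zero]
  | smul c x _ hx => rw [hsmul, hx, smul_zero]

/-- relations between the operators give relations between the values of `z` -/
theorem key (D : Q →ₐ[k] R2) (W : Submodule k R2) {n : ℕ} (w : Fin n → R2)
    (hw : Submodule.span k (Set.range w) = W) {Ω : Type w} [Field Ω] [Algebra k Ω]
    (z x : Z →ₐ[k] Ω) (hR : Rel D W z x) {ι : Type*} [Fintype ι] (a : Z) (b c : ι → Z)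
    (h : ∀ j, D (algebraMap Z Q a) * w j =
      ∑ i, D (algebraMap Z Q (b i)) * w j * D (algebraMap Z Q (c i))) :
    z a = ∑ i, z (b i) * x (c i) := by
  have h1 := hR (a ⊗ₜ[k] (1 : Z) - ∑ i, b i ⊗ₜ[k] c i) (by
    intro r hr
    rw [← hw] at hr
    refine sand_zero_of_span D w _ (fun j => ?_) r hr
    rw [map_sub, map_sum, sand_tmul]
    simp only [sand_tmul, DZ_apply, map_one, mul_one]
    rw [h j, sub_self])
  rw [map_sub, map_sum, mu_tmul, map_one, mul_one] at h1
  simp only [mu_tmul] at h1
  exact sub_eq_zero.1 h1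

/-- finiteness of the related points -/
theorem fin_rel [Module.Finite Z Q] (D : Q →ₐ[k] R2) (W : Submodule k R2) (hW : Bif D W)
    {Ω : Type w} [Field Ω] [Algebra k Ω] (x : Z →ₐ[k] Ω) :
    {z : Z →ₐ[k] Ω | Rel D W z x}.Finite := by
  classical
  obtain ⟨n, w, hw⟩ := Submodule.fg_iff_exists_fin_generating_family.1
    (Module.Finite.iff_fg.1 hW.fin)
  obtain ⟨m, q, hq⟩ := Submodule.fg_iff_exists_fin_generating_family.1
    (Module.Finite.fg_top : (⊤ : Submodule Z Q).FG)
  let : Module Z R2 := Module.compHom R2 (rmh D)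
  have hsm : ∀ (z : Z) (r : R2), z • r = r * D (algebraMap Z Q z) := fun z r => rfl
  let N0 : Submodule Z R2 :=
    Submodule.span Z (Set.range fun p : Fin n × Fin m => w p.1 * D (q p.2))
  have : Module.Finite Z N0 := Module.Finite.span_of_finite Z (Set.finite_range _)
  have hk : ∀ (c : k) (r : R2), r ∈ N0 → c • r ∈ N0 := by
    intro c r hr
    have e : c • r = (algebraMap k Z c) • r := by
      rw [hsm, ← IsScalarTower.algebraMap_apply, AlgHom.commutes, ← Algebra.commutes,
        ← Algebra.smul_def]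
    rw [e]
    exact N0.smul_mem _ hr
  have s2 : ∀ (j : Fin n) (y : Q), w j * D y ∈ N0 := by
    intro j y
    have hy : y ∈ Submodule.span Z (Set.range q) := by rw [hq]; exact Submodule.mem_top
    induction hy using Submodule.span_induction with
    | mem y hy =>
      obtain ⟨l, rfl⟩ := hy
      exact Submodule.subset_span ⟨(j, l), rfl⟩
    | zero => rw [map_zero, mul_zero]; exact N0.zero_mem
    | add y y' _ _ h h' => rw [map_add, mul_add]; exact N0.add_mem h h'
    | smul c y _ h =>
      have e : w j * D (c • y) = c • (w j * D y) := by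
        rw [hsm, Algebra.smul_def, Algebra.commutes, map_mul, mul_assoc]
      rw [e]
      exact N0.smul_mem _ h
  have s3 : ∀ w' ∈ W, ∀ y : Q, w' * D y ∈ N0 := by
    intro w' hw' y
    rw [← hw] at hw'
    induction hw' using Submodule.span_induction with
    | mem r hr =>
      obtain ⟨j, rfl⟩ := hr
      exact s2 j y
    | zero => rw [zero_mul]; exact N0.zero_mem
    | add r r' _ _ h h' => rw [add_mul]; exact N0.add_mem h h'
    | smul c r _ h => rw [smul_mul_assoc]; exact hk c _ h
  have s4 : ∀ r ∈ WD D W, r ∈ N0 := by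
    intro r hr
    unfold WD at hr
    induction hr using Submodule.span_induction with
    | mem r hr =>
      obtain ⟨w', hw', y, rfl⟩ := hr
      exact s3 w' hw' y
    | zero => exact N0.zero_mem
    | add r r' _ _ h h' => exact N0.add_mem h h'
    | smul c r _ h => exact hk c _ h
  have hwW : ∀ j, w j ∈ W := fun j => by
    rw [← hw]
    exact Submodule.subset_span ⟨j, rfl⟩
  have s5 : ∀ (a : Z) (j : Fin n), D (algebraMap Z Q a) * w j ∈ N0 := by
    intro a j
    refine s4 _ ?_
    rw [hW.eq]
    exact Submodule.subset_span ⟨w j, hwW j, algebraMap Z Q a, rfl⟩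
  let X : Z → (Fin n → N0) := fun a j => ⟨D (algebraMap Z Q a) * w j, s5 a j⟩
  -- relations
  have hrel : ∀ (ι : Type) [Fintype ι] (a : Z) (b c : ι → Z), ∑ i, c i • X (b i) = X a →
      ∀ z : Z →ₐ[k] Ω, Rel D W z x → z a = ∑ i, z (b i) * x (c i) := by
    intro ι _ a b c h z hz
    refine key D W w hw z x hz a b c fun j => ?_
    have h1 := congrArg (fun f : Fin n → N0 => ((f j : N0) : R2)) h
    simp only [Finset.sum_apply, Pi.smul_apply, Submodule.coe_sum, Submodule.coe_smul] at h1
    exact h1.symm.trans (Finset.sum_congr rfl fun i _ => hsm _ _)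
  -- every value is a root of a fixed polynomial
  have hroot : ∀ a : Z, {o : Ω | ∃ z : Z →ₐ[k] Ω, Rel D W z x ∧ o = z a}.Finite := by
    intro a
    let f : ℕ →o Submodule Z (Fin n → N0) :=
      ⟨fun l => Submodule.span Z (Set.range fun j : Fin l => X (a ^ (j : ℕ))), by
        intro l l' hl
        refine Submodule.span_mono ?_
        rintro _ ⟨j, rfl⟩
        exact ⟨Fin.castLE hl j, rfl⟩⟩
    obtain ⟨l, hl⟩ := (monotone_stabilizes_iff_noetherian.2
      (inferInstance : IsNoetherian Z (Fin n → N0))) f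
    have h1 : X (a ^ l) ∈ f l := by
      rw [hl (l + 1) (Nat.le_succ l)]
      exact Submodule.subset_span ⟨⟨l, Nat.lt_succ_self l⟩, rfl⟩
    obtain ⟨c, hc⟩ := (Submodule.mem_span_range_iff_exists_fun Z).1 h1
    let p : Polynomial Ω := Polynomial.X ^ l -
      ∑ i : Fin l, Polynomial.C (x (c i)) * Polynomial.X ^ (i : ℕ)
    have hp : p.Monic := Polynomial.monic_X_pow_sub (Polynomial.degree_sum_fin_lt _)
    refine (p.roots.toFinset.finite_toSet).subset ?_
    rintro o ⟨z, hz, rfl⟩
    rw [Finset.mem_coe, Multiset.mem_toFinset, Polynomial.mem_roots hp.ne_zero,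
      Polynomial.IsRoot.def]
    have h2 := hrel (Fin l) (a ^ l) (fun j => a ^ (j : ℕ)) c hc z hz
    simp only [map_pow] at h2
    simp only [p, Polynomial.eval_sub, Polynomial.eval_pow, Polynomial.eval_X,
      Polynomial.eval_finsetSum, Polynomial.eval_mul, Polynomial.eval_C]
    rw [h2, sub_eq_zero]
    exact Finset.sum_congr rfl fun i _ => mul_comm _ _
  -- finitely many values determine `z`
  obtain ⟨s', hs', hspan⟩ := (Submodule.fg_span_iff_fg_span_finset_subset (R := Z)
    (Set.range X)).1 (IsNoetherian.noetherian _)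
  choose b hb using fun y : s' => hs' y.2
  have hX : ∀ a : Z, ∃ c : s' → Z, ∑ i, c i • X (b i) = X a := by
    intro a
    have h1 : X a ∈ Submodule.span Z (Set.range fun y : s' => X (b y)) := by
      have e : (Set.range fun y : s' => X (b y)) = (s' : Set (Fin n → N0)) := by
        ext y
        constructor
        · rintro ⟨y', rfl⟩
          show X (b y') ∈ (s' : Set (Fin n → N0))
          rw [hb y']
          exact y'.2
        · intro hy
          exact ⟨⟨y, hy⟩, hb ⟨y, hy⟩⟩
      rw [e, ← hspan]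
      exact Submodule.subset_span ⟨a, rfl⟩
    exact (Submodule.mem_span_range_iff_exists_fun Z).1 h1
  refine Set.Finite.of_injOn (f := fun z : Z →ₐ[k] Ω => fun y : s' => z (b y))
    (t := {g : s' → Ω | ∀ y, g y ∈ {o : Ω | ∃ z : Z →ₐ[k] Ω, Rel D W z x ∧ o = z (b y)}})
    ?_ ?_ (Set.Finite.pi' fun y => hroot (b y))
  · intro z hz y
    exact ⟨z, hz, rfl⟩
  · intro z hz z' hz' h
    ext a
    obtain ⟨c, hc⟩ := hX a
    have e : ∀ z : Z →ₐ[k] Ω, Rel D W z x → z a = ∑ i, z (b i) * x (c i) := by
      intro z hz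
      refine key D W w hw z x hz a b c fun j => ?_
      have h1 := congrArg (fun f : Fin n → N0 => ((f j : N0) : R2)) hc
      simp only [Finset.sum_apply, Pi.smul_apply, Submodule.coe_sum, Submodule.coe_smul] at h1
      exact h1.symm.trans (Finset.sum_congr rfl fun i _ => hsm _ _)
    rw [e z hz, e z' hz']
    exact Finset.sum_congr rfl fun i _ => by
      rw [show z (b i) = z' (b i) from congrFun h i]

end

end LCLM

open LCLM in
theorem specLCL : SpecLCL.{u, v} := by
  intro k Z Q F2 R2 _ _ _ _ _ _ _ _ _ _ _ _ _ _ _ D W hW F _ _ _ _ _ _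
  refine ⟨?_, ?_, ?_⟩
  · intro σ hσ τ hτ
    constructor
    · intro t ht
      have h1 : ∀ t : Z ⊗[k] Z, mu k (rs Z (σ * τ)) (rs Z 1) t =
          σ (mu k (rs Z τ) (rs Z (1 : F ≃ₐ[k] F)) t) := by
        intro t
        induction t using TensorProduct.induction_on with
        | zero => simp
        | tmul a b =>
          rw [mu_tmul, mu_tmul, map_mul]
          simp only [rs_apply, AlgEquiv.mul_apply, AlgEquiv.one_apply]
          rw [hσ b]
        | add t t' e1 e2 => rw [map_add, map_add, map_add, e1, e2]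
      rw [h1, hτ t ht, map_zero]
    · have e : rs Z (τ * σ) = rs Z τ := by
        ext a
        simp only [rs_apply, AlgEquiv.mul_apply]
        rw [hσ a]
      show Rel D W (rs Z (τ * σ)) (rs Z 1)
      rw [e]
      exact hτ
  · classical
    have hfin := fin_rel D W hW (rs Z (1 : F ≃ₐ[k] F))
    have hfin2 : ((fun τ : F ≃ₐ[k] F => rs Z τ) '' Lab F Z D W).Finite := by
      refine hfin.subset ?_
      rintro _ ⟨τ, hτ, rfl⟩
      exact hτ
    obtain ⟨S, hS, hS2⟩ := Set.exists_subset_bijOn (Lab F Z D W) (fun τ : F ≃ₐ[k] F => rs Z τ)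
    have hSfin : S.Finite := Set.Finite.of_finite_image (by rw [hS2.image_eq]; exact hfin2) hS2.injOn
    refine ⟨hSfin.toFinset, ?_, ?_⟩
    · intro s hs
      rw [Set.Finite.mem_toFinset] at hs
      exact hS hs
    · intro τ hτ
      obtain ⟨s, hs, hsτ⟩ := hS2.surjOn ⟨τ, hτ, rfl⟩
      refine ⟨s, hSfin.mem_toFinset.2 hs, s⁻¹ * τ, ?_, by group⟩
      intro z
      have h1 : s (algebraMap Z F z) = τ (algebraMap Z F z) := by
        have := congrArg (fun f : Z →ₐ[k] F => f z) hsτ
        simpa using this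
      rw [AlgEquiv.mul_apply, ← h1]
      exact AlgEquiv.symm_apply_apply s _
  · intro hnt h1W t ht
    have h1 := ht 1 h1W
    have e1 : ∀ t : Z ⊗[k] Z, sand k (DZ D Z) (DZ D Z) 1 t =
        D (algebraMap Z Q (LinearMap.mul' k Z t)) := by
      intro t
      induction t using TensorProduct.induction_on with
      | zero => simp
      | tmul a b => rw [sand_tmul, mul_one, LinearMap.mul'_apply, map_mul, map_mul]; rfl
      | add t t' e1 e2 => rw [map_add, map_add, e1, e2, map_add, map_add]
    have e2 : ∀ t : Z ⊗[k] Z, mu k (rs Z 1) (rs Z (1 : F ≃ₐ[k] F)) t =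
        algebraMap Z F (LinearMap.mul' k Z t) := by
      intro t
      induction t using TensorProduct.induction_on with
      | zero => simp
      | tmul a b =>
        rw [mu_tmul, LinearMap.mul'_apply, map_mul]
        rfl
      | add t t' e1 e2 => rw [map_add, map_add, e1, e2, map_add]
    rw [e1] at h1
    have hD : Function.Injective D := RingHom.injective (D : Q →+* R2)
    have h2 : algebraMap Z Q (LinearMap.mul' k Z t) = 0 := hD (by rw [h1, map_zero])
    have h3 : LinearMap.mul' k Z t = 0 :=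
      (algebraMap Z Q).injective (by rw [h2, map_zero])
    rw [e2, h3, map_zero]

end Pool.Agent.Lib.MP_c37a72_al.LB
end

section
/-!
# MP_c37a72_al, block LB, module MK

`M2` is simple with centre `K2`, once it is its own bicentralizer.
-/
set_option autoImplicit false

open scoped TensorProduct
open Coalgebra HopfAlgebra

namespace Pool.Agent.Lib.MP_c37a72_al.LB

universe u v w

namespace MKM

/-- The double centralizer statement, in the form used for `M2`. -/
theorem core {F R : Type v} [Field F] [Ring R] [Algebra F R] (hDCT : SpecDCT.{v})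
    (hfin : Module.Finite F R) (hs : IsSimpleRing R)
    (hc : ∀ c : R, (∀ x : R, x * c = c * x) → ∃ a : F, algebraMap F R a = c)
    (M : Subalgebra F R)
    (hK : IsField (Subalgebra.centralizer F (M : Set R)))
    (h : ∀ c : R, (∀ x ∈ Subalgebra.centralizer F (M : Set R), x * c = c * x) → c ∈ M) :
    IsSimpleRing M ∧ Subalgebra.centralizer F (M : Set R) ≤ M ∧
      ∀ c ∈ M, (∀ m ∈ M, m * c = c * m) → c ∈ Subalgebra.centralizer F (M : Set R) := by
  have := hfin
  have := hs
  have hD := hDCT F R hc (Subalgebra.centralizer F (M : Set R)) hK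
  have hE : Subalgebra.centralizer F
      ((Subalgebra.centralizer F (M : Set R) : Subalgebra F R) : Set R) = M := by
    apply le_antisymm
    · intro c hcc
      rw [Subalgebra.mem_centralizer_iff] at hcc
      exact h c (fun x hx => hcc x hx)
    · intro c hcM
      rw [Subalgebra.mem_centralizer_iff]
      intro x hx
      have hx' : x ∈ Subalgebra.centralizer F (M : Set R) := hx
      rw [Subalgebra.mem_centralizer_iff] at hx'
      exact (hx' c hcM).symm
  rw [hE] at hD
  refine ⟨hD.1, ?_, hD.2⟩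
  intro c hcK
  apply h c
  intro x hx
  have := hK.mul_comm ⟨x, hx⟩ ⟨c, hcK⟩
  exact congrArg Subtype.val this

end MKM

/-- Module MK. -/
theorem specMK (hDCT : SpecDCT.{v}) (hR2S : SpecR2S.{u, v}) : SpecMK.{u, v} := by
  intro k H Z Q F2 R2 _ _ _ _ _ _ _ _ _ _ _ _ _ _ _ _ ι jF j D hCQ hR2 hfield h
  obtain ⟨hfin, hs, hc⟩ := hR2S k H Z Q F2 R2 ι jF j D hCQ hR2
  obtain ⟨h1, h2, h3⟩ := MKM.core hDCT hfin hs hc (M2 Z F2 ι j D) hfield h
  refine ⟨h1, hfield, h2, ?_, h3, ?_⟩
  · intro c hcK m hm
    have hcK' : c ∈ Subalgebra.centralizer F2 (M2 Z F2 ι j D : Set R2) := hcK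
    rw [Subalgebra.mem_centralizer_iff] at hcK'
    exact (hcK' m hm).symm
  · intro q
    exact Algebra.subset_adjoin (Or.inr ⟨q, rfl⟩)

end Pool.Agent.Lib.MP_c37a72_al.LB
end

section
/-!
# MP_c37a72_al, block LB, module R11: two points of `*kap` are related
-/
set_option autoImplicit false

open scoped TensorProduct
open Coalgebra HopfAlgebra

namespace Pool.Agent.Lib.MP_c37a72_al.LB

universe u v

namespace R11M

/-- a maximal independent subfamily of the right entries kills the combinations of the left ones -/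
theorem core (hJD : SpecJD.{v}) {K S : Type v} [Field K] [Ring S] [Algebra K S] [IsSimpleRing S]
    (hc : ∀ c : S, (∀ x : S, x * c = c * x) → ∃ a : K, algebraMap K S a = c)
    {n : ℕ} (A B : Fin n → S) (h : ∀ r : S, ∑ i, A i * r * B i = 0) :
    ∃ (m : ℕ) (f : Fin m → Fin n) (c : Fin n → Fin m → K),
      (∀ i, B i = ∑ l, c i l • B (f l)) ∧ ∀ l, ∑ i, c i l • A i = 0 := by
  obtain ⟨b, hb1, hb2, hb3⟩ := exists_linearIndependent K (Set.range B)
  have hfin : b.Finite := (Set.finite_range B).subset hb1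
  have : Fintype b := hfin.fintype
  let e : Fin (Fintype.card b) ≃ b := (Fintype.equivFin b).symm
  have hmem : ∀ l : Fin (Fintype.card b), ∃ i, B i = (e l : S) := fun l => hb1 (e l).2
  choose f hf using hmem
  have hli : LinearIndependent K (fun l => (e l : S)) := hb3.comp e e.injective
  have hrange : Set.range (fun l => (e l : S)) = b := by
    ext x
    constructor
    · rintro ⟨l, rfl⟩
      exact (e l).2
    · intro hx
      exact ⟨e.symm ⟨x, hx⟩, by simp⟩
  have hspan : ∀ i, ∃ c : Fin (Fintype.card b) → K, ∑ l, c l • (e l : S) = B i := by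
    intro i
    have h1 : B i ∈ Submodule.span K b := by
      rw [hb2]
      exact Submodule.subset_span ⟨i, rfl⟩
    rw [← hrange] at h1
    exact (Submodule.mem_span_range_iff_exists_fun K).1 h1
  choose c hcc using hspan
  refine ⟨Fintype.card b, f, c, ?_, ?_⟩
  · intro i
    rw [← hcc i]
    exact Finset.sum_congr rfl fun l _ => by rw [hf]
  · intro l0
    obtain ⟨m, u, v, huv⟩ := hJD K S hc _ _ hli l0
    have h1 : ∑ q, (∑ i, A i * u q * B i) * v q = 0 := by
      simp only [h, zero_mul, Finset.sum_const_zero]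
    have h2 : ∑ q, (∑ i, A i * u q * B i) * v q = ∑ i, c i l0 • A i := by
      calc ∑ q, (∑ i, A i * u q * B i) * v q
          = ∑ q, ∑ i, ∑ l, c i l • (A i * (u q * (e l : S) * v q)) := by
            refine Finset.sum_congr rfl fun q _ => ?_
            rw [Finset.sum_mul]
            refine Finset.sum_congr rfl fun i _ => ?_
            rw [← hcc i, Finset.mul_sum, Finset.sum_mul]
            refine Finset.sum_congr rfl fun l _ => ?_
            rw [mul_smul_comm, smul_mul_assoc]
            simp only [mul_assoc]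
        _ = ∑ i, ∑ l, c i l • (A i * ∑ q, u q * (e l : S) * v q) := by
            rw [Finset.sum_comm]
            refine Finset.sum_congr rfl fun i _ => ?_
            rw [Finset.sum_comm]
            refine Finset.sum_congr rfl fun l _ => ?_
            rw [Finset.mul_sum, Finset.smul_sum]
        _ = ∑ i, c i l0 • A i := by
            refine Finset.sum_congr rfl fun i _ => ?_
            simp only [huv]
            rw [Finset.sum_eq_single l0]
            · simp
            · intro l _ hl
              simp [hl]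
            · intro h0
              exact absurd (Finset.mem_univ _) h0
    rw [← h2, h1]

end R11M

set_option synthInstance.maxHeartbeats 400000 in
set_option maxHeartbeats 4000000 in
theorem specR11 (hJD : SpecJD.{v}) : SpecR11.{u, v} := by
  intro k Z Q F2 R2 _ _ _ _ _ _ _ _ _ _ _ _ _ _ _ D M K hMK W hW Ω _ _ kap w w' hw hw' t ht
  obtain ⟨n, a, b, rfl⟩ : ∃ (n : ℕ) (a b : Fin n → Z), t = ∑ i, a i ⊗ₜ[k] b i := by
    obtain ⟨s, hs⟩ := TensorProduct.exists_finset t
    refine ⟨s.card, fun i => (s.equivFin.symm i : Z × Z).1, fun i => (s.equivFin.symm i : Z × Z).2, ?_⟩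
    rw [hs, ← Finset.sum_coe_sort s (fun i => i.1 ⊗ₜ[k] i.2)]
    exact (Equiv.sum_comp s.equivFin.symm (fun i : s => (i : Z × Z).1 ⊗ₜ[k] (i : Z × Z).2)).symm
  -- the relation holds on `M`
  have hM : ∀ r ∈ M, ∑ i, D (algebraMap Z Q (a i)) * r * D (algebraMap Z Q (b i)) = 0 := by
    let T : Submodule F2 R2 :=
      { carrier := {r | ∑ i, D (algebraMap Z Q (a i)) * r * D (algebraMap Z Q (b i)) = 0}
        zero_mem' := by simp
        add_mem' := by
          intro x y hx hy
          simp only [Set.mem_ofPred_eq] at hx hy ⊢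
          simp only [mul_add, add_mul, Finset.sum_add_distrib, hx, hy, add_zero]
        smul_mem' := by
          intro c x hx
          simp only [Set.mem_ofPred_eq] at hx ⊢
          simp only [mul_smul_comm, smul_mul_assoc, ← Finset.smul_sum, hx, smul_zero] }
    have hT : ∀ r ∈ WD D W, r ∈ T := by
      intro r hr
      refine Submodule.span_induction (p := fun r _ => r ∈ T) ?_ T.zero_mem ?_ ?_ hr
      · rintro x ⟨y, hy, q, rfl⟩
        have h1 := ht y hy
        rw [map_sum] at h1
        simp only [sand_tmul, DZ_apply] at h1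
        change ∑ i, D (algebraMap Z Q (a i)) * (y * D q) * D (algebraMap Z Q (b i)) = 0
        have h2 : ∀ i, D (algebraMap Z Q (a i)) * (y * D q) * D (algebraMap Z Q (b i))
            = D (algebraMap Z Q (a i)) * y * D (algebraMap Z Q (b i)) * D q := by
          intro i
          have h3 : D q * D (algebraMap Z Q (b i)) = D (algebraMap Z Q (b i)) * D q := by
            rw [← map_mul, ← map_mul, Algebra.commutes]
          simp only [mul_assoc]
          rw [h3]
        simp only [h2]
        rw [← Finset.sum_mul, h1, zero_mul]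
      · intro x y _ _ hx hy
        exact T.add_mem hx hy
      · intro c x _ hx
        have : c • x = algebraMap k F2 c • x := by rw [algebraMap_smul]
        rw [this]
        exact T.smul_mem _ hx
    intro r hr
    have h1 : r ∈ Submodule.span F2 (WD D W : Set R2) := by rw [hW]; exact hr
    exact Submodule.span_le.2 hT h1
  -- density
  letI : Field K := hMK.fieldK.toField
  letI : Algebra K M := RingHom.toAlgebra' (Subalgebra.inclusion hMK.le).toRingHom (fun c x =>
    Subtype.ext (hMK.comm c c.2 x x.2))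
  have : IsSimpleRing M := hMK.simple
  have hc : ∀ c : M, (∀ x : M, x * c = c * x) → ∃ a : K, algebraMap K M a = c := by
    intro c hc
    have h1 : (c : R2) ∈ K := hMK.centre c c.2 (fun m hm => congrArg Subtype.val (hc ⟨m, hm⟩))
    exact ⟨⟨c, h1⟩, rfl⟩
  obtain ⟨m, f, c, h1, h2⟩ := R11M.core hJD (K := K) (S := M) hc
    (fun i => ⟨D (algebraMap Z Q (a i)), hMK.D_mem _⟩) (fun i => ⟨D (algebraMap Z Q (b i)), hMK.D_mem _⟩)
    (by
      intro r
      apply Subtype.ext
      rw [AddSubmonoidClass.coe_finsetSum]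
      exact hM r r.2)
  have h1' : ∀ i, D (algebraMap Z Q (b i)) = ∑ l, (c i l : R2) * D (algebraMap Z Q (b (f l))) := by
    intro i
    have := congrArg Subtype.val (h1 i)
    rw [AddSubmonoidClass.coe_finsetSum] at this
    exact this
  have h2' : ∀ l, ∑ i, (c i l : R2) * D (algebraMap Z Q (a i)) = 0 := by
    intro l
    have := congrArg Subtype.val (h2 l)
    rw [AddSubmonoidClass.coe_finsetSum] at this
    exact this
  have h3 : ∀ i, w (b i) = ∑ l, kap (c i l) * w (b (f l)) := by
    intro i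
    have := hw ((1 : K) ⊗ₜ[k] b i - ∑ l, c i l ⊗ₜ[k] b (f l)) (by
      rw [map_sub, map_sum]
      simp only [mu_tmul, DZ_apply, map_one, one_mul]
      rw [h1' i, sub_eq_zero]
      rfl)
    rw [map_sub, map_sum] at this
    simp only [mu_tmul, map_one, one_mul] at this
    exact sub_eq_zero.1 this
  have h4 : ∀ l, ∑ i, kap (c i l) * w' (a i) = 0 := by
    intro l
    have := hw' (∑ i, c i l ⊗ₜ[k] a i) (by
      rw [map_sum]
      simp only [mu_tmul, DZ_apply]
      exact h2' l)
    rw [map_sum] at this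
    simpa only [mu_tmul] using this
  rw [map_sum]
  simp only [mu_tmul]
  calc ∑ i, w' (a i) * w (b i) = ∑ i, ∑ l, w (b (f l)) * (kap (c i l) * w' (a i)) := by
        refine Finset.sum_congr rfl fun i _ => ?_
        rw [h3 i, Finset.mul_sum]
        exact Finset.sum_congr rfl fun l _ => by ring
    _ = ∑ l, w (b (f l)) * ∑ i, kap (c i l) * w' (a i) := by
        rw [Finset.sum_comm]
        exact Finset.sum_congr rfl fun l _ => by rw [Finset.mul_sum]
    _ = 0 := by simp only [h4, mul_zero, Finset.sum_const_zero]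

end Pool.Agent.Lib.MP_c37a72_al.LB
end

section
/-!
# MP_c37a72_al, block LB, module R12: the key lemma (1.2)
-/
set_option autoImplicit false
set_option linter.style.haveILetI false

open scoped TensorProduct
open Coalgebra HopfAlgebra

namespace Pool.Agent.Lib.MP_c37a72_al.LB

universe u v

namespace R12M

/-- elements killed by a prime ideal which contains the annihilator, Artinian case -/
theorem exists_killed {B V : Type*} [CommRing B] [AddCommGroup V] [Module B V]
    [IsArtinianRing B] [Module.Finite B V] (p : Ideal B) [p.IsPrime]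
    (h : Module.annihilator B V ≤ p) : ∃ m : V, m ≠ 0 ∧ ∀ b ∈ p, b • m = 0 := by
  have h1 := Module.associatedPrimes.minimalPrimes_annihilator_subset_associatedPrimes B V
    (IsArtinianRing.mem_minimalPrimes h)
  rw [AssociatedPrimes.mem_iff, isAssociatedPrime_iff] at h1
  obtain ⟨-, x, hx⟩ := h1
  refine ⟨x, ?_, fun b hb => ?_⟩
  · rintro rfl
    have h2 : (1 : B) ∈ p := by
      rw [hx, Submodule.mem_colon_singleton]
      simp
    exact (Ideal.ne_top_iff_one p).1 (Ideal.IsPrime.ne_top inferInstance) h2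
  · rw [hx, Submodule.mem_colon_singleton] at hb
    simpa using hb

section sand

variable {k : Type u} {Z R : Type v} [Field k] [Field Z] [Algebra k Z] [Ring R] [Algebra k R]
  (f g : Z →ₐ[k] R)

theorem sand_mul (r : R) (s t : Z ⊗[k] Z) :
    sand k f g r (s * t) = sand k f g (sand k f g r t) s := by
  induction s using TensorProduct.induction_on with
  | zero => simp
  | add x y hx hy => rw [add_mul, map_add, map_add, hx, hy]
  | tmul a b =>
    induction t using TensorProduct.induction_on with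
    | zero => simp
    | add x y hx hy =>
      rw [mul_add, map_add, map_add, hx, hy, sand_tmul, sand_tmul, sand_tmul, mul_add, add_mul]
    | tmul a' b' =>
      rw [Algebra.TensorProduct.tmul_mul_tmul, sand_tmul, sand_tmul, sand_tmul, map_mul,
        mul_comm b b', map_mul]
      simp only [mul_assoc]

theorem sand_one (r : R) : sand k f g r 1 = r := by
  rw [Algebra.TensorProduct.one_def, sand_tmul, map_one, map_one, one_mul, mul_one]

theorem sand_add (r r' : R) (t : Z ⊗[k] Z) :
    sand k f g (r + r') t = sand k f g r t + sand k f g r' t := by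
  induction t using TensorProduct.induction_on with
  | zero => simp
  | add x y hx hy =>
    rw [map_add, map_add, map_add, hx, hy]
    abel
  | tmul a b => rw [sand_tmul, sand_tmul, sand_tmul, mul_add, add_mul]

theorem sand_right (r c : R) (hc : ∀ b, g b * c = c * g b) (t : Z ⊗[k] Z) :
    sand k f g (r * c) t = sand k f g r t * c := by
  induction t using TensorProduct.induction_on with
  | zero => simp
  | add x y hx hy => rw [map_add, map_add, hx, hy, add_mul]
  | tmul a b =>
    rw [sand_tmul, sand_tmul, mul_assoc, mul_assoc r, ← hc b]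
    simp only [mul_assoc]

theorem sand_left (r c : R) (hc : ∀ a, f a * c = c * f a) (t : Z ⊗[k] Z) :
    sand k f g (c * r) t = c * sand k f g r t := by
  induction t using TensorProduct.induction_on with
  | zero => simp
  | add x y hx hy => rw [map_add, map_add, hx, hy, mul_add]
  | tmul a b =>
    rw [sand_tmul, sand_tmul, ← mul_assoc, hc a]
    simp only [mul_assoc]

theorem sand_zero (t : Z ⊗[k] Z) : sand k f g (0 : R) t = 0 := by
  have h := sand_add f g (0 : R) 0 t
  rw [add_zero] at h
  exact left_eq_add.1 h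

theorem sand_mem {T : Type*} [SetLike T R] [AddSubmonoidClass T R] (V : T)
    (hl : ∀ a, ∀ r ∈ V, f a * r ∈ V) (hr : ∀ b, ∀ r ∈ V, r * g b ∈ V) {r : R} (h : r ∈ V)
    (t : Z ⊗[k] Z) : sand k f g r t ∈ V := by
  induction t using TensorProduct.induction_on with
  | zero =>
    rw [map_zero]
    exact zero_mem V
  | add x y hx hy =>
    rw [map_add]
    exact add_mem hx hy
  | tmul a b => exact hr b _ (hl a _ h)

end sand

section mem

variable {k : Type u} {Z Q R2 : Type v} [Field k] [Field Z] [Algebra k Z] [DivisionRing Q]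
  [Algebra k Q] [Algebra Z Q] [IsScalarTower k Z Q] [Ring R2] [Algebra k R2]
  (D : Q →ₐ[k] R2) {W : Submodule k R2}

theorem WD_right {r : R2} (h : r ∈ WD D W) (q : Q) : r * D q ∈ WD D W := by
  unfold WD at h ⊢
  induction h using Submodule.span_induction with
  | mem r h =>
    obtain ⟨w, hw, q', rfl⟩ := h
    rw [mul_assoc, ← map_mul]
    exact Submodule.subset_span ⟨w, hw, _, rfl⟩
  | zero =>
    rw [zero_mul]
    exact Submodule.zero_mem _
  | add x y _ _ hx hy =>
    rw [add_mul]
    exact Submodule.add_mem _ hx hy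
  | smul c x _ hx =>
    rw [Algebra.smul_mul_assoc]
    exact Submodule.smul_mem _ _ hx

theorem DW_left {r : R2} (h : r ∈ DW D W) (q : Q) : D q * r ∈ DW D W := by
  unfold DW at h ⊢
  induction h using Submodule.span_induction with
  | mem r h =>
    obtain ⟨w, hw, q', rfl⟩ := h
    rw [← mul_assoc, ← map_mul]
    exact Submodule.subset_span ⟨w, hw, _, rfl⟩
  | zero =>
    rw [mul_zero]
    exact Submodule.zero_mem _
  | add x y _ _ hx hy =>
    rw [mul_add]
    exact Submodule.add_mem _ hx hy
  | smul c x _ hx =>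
    rw [Algebra.mul_smul_comm]
    exact Submodule.smul_mem _ _ hx

theorem mem_WD {r : R2} (h : r ∈ W) : r ∈ WD D W := by
  have h1 : r * D 1 ∈ WD D W := Submodule.subset_span ⟨r, h, 1, rfl⟩
  rwa [map_one, mul_one] at h1

/-- generators of `W D(Q)` over `Z` (acting on the right) -/
theorem WD_gen [Module.Finite Z Q] (hW : Module.Finite k W) :
    ∃ (n : ℕ) (v : Fin n → R2), (∀ i, v i ∈ WD D W) ∧
      ∀ r ∈ WD D W, ∃ z : Fin n → Z, r = ∑ i, v i * D (algebraMap Z Q (z i)) := by
  obtain ⟨s, w, hw⟩ := Submodule.fg_iff_exists_fin_generating_family.1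
    (Module.Finite.iff_fg.1 hW)
  let e := Module.finBasis Z Q
  set n := Module.finrank Z Q
  let E : Fin s × Fin n ≃ Fin (s * n) := finProdFinEquiv
  refine ⟨s * n, fun i => w (E.symm i).1 * D (e (E.symm i).2), fun i => ?_, fun r hr => ?_⟩
  · refine Submodule.subset_span ⟨_, ?_, _, rfl⟩
    rw [← hw]
    exact Submodule.subset_span ⟨_, rfl⟩
  · have key : ∃ z : Fin s × Fin n → Z,
        r = ∑ p, w p.1 * D (e p.2) * D (algebraMap Z Q (z p)) := by
      unfold WD at hr
      induction hr using Submodule.span_induction with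
      | mem r h =>
        obtain ⟨w', hw', q, rfl⟩ := h
        rw [← hw, Submodule.mem_span_range_iff_exists_fun] at hw'
        obtain ⟨c, rfl⟩ := hw'
        refine ⟨fun p => c p.1 • e.repr q p.2, ?_⟩
        have h1 : D q = ∑ j, D (e j) * D (algebraMap Z Q (e.repr q j)) := by
          conv_lhs => rw [← e.sum_repr q, map_sum]
          refine Finset.sum_congr rfl fun j _ => ?_
          rw [Algebra.smul_def, Algebra.commutes, map_mul]
        rw [h1, Finset.sum_mul_sum, Fintype.sum_prod_type]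
        refine Finset.sum_congr rfl fun i _ => Finset.sum_congr rfl fun j _ => ?_
        have h2 : algebraMap Z Q (c i • e.repr q j) = c i • algebraMap Z Q (e.repr q j) := by
          rw [Algebra.algebraMap_eq_smul_one, Algebra.algebraMap_eq_smul_one, smul_assoc]
        rw [h2, map_smul, Algebra.smul_mul_assoc, Algebra.mul_smul_comm, mul_assoc]
      | zero => exact ⟨fun _ => 0, by simp⟩
      | add x y _ _ hx hy =>
        obtain ⟨z, rfl⟩ := hx
        obtain ⟨z', rfl⟩ := hy
        refine ⟨fun p => z p + z' p, ?_⟩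
        rw [← Finset.sum_add_distrib]
        refine Finset.sum_congr rfl fun p _ => ?_
        rw [map_add, map_add, mul_add]
      | smul c x _ hx =>
        obtain ⟨z, rfl⟩ := hx
        refine ⟨fun p => c • z p, ?_⟩
        rw [Finset.smul_sum]
        refine Finset.sum_congr rfl fun p _ => ?_
        have h2 : algebraMap Z Q (c • z p) = c • algebraMap Z Q (z p) := by
          rw [Algebra.algebraMap_eq_smul_one, Algebra.algebraMap_eq_smul_one, smul_assoc]
        rw [h2, map_smul, Algebra.mul_smul_comm]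
    obtain ⟨z, hz⟩ := key
    refine ⟨fun i => z (E.symm i), ?_⟩
    rw [hz]
    exact (Equiv.sum_comp E.symm fun p => w p.1 * D (e p.2) * D (algebraMap Z Q (z p))).symm

/-- `mu` is multiplicative -/
theorem mu_eq {Ω : Type v} [Field Ω] [Algebra k Ω] (z x : Z →ₐ[k] Ω) (t : Z ⊗[k] Z) :
    mu k z x t = Algebra.TensorProduct.productMap z x t := by
  induction t using TensorProduct.induction_on with
  | zero => simp
  | add x y hx hy => rw [map_add, map_add, hx, hy]
  | tmul a b => rw [mu_tmul, Algebra.TensorProduct.productMap_apply_tmul]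

/-- the element `m`, and maximality of the kernel of `(z, x)` -/
theorem exists_m [Module.Finite Z Q] (hW : Bif D W) {Ω : Type v} [Field Ω] [Algebra k Ω]
    (z x : Z →ₐ[k] Ω) (hR : Rel D W z x) :
    (∃ m ∈ WD D W, m ≠ 0 ∧ ∀ t, mu k z x t = 0 → sand k (DZ D Z) (DZ D Z) m t = 0) ∧
    ∀ (Ω' : Type v) [Field Ω'] (h : Z ⊗[k] Z →+* Ω'), (∀ t, mu k z x t = 0 → h t = 0) →
      ∀ t, h t = 0 → mu k z x t = 0 := by
  classical
  set V := WD D W with hV
  have hl : ∀ a, ∀ r ∈ V, DZ D Z a * r ∈ V := by
    intro a r hr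
    rw [hV, hW.eq] at hr ⊢
    exact DW_left D hr _
  have hr : ∀ b, ∀ r ∈ V, r * DZ D Z b ∈ V := fun b r hr => WD_right D hr _
  letI : SMul Z V := ⟨fun c v => ⟨(v : R2) * D (algebraMap Z Q c), WD_right D v.2 _⟩⟩
  have smul_def' : ∀ (c : Z) (v : V), ((c • v : V) : R2) = v * D (algebraMap Z Q c) :=
    fun c v => rfl
  letI : Module Z V :=
    { one_smul := fun v => Subtype.ext (by rw [smul_def', map_one, map_one, mul_one])
      mul_smul := fun a b v => Subtype.ext (by
        rw [smul_def', smul_def', smul_def', mul_assoc, ← map_mul, ← map_mul, mul_comm b a])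
      smul_zero := fun a => Subtype.ext (by
        rw [smul_def']
        exact zero_mul _)
      smul_add := fun a v w => Subtype.ext (by
        rw [smul_def']
        exact add_mul _ _ _)
      add_smul := fun a b v => Subtype.ext (by
        rw [smul_def', map_add, map_add, mul_add]
        rfl)
      zero_smul := fun v => Subtype.ext (by
        rw [smul_def', map_zero, map_zero, mul_zero]
        rfl) }
  -- finite over `Z`
  haveI hfin : Module.Finite Z V := by
    obtain ⟨n, v, hv, hgen⟩ := WD_gen (Z := Z) D hW.fin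
    rw [Module.finite_def, Submodule.fg_iff_exists_fin_generating_family]
    refine ⟨n, fun i => ⟨v i, hv i⟩, ?_⟩
    rw [eq_top_iff]
    rintro ⟨r, hr⟩ -
    obtain ⟨c, hc⟩ := hgen r hr
    rw [Submodule.mem_span_range_iff_exists_fun]
    refine ⟨c, Subtype.ext ?_⟩
    rw [Submodule.coe_sum]
    exact hc.symm
  -- the action
  let σ : Z ⊗[k] Z →+* Module.End Z V :=
    { toFun := fun t =>
        { toFun := fun v => ⟨sand k (DZ D Z) (DZ D Z) v t, sand_mem _ _ V hl hr v.2 t⟩
          map_add' := fun v w => Subtype.ext (sand_add _ _ _ _ _)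
          map_smul' := fun c v => Subtype.ext (by
            change sand k (DZ D Z) (DZ D Z) ((v : R2) * D (algebraMap Z Q c)) t =
              sand k (DZ D Z) (DZ D Z) (v : R2) t * D (algebraMap Z Q c)
            refine sand_right _ _ _ _ (fun b => ?_) t
            rw [DZ_apply, ← map_mul, ← map_mul, ← map_mul, ← map_mul, mul_comm]) }
      map_one' := by
        ext v
        exact sand_one _ _ _
      map_mul' := fun s t => by
        ext v
        exact sand_mul _ _ _ s t
      map_zero' := by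
        ext v
        exact map_zero (sand k (DZ D Z) (DZ D Z) (v : R2))
      map_add' := fun s t => by
        ext v
        exact map_add (sand k (DZ D Z) (DZ D Z) (v : R2)) s t }
  have hσ : ∀ t v, ((σ t v : V) : R2) = sand k (DZ D Z) (DZ D Z) v t := fun t v => rfl
  obtain ⟨B, _, mk, κ, hsurj, hinj, hκ, hlift⟩ : ∃ (B : Type v) (_ : CommRing B)
      (mk : Z ⊗[k] Z →+* B) (κ : B →+* Module.End Z V), Function.Surjective mk ∧
      Function.Injective κ ∧ (∀ t, κ (mk t) = σ t) ∧
      ∀ (Ω : Type v) [Field Ω] (h : Z ⊗[k] Z →+* Ω), (∀ t, σ t = 0 → h t = 0) →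
        ∃ h' : B →+* Ω, ∀ t, h' (mk t) = h t :=
    ⟨(Z ⊗[k] Z) ⧸ RingHom.ker σ, inferInstance, Ideal.Quotient.mk _, RingHom.kerLift σ,
      Ideal.Quotient.mk_surjective, RingHom.kerLift_injective σ, fun _ => rfl,
      fun Ω _ h hh => ⟨Ideal.Quotient.lift (RingHom.ker σ) h hh, fun _ => rfl⟩⟩
  letI : Module B V := Module.compHom V κ
  have hBV : ∀ (b : B) (v : V), b • v = κ b v := fun b v => rfl
  letI : Algebra Z B := RingHom.toAlgebra
    (mk.comp (Algebra.TensorProduct.includeRight : Z →ₐ[k] Z ⊗[k] Z).toRingHom)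
  have hZB : ∀ (c : Z) (b : B), c • b = mk (1 ⊗ₜ c) * b := fun c b => rfl
  have hσr : ∀ c : Z, ∀ v, σ ((1 : Z) ⊗ₜ c) v = c • v := by
    intro c v
    refine Subtype.ext ?_
    rw [hσ, sand_tmul, map_one, one_mul]
    rfl
  haveI : IsScalarTower Z B V := ⟨fun c b v => by
    rw [hZB, hBV, hBV, map_mul, hκ]
    exact hσr c _⟩
  haveI : Module.Finite Z B := by
    let κ' : B →ₗ[Z] Module.End Z V :=
      { toFun := κ
        map_add' := map_add κ
        map_smul' := fun c b => by
          rw [hZB, map_mul, hκ, RingHom.id_apply]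
          ext v
          exact congrArg Subtype.val (hσr c (κ b v)) }
    exact Module.Finite.of_injective κ' hinj
  haveI : IsArtinianRing B := IsArtinianRing.of_finite Z B
  haveI : Module.Finite B V := Module.Finite.of_restrictScalars_finite Z B V
  -- the prime
  have hI : ∀ t, σ t = 0 → (Algebra.TensorProduct.productMap z x) t = 0 := by
    intro t ht
    rw [← mu_eq]
    refine hR t fun r hrW => ?_
    have h1 := congrArg Subtype.val (LinearMap.congr_fun ht ⟨r, mem_WD D hrW⟩)
    exact h1
  obtain ⟨μ, hμ0⟩ := hlift Ω (Algebra.TensorProduct.productMap z x : Z ⊗[k] Z →ₐ[k] Ω).toRingHom hI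
  have hμ : ∀ t, μ (mk t) = mu k z x t := by
    intro t
    rw [mu_eq, hμ0]
    rfl
  haveI hprime : (RingHom.ker μ).IsPrime := RingHom.ker_isPrime μ
  have hann : Module.annihilator B V ≤ RingHom.ker μ := by
    intro b hb
    rw [Module.mem_annihilator] at hb
    have h1 : b = 0 := by
      apply hinj
      rw [map_zero]
      ext v
      exact congrArg Subtype.val (hb v)
    rw [h1]
    exact Ideal.zero_mem _
  refine ⟨?_, fun Ω' _ h hh t ht => ?_⟩
  · obtain ⟨m, hm0, hm⟩ := exists_killed (RingHom.ker μ) hann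
    refine ⟨m, m.2, fun h => hm0 (Subtype.ext h), fun t ht => ?_⟩
    have h1 := hm (mk t) (by rw [RingHom.mem_ker, hμ, ht])
    rw [hBV, hκ] at h1
    exact congrArg Subtype.val h1
  · have hmax : (RingHom.ker μ).IsMaximal := inferInstance
    obtain ⟨h', hh'⟩ := hlift Ω' h fun t ht => hh t (by
      rw [mu_eq]
      exact hI t ht)
    have h1 : RingHom.ker μ ≤ RingHom.ker h' := by
      intro b hb
      obtain ⟨t, rfl⟩ := hsurj b
      rw [RingHom.mem_ker, hμ] at hb
      rw [RingHom.mem_ker, hh']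
      exact hh t hb
    have h2 : RingHom.ker μ = RingHom.ker h' :=
      hmax.eq_of_le (RingHom.ker_ne_top h') h1
    have h3 : mk t ∈ RingHom.ker h' := by rw [RingHom.mem_ker, hh', ht]
    rw [← h2, RingHom.mem_ker, hμ] at h3
    exact h3

end mem

end R12M

open R12M in
/-- **R12**. -/
theorem specR12 (hKEX : SpecKEX.{u, v}) : SpecR12.{u, v} := by
  intro k Z Q F2 R2 _ _ _ _ _ _ _ _ _ _ _ _ _ _ _ D M K hMK W hWM hW Ω _ _ z x hR Ω' _ _ _ kap
  obtain ⟨⟨m, hmV, hm0, hm⟩, hmax⟩ := exists_m D hW z x hR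
  -- `V ⊆ M`
  have hVM : ∀ r ∈ WD D W, r ∈ M := by
    intro r hr
    unfold WD at hr
    induction hr using Submodule.span_induction with
    | mem r h =>
      obtain ⟨w, hw, q, rfl⟩ := h
      exact M.mul_mem (hWM w hw) (hMK.D_mem q)
    | zero => exact M.zero_mem
    | add x y _ _ hx hy => exact M.add_mem hx hy
    | smul c x _ hx =>
      have h1 : c • x = (algebraMap k F2 c) • x := (algebraMap_smul F2 c x).symm
      rw [h1]
      exact M.smul_mem hx _
  have hF2 : ∀ (a : F2) (r : R2) (t : Z ⊗[k] Z), sand k (DZ D Z) (DZ D Z) (a • r) t =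
      a • sand k (DZ D Z) (DZ D Z) r t := by
    intro a r t
    rw [Algebra.smul_def, Algebra.smul_def]
    exact sand_left _ _ _ _ (fun b => (Algebra.commutes a _).symm) t
  -- the space `N`
  let N : Submodule F2 R2 :=
    { carrier := {r | r ∈ M ∧ ∀ t, mu k z x t = 0 → sand k (DZ D Z) (DZ D Z) r t = 0}
      add_mem' := by
        rintro r s ⟨hr, hr'⟩ ⟨hs, hs'⟩
        refine ⟨M.add_mem hr hs, fun t ht => ?_⟩
        rw [sand_add, hr' t ht, hs' t ht, add_zero]
      zero_mem' := ⟨M.zero_mem, fun t _ => sand_zero _ _ t⟩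
      smul_mem' := by
        rintro a r ⟨hr, hr'⟩
        refine ⟨M.smul_mem hr a, fun t ht => ?_⟩
        rw [hF2, hr' t ht, smul_zero] }
  have hmN : m ∈ N := ⟨hVM m hmV, hm⟩
  haveI : Nontrivial N := ⟨⟨m, hmN⟩, 0, fun h => hm0 (congrArg Subtype.val h)⟩
  have hKl : ∀ (c : K) (r : R2), r ∈ N → (c : R2) * r ∈ N := by
    rintro c r ⟨hr, hr'⟩
    refine ⟨M.mul_mem (hMK.le c.2) hr, fun t ht => ?_⟩
    rw [sand_left _ _ _ _ (fun a => (hMK.comm c c.2 _ (hMK.D_mem _)).symm), hr' t ht, mul_zero]
  have hDc : ∀ a b : Z, DZ D Z a * DZ D Z b = DZ D Z b * DZ D Z a := by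
    intro a b
    rw [← map_mul, ← map_mul, mul_comm]
  have hZl : ∀ (a : Z) (r : R2), r ∈ N → DZ D Z a * r ∈ N := by
    rintro a r ⟨hr, hr'⟩
    refine ⟨M.mul_mem (hMK.D_mem _) hr, fun t ht => ?_⟩
    rw [sand_left _ _ _ _ (fun b => hDc b a), hr' t ht, mul_zero]
  have hZr : ∀ (a : Z) (r : R2), r ∈ N → r * DZ D Z a ∈ N := by
    rintro a r ⟨hr, hr'⟩
    refine ⟨M.mul_mem hr (hMK.D_mem _), fun t ht => ?_⟩
    rw [sand_right _ _ _ _ (fun b => hDc b a), hr' t ht, zero_mul]
  -- the homomorphisms to `End N`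
  let p : K →ₐ[k] Module.End F2 N :=
    { toFun := fun c =>
        { toFun := fun n => ⟨c * n, hKl c n n.2⟩
          map_add' := fun a b => Subtype.ext (mul_add _ _ _)
          map_smul' := fun a b => Subtype.ext (Algebra.mul_smul_comm _ _ _) }
      map_one' := by
        ext n
        exact one_mul _
      map_mul' := fun a b => by
        ext n
        exact mul_assoc _ _ _
      map_zero' := by
        ext n
        exact zero_mul _
      map_add' := fun a b => by
        ext n
        exact add_mul _ _ _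
      commutes' := fun a => by
        ext n
        change ((algebraMap k K a : K) : R2) * n = a • (n : R2)
        rw [Algebra.smul_def]
        rfl }
  have hp : ∀ (c : K) (n : N), ((p c n : N) : R2) = c * n := fun _ _ => rfl
  let r : Z ⊗[k] Z →ₐ[k] Module.End F2 N :=
    { toFun := fun t =>
        { toFun := fun n => ⟨sand k (DZ D Z) (DZ D Z) n t,
            sand_mem _ _ N hZl hZr n.2 t⟩
          map_add' := fun a b => Subtype.ext (sand_add _ _ _ _ _)
          map_smul' := fun a b => Subtype.ext (hF2 _ _ _) }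
      map_one' := by
        ext n
        exact sand_one _ _ _
      map_mul' := fun s t => by
        ext n
        exact sand_mul _ _ _ s t
      map_zero' := by
        ext n
        exact map_zero (sand k (DZ D Z) (DZ D Z) (n : R2))
      map_add' := fun s t => by
        ext n
        exact map_add (sand k (DZ D Z) (DZ D Z) (n : R2)) s t
      commutes' := fun a => by
        ext n
        change sand k (DZ D Z) (DZ D Z) (n : R2) (algebraMap k (Z ⊗[k] Z) a) = a • (n : R2)
        rw [Algebra.algebraMap_eq_smul_one, map_smul, sand_one] }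
  have hr : ∀ (t : Z ⊗[k] Z) (n : N), ((r t n : N) : R2) = sand k (DZ D Z) (DZ D Z) n t :=
    fun _ _ => rfl
  letI : Field K := hMK.fieldK.toField
  have hpinj : Function.Injective p := by
    intro c c' h
    by_contra hne
    have h1 : c - c' ≠ 0 := sub_ne_zero.2 hne
    have h2 : p (c - c') = 0 := by rw [map_sub, h, sub_self]
    have h3 : p ((c - c')⁻¹ * (c - c')) = 0 := by rw [map_mul, h2, mul_zero]
    rw [inv_mul_cancel₀ h1] at h3
    have h4 : (1 : Module.End F2 N) = 0 := by rw [← h3, map_one]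
    exact one_ne_zero h4
  have hpp : ∀ c c' : K, p c * p c' = p c' * p c := by
    intro c c'
    rw [← map_mul, ← map_mul, mul_comm]
  have hmupp : ∀ t : K ⊗[k] K, mu k p p t = p (mu k (AlgHom.id k K) (AlgHom.id k K) t) := by
    intro t
    induction t using TensorProduct.induction_on with
    | zero => simp
    | add x y hx hy => rw [map_add, map_add, map_add, hx, hy]
    | tmul a b =>
      rw [mu_tmul, mu_tmul, map_mul]
      rfl
  have hmukk : ∀ t : K ⊗[k] K, mu k kap kap t = kap (mu k (AlgHom.id k K) (AlgHom.id k K) t) := by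
    intro t
    induction t using TensorProduct.induction_on with
    | zero => simp
    | add x y hx hy => rw [map_add, map_add, map_add, hx, hy]
    | tmul a b =>
      rw [mu_tmul, mu_tmul, map_mul]
      rfl
  have hpr : ∀ (c : K) (t : Z ⊗[k] Z), p c * r t = r t * p c := by
    intro c t
    ext n
    change (c : R2) * sand k (DZ D Z) (DZ D Z) (n : R2) t =
      sand k (DZ D Z) (DZ D Z) ((c : R2) * (n : R2)) t
    rw [sand_left _ _ _ _ (fun a => (hMK.comm c c.2 _ (hMK.D_mem _)).symm)]
  obtain ⟨h, hh, -⟩ := hKEX k F2 (Module.End F2 N) K K (Z ⊗[k] Z) Ω' p p r kap kap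
    (fun a => ⟨algebraMap F2 K a, by
      ext n
      change (algebraMap F2 R2 a) * (n : R2) = a • (n : R2)
      rw [Algebra.smul_def]⟩) hpp hpr hpr (by
      intro t ht
      rw [hmupp] at ht
      have h1 : mu k (AlgHom.id k K) (AlgHom.id k K) t = 0 := hpinj (by rw [ht, map_zero])
      rw [hmukk, h1, map_zero])
  -- `h` kills the kernel of `(z, x)`
  have hkill : ∀ t, mu k z x t = 0 → h t = 0 := by
    intro t ht
    have h1 := hh ((1 : K) ⊗ₜ t) (by
      rw [mu_tmul, map_one, one_mul]
      ext n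
      exact n.2.2 t ht)
    rw [mu_tmul, map_one, one_mul] at h1
    exact h1
  refine ⟨h.comp Algebra.TensorProduct.includeLeft, h.comp Algebra.TensorProduct.includeRight,
    fun s hs => ?_, fun s hs => ?_, fun t => ?_⟩
  · -- left
    have h1 : ∀ s : K ⊗[k] Z, mu k kap (h.comp Algebra.TensorProduct.includeLeft) s =
        mu k kap h ((Algebra.TensorProduct.includeLeft :
          Z →ₐ[k] Z ⊗[k] Z).toLinearMap.lTensor K s) := by
      intro s
      induction s using TensorProduct.induction_on with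
      | zero => simp
      | add x y hx hy => rw [map_add, map_add, map_add, hx, hy]
      | tmul a b => rfl
    have h2 : ∀ (s : K ⊗[k] Z) (n : N), (((mu k p r ((Algebra.TensorProduct.includeLeft :
        Z →ₐ[k] Z ⊗[k] Z).toLinearMap.lTensor K s) : Module.End F2 N) n : N) : R2) =
        mu k (K.val.restrictScalars k) (DZ D Z) s * n := by
      intro s n
      induction s using TensorProduct.induction_on with
      | zero => simp
      | add x y hx hy =>
        rw [map_add, map_add, map_add, LinearMap.add_apply, Submodule.coe_add, hx, hy, add_mul]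
      | tmul a b =>
        change (a : R2) * sand k (DZ D Z) (DZ D Z) (n : R2) (b ⊗ₜ 1) =
          (a : R2) * DZ D Z b * (n : R2)
        rw [sand_tmul, map_one, mul_one, mul_assoc]
    rw [h1]
    refine hh _ ?_
    ext n
    rw [h2, hs, zero_mul]
    rfl
  · -- right
    have h1 : ∀ s : K ⊗[k] Z, mu k kap (h.comp Algebra.TensorProduct.includeRight) s =
        mu k kap h ((Algebra.TensorProduct.includeRight :
          Z →ₐ[k] Z ⊗[k] Z).toLinearMap.lTensor K s) := by
      intro s
      induction s using TensorProduct.induction_on with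
      | zero => simp
      | add x y hx hy => rw [map_add, map_add, map_add, hx, hy]
      | tmul a b => rfl
    have h2 : ∀ (s : K ⊗[k] Z) (n : N), (((mu k p r ((Algebra.TensorProduct.includeRight :
        Z →ₐ[k] Z ⊗[k] Z).toLinearMap.lTensor K s) : Module.End F2 N) n : N) : R2) =
        n * mu k (K.val.restrictScalars k) (DZ D Z) s := by
      intro s n
      induction s using TensorProduct.induction_on with
      | zero => simp
      | add x y hx hy =>
        rw [map_add, map_add, map_add, LinearMap.add_apply, Submodule.coe_add, hx, hy, mul_add]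
      | tmul a b =>
        change (a : R2) * sand k (DZ D Z) (DZ D Z) (n : R2) (1 ⊗ₜ b) =
          (n : R2) * ((a : R2) * DZ D Z b)
        rw [sand_tmul, map_one, one_mul, ← mul_assoc, ← mul_assoc, hMK.comm a a.2 _ n.2.1]
    rw [h1]
    refine hh _ ?_
    ext n
    rw [h2, hs, mul_zero]
    rfl
  · have h3 : ∀ t : Z ⊗[k] Z, mu k (h.comp Algebra.TensorProduct.includeLeft)
        (h.comp Algebra.TensorProduct.includeRight) t = h t := by
      intro t
      induction t using TensorProduct.induction_on with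
      | zero => simp
      | add x y hx hy => rw [map_add, map_add, hx, hy]
      | tmul a b =>
        rw [mu_tmul]
        change h (a ⊗ₜ 1) * h (1 ⊗ₜ b) = h (a ⊗ₜ b)
        rw [← map_mul, Algebra.TensorProduct.tmul_mul_tmul, mul_one, one_mul]
    rw [h3]
    exact ⟨hkill t, hmax Ω' (h : Z ⊗[k] Z →+* Ω') hkill t⟩

end Pool.Agent.Lib.MP_c37a72_al.LB
end

section
/-!
# MP_c37a72_al, block LB, module R13: (1.3), abstract form
-/
set_option autoImplicit false
set_option linter.style.haveILetI false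

open scoped TensorProduct
open Coalgebra HopfAlgebra

namespace Pool.Agent.Lib.MP_c37a72_al.LB

universe u v

namespace R13M

open JDM

/-- coordinates of the elements of `D(Z)` -/
theorem exists_coords {k : Type u} {Z F2 R2 : Type v} [Field k] [Field Z] [Algebra k Z]
    [Field F2] [Algebra k F2] [Ring R2] [Algebra k R2] [Algebra F2 R2] [IsScalarTower k F2 R2]
    [Module.Finite F2 R2] (d : Z →ₐ[k] R2) :
    ∃ (κ : Type v) (_ : Fintype κ) (_ : DecidableEq κ) (z : κ → Z) (β : κ → (Z →ₗ[k] F2)),
      LinearIndependent F2 (fun m => d (z m)) ∧ ∀ c, d c = ∑ m, β m c • d (z m) := by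
  classical
  obtain ⟨κ, a, -, hspan, hli⟩ := exists_linearIndependent' F2 (fun z : Z => d z)
  haveI : Finite κ := hli.finite
  letI : Fintype κ := Fintype.ofFinite κ
  let B := Module.Basis.span hli
  have hmem : ∀ c, d c ∈ Submodule.span F2 (Set.range ((fun z : Z => d z) ∘ a)) := by
    intro c
    rw [hspan]
    exact Submodule.subset_span ⟨c, rfl⟩
  let dz : Z →ₗ[k] Submodule.span F2 (Set.range ((fun z : Z => d z) ∘ a)) :=
    { toFun := fun c => ⟨d c, hmem c⟩
      map_add' := fun c c' => Subtype.ext (map_add d c c')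
      map_smul' := fun r c => Subtype.ext (map_smul d r c) }
  refine ⟨κ, inferInstance, inferInstance, a,
    fun m => ((B.coord m).restrictScalars k).comp dz, hli, fun c => ?_⟩
  have h1 := congrArg Subtype.val (B.sum_repr (dz c))
  have h2 : ((∑ m, B.repr (dz c) m • B m : Submodule.span F2
      (Set.range ((fun z : Z => d z) ∘ a))) : R2) = ∑ m, B.repr (dz c) m • d (a m) := by
    rw [Submodule.coe_sum]
    refine Finset.sum_congr rfl fun m _ => ?_
    rw [Submodule.coe_smul]
    congr 1
    exact Module.Basis.coe_span_apply hli m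
  rw [h2] at h1
  exact h1.symm

/-- gluing -/
theorem glue {F2 R2 : Type v} [Field F2] [Ring R2] [Algebra F2 R2] [IsSimpleRing R2]
    (hc : ∀ c : R2, (∀ x : R2, x * c = c * x) → ∃ a : F2, algebraMap F2 R2 a = c)
    {M : Type*} [Ring M] (τ : R2 →+* M) {κ : Type*} [Fintype κ] [DecidableEq κ] {l : κ → R2}
    (hl : LinearIndependent F2 l) (c : κ → M) (hcom : ∀ i r, c i * τ r = τ r * c i)
    (h0 : ∑ i, c i * τ (l i) = 0) (i : κ) : c i = 0 := by
  obtain ⟨θ, hθ, hθl⟩ := density' hc hl i
  obtain ⟨n, a, b, hr⟩ := hθ.repr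
  have h1 : ∑ s, τ (a s) * (∑ i, c i * τ (l i)) * τ (b s) = c i := by
    calc ∑ s, τ (a s) * (∑ i, c i * τ (l i)) * τ (b s)
        = ∑ s, ∑ i, c i * τ (a s * l i * b s) := by
          refine Finset.sum_congr rfl fun s _ => ?_
          rw [Finset.mul_sum, Finset.sum_mul]
          refine Finset.sum_congr rfl fun i _ => ?_
          rw [map_mul, map_mul, ← mul_assoc, ← mul_assoc, ← mul_assoc, hcom]
      _ = ∑ i, c i * τ (θ (l i)) := by
          rw [Finset.sum_comm]
          refine Finset.sum_congr rfl fun i _ => ?_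
          rw [hr, map_sum, Finset.mul_sum]
      _ = c i := by
          rw [Finset.sum_eq_single i]
          · rw [hθl, if_pos rfl, map_one, mul_one]
          · intro j _ hj
            rw [hθl, if_neg hj, map_zero, mul_zero]
          · intro h
            exact absurd (Finset.mem_univ _) h
  rw [← h1, h0]
  simp

end R13M

open R13M in
/-- **R13**. -/
theorem specR13 (hKEX : SpecKEX.{u, v}) : SpecR13.{u, v} := by
  intro k Z Q F2 R2 Ω _ _ _ _ _ _ _ _ _ _ _ _ _ _ _ _ _ _ hc D n T τ hτ ξ ξ' hK w hw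
  classical
  set M := Matrix (Fin n) (Fin n) R2 with hM
  -- coordinates
  obtain ⟨κ, _, _, z, β, hli, hβ⟩ := exists_coords (F2 := F2) (DZ D Z)
  set p : F2 →ₐ[k] M := IsScalarTower.toAlgHom k F2 M with hp
  set q : Z →ₐ[k] M := τ.comp (DZ D Z) with hq
  let r : Z →ₐ[k] M := (Matrix.scalarAlgHom (Fin n) k (α := R2)).comp (DZ D Z)
  have hpc : ∀ a (x : M), p a * x = x * p a := fun a x => Algebra.commutes a x
  have hps : ∀ a, p a = Matrix.scalar (Fin n) (algebraMap F2 R2 a) := fun a => rfl
  -- the scalars `F2` are mapped to elements which commute with `τ(R2)`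
  have hτc : ∀ (a : F2) (x : R2), τ (algebraMap F2 R2 a) * τ x = τ x * τ (algebraMap F2 R2 a) := by
    intro a x
    rw [← map_mul, ← map_mul, Algebra.commutes]
  set π : F2 →ₐ[k] M := τ.comp (IsScalarTower.toAlgHom k F2 R2) with hπ
  -- (2)
  have hkill : Kill k p q ξ w := by
    intro t ht
    let Θ : κ → (F2 ⊗[k] Z →ₗ[k] F2 ⊗[k] F2) := fun m => (β m).lTensor F2
    have h1 : ∀ t : F2 ⊗[k] Z, mu k p q t = ∑ m, mu k p π (Θ m t) * τ (DZ D Z (z m)) := by
      intro t
      induction t using TensorProduct.induction_on with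
      | zero => simp
      | add x y hx hy =>
        simp only [map_add, hx, hy, add_mul, Finset.sum_add_distrib]
      | tmul a c =>
        simp only [Θ, LinearMap.lTensor_tmul, mu_tmul]
        rw [hq, AlgHom.comp_apply, hβ c, map_sum, Finset.mul_sum]
        refine Finset.sum_congr rfl fun m _ => ?_
        rw [Algebra.smul_def, map_mul, ← mul_assoc]
        rfl
    have hcomm : ∀ (s : F2 ⊗[k] F2) (x : R2), mu k p π s * τ x = τ x * mu k p π s := by
      intro s x
      induction s using TensorProduct.induction_on with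
      | zero => simp
      | add x y hx hy => rw [map_add, add_mul, mul_add, hx, hy]
      | tmul a b =>
        rw [mu_tmul]
        have h2 : π b * τ x = τ x * π b := hτc b x
        rw [mul_assoc, h2, ← mul_assoc, hpc, mul_assoc]
    have h2 : ∀ m, mu k p π (Θ m t) = 0 := by
      refine glue hc (τ : R2 →+* M) hli (fun m => mu k p π (Θ m t)) (fun m x => hcomm _ x) ?_
      rw [← ht, h1 t]
      rfl
    have h3 : ∀ m, mu k ξ ξ' (Θ m t) = 0 := fun m => hK _ (h2 m)
    have hwc : ∀ c, w c = ∑ m, ξ' (β m c) * w (z m) := by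
      intro c
      have h4 := hw ((1 : F2) ⊗ₜ c - ∑ m, β m c ⊗ₜ z m) (by
        rw [map_sub, map_sum]
        simp only [mu_tmul, map_one, one_mul]
        rw [hβ c, sub_eq_zero]
        refine Finset.sum_congr rfl fun m _ => ?_
        rw [Algebra.smul_def]
        rfl)
      rw [map_sub, map_sum] at h4
      simp only [mu_tmul, map_one, one_mul] at h4
      exact sub_eq_zero.1 h4
    have h5 : ∀ t : F2 ⊗[k] Z, mu k ξ w t = ∑ m, mu k ξ ξ' (Θ m t) * w (z m) := by
      intro t
      induction t using TensorProduct.induction_on with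
      | zero => simp
      | add x y hx hy =>
        simp only [map_add, hx, hy, add_mul, Finset.sum_add_distrib]
      | tmul a c =>
        simp only [Θ, LinearMap.lTensor_tmul, mu_tmul]
        rw [hwc c, Finset.mul_sum]
        refine Finset.sum_congr rfl fun m _ => ?_
        rw [mul_assoc]
    rw [h5 t]
    refine Finset.sum_eq_zero fun m _ => ?_
    rw [h3, zero_mul]
  -- (3)
  obtain ⟨w₀, h1, h2⟩ := hKEX k F2 M F2 Z Z Ω p q r ξ w (fun x => ⟨x, rfl⟩) (fun a b => hpc a _)
    (fun a c => hpc a _) (by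
      intro b c
      ext i l
      have e1 : (q b * r c) i l = D (T (algebraMap Z Q b) i l) * D (algebraMap Z Q c) := by
        change (τ (D (algebraMap Z Q b)) * Matrix.scalar (Fin n) (D (algebraMap Z Q c))) i l = _
        rw [Matrix.scalar_apply, Matrix.mul_diagonal, hτ]
      have e2 : (r c * q b) i l = D (algebraMap Z Q c) * D (T (algebraMap Z Q b) i l) := by
        change (Matrix.scalar (Fin n) (D (algebraMap Z Q c)) * τ (D (algebraMap Z Q b))) i l = _
        rw [Matrix.scalar_apply, Matrix.diagonal_mul, hτ]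
      rw [e1, e2, ← map_mul, ← map_mul, Algebra.commutes]) hkill
  refine ⟨w₀, fun t ht => h1 t ?_, fun t ht => h2 t ?_⟩
  · have h3 : ∀ t : F2 ⊗[k] Z, mu k p r t =
        Matrix.scalar (Fin n) (mu k (IsScalarTower.toAlgHom k F2 R2) (DZ D Z) t) := by
      intro t
      induction t using TensorProduct.induction_on with
      | zero => simp
      | add x y hx hy => rw [map_add, map_add, map_add, hx, hy]
      | tmul a c =>
        rw [mu_tmul, mu_tmul, map_mul, hps]
        rfl
    rw [h3, ht, map_zero]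
  · have h3 : ∀ t : Z ⊗[k] Z, mu k q r t = (mu k (T.comp (zQ k Z Q))
        (IsScalarTower.toAlgHom k Z (Matrix (Fin n) (Fin n) Q)) t).map D := by
      intro t
      induction t using TensorProduct.induction_on with
      | zero =>
        ext i l
        simp
        rfl
      | add x y hx hy =>
        rw [map_add, map_add, hx, hy]
        ext i l
        simp
        rfl
      | tmul b c =>
        ext i l
        rw [mu_tmul, mu_tmul]
        change (τ (D (algebraMap Z Q b)) * Matrix.scalar (Fin n) (D (algebraMap Z Q c))) i l =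
          D ((T (algebraMap Z Q b) * Matrix.scalar (Fin n) (algebraMap Z Q c)) i l)
        rw [Matrix.scalar_apply, Matrix.scalar_apply, Matrix.mul_diagonal, Matrix.mul_diagonal,
          hτ, map_mul]
    rw [h3, ht]
    ext i l
    simp
    rfl

end Pool.Agent.Lib.MP_c37a72_al.LB
end

section
/-!
# R2X: existence of `F2`, `R2`, `j`, `D`
-/
set_option autoImplicit false

open scoped TensorProduct
open Coalgebra HopfAlgebra

namespace Pool.Agent.Lib.MP_c37a72_al.LB

universe u v w

theorem specR2X : SpecR2X.{u, v} := by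
  intro k H Z Q _ _ _ _ _ _ _ _ _ _ _ ι hQ
  have hnz : NoZeroDivisors (Z ⊗[k] Z) := noZeroDivisors_tensor k Z Z
  have hnt : Nontrivial (Z ⊗[k] Z) := by
    have : Function.Injective (algebraMap Z (Z ⊗[k] Z)) := FaithfulSMul.algebraMap_injective _ _
    exact this.nontrivial
  have hdom : IsDomain (Z ⊗[k] Z) := NoZeroDivisors.to_isDomain _
  let F2 : Type v := FractionRing (Z ⊗[k] Z)
  let jF : Z ⊗[k] Z →ₐ[k] F2 := IsScalarTower.toAlgHom k (Z ⊗[k] Z) F2
  have hF : IsFrc jF := by
    refine ⟨IsFractionRing.injective (Z ⊗[k] Z) F2, fun f => ?_⟩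
    obtain ⟨⟨a, b⟩, hab⟩ := IsLocalization.surj (nonZeroDivisors (Z ⊗[k] Z)) f
    exact ⟨a, b, nonZeroDivisors.ne_zero b.2, hab⟩
  obtain ⟨R2, i1, i2, i3, i4, j, hj⟩ := exists_CL (iZ k Z Z Q Q) iZ_cent
    (fun c a hc h => iZ_torsion_free hF c a hc h) jF hF
  obtain ⟨D, hD⟩ := exists_D hQ hF hj
  exact ⟨F2, inferInstance, inferInstance, R2, i1, i2, i3, i4, jF, j, D, ⟨hF, hj, hD⟩⟩

end Pool.Agent.Lib.MP_c37a72_al.LB
end

section
/-!
# MP_c37a72_al, block LB, module STM (helper20): `x * y` is the union of the `*kap`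
-/
set_option autoImplicit false

open scoped TensorProduct
open Coalgebra HopfAlgebra

namespace Pool.Agent.Lib.MP_c37a72_al.LB

universe u v w

namespace STMM

section

variable {k : Type u} [Field k]

theorem mu_map {A A' B R : Type*} [Ring A] [Algebra k A] [Ring A'] [Algebra k A'] [Ring B]
    [Algebra k B] [Ring R] [Algebra k R] (φ : A →ₐ[k] A') (p : A' →ₐ[k] R) (q : B →ₐ[k] R)
    (t : A ⊗[k] B) : mu k p q (Algebra.TensorProduct.map φ (AlgHom.id k B) t) =
      mu k (p.comp φ) q t := by
  induction t using TensorProduct.induction_on with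
  | zero => simp
  | tmul a b => simp
  | add x y hx hy => simp only [map_add, hx, hy]

theorem mu_comm {A B R : Type*} [Ring A] [Algebra k A] [Ring B]
    [Algebra k B] [Ring R] [Algebra k R] (p : A →ₐ[k] R) (q : B →ₐ[k] R)
    (h : ∀ a b, p a * q b = q b * p a) (t : A ⊗[k] B) :
    mu k q p (TensorProduct.comm k A B t) = mu k p q t := by
  induction t using TensorProduct.induction_on with
  | zero => simp
  | tmul a b => simp [h a b]
  | add x y hx hy => simp only [map_add, hx, hy]

theorem mu_self {A R : Type*} [Ring A] [Algebra k A] [Ring R] [Algebra k R] (p : A →ₐ[k] R)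
    (t : A ⊗[k] A) : mu k p p t = p (LinearMap.mul' k A t) := by
  induction t using TensorProduct.induction_on with
  | zero => simp
  | tmul a b => simp
  | add x y hx hy => simp only [map_add, hx, hy]

theorem kill_self {A S R : Type*} [Ring A] [Algebra k A] [Ring S] [Algebra k S] [Ring R]
    [Algebra k R] (p : A →ₐ[k] S) (hp : Function.Injective p) (f : A →ₐ[k] R) :
    Kill k p p f f := by
  intro t ht
  rw [mu_self] at ht ⊢
  have : LinearMap.mul' k A t = 0 := hp (by rw [ht, map_zero])
  rw [this, map_zero]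

theorem kill_flip {A B S R : Type*} [Ring A] [Algebra k A] [Ring B] [Algebra k B] [Ring S]
    [Algebra k S] [CommRing R] [Algebra k R] (p : A →ₐ[k] S) (q : B →ₐ[k] S)
    (h : ∀ a b, p a * q b = q b * p a) (f : A →ₐ[k] R) (g : B →ₐ[k] R) (hk : Kill k p q f g) :
    Kill k q p g f := by
  intro t ht
  obtain ⟨t', rfl⟩ := (TensorProduct.comm k A B).surjective t
  rw [mu_comm p q h] at ht
  rw [mu_comm f g (fun a b => mul_comm _ _)]
  exact hk t' ht

theorem kill_ext {A C S R : Type*} [Ring A] [Algebra k A] [Ring C] [Algebra k C] [Ring S]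
    [Algebra k S] [Ring R] [Algebra k R] (p : A →ₐ[k] S) (r : C →ₐ[k] S) (f : A →ₐ[k] R)
    (h : C →ₐ[k] R) (hk : Kill k p r f h) (a : A) (c : C) (hac : p a = r c) : h c = f a := by
  have h1 := hk (a ⊗ₜ[k] 1 - 1 ⊗ₜ[k] c) (by simp [hac])
  simp only [map_sub, mu_tmul, map_one, mul_one, one_mul] at h1
  exact (sub_eq_zero.1 h1).symm

end

end STMM

open STMM in
theorem specSTM (hKEX : SpecKEX.{u, v}) : SpecSTM.{u, v} := by
  intro k Z Q F2 R2 _ _ _ _ _ _ _ _ _ _ _ _ _ _ _ D M K hMK Ω _ _ _
  have hcD : ∀ (z : Z) (c : K), DZ D Z z * (K.val.restrictScalars k) c =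
      (K.val.restrictScalars k) c * DZ D Z z := by
    intro z c
    exact (hMK.comm c c.2 _ (hMK.D_mem _)).symm
  have hcF : ∀ (a : F2) (c : K), (IsScalarTower.toAlgHom k F2 R2) a * (K.val.restrictScalars k) c =
      (K.val.restrictScalars k) c * (IsScalarTower.toAlgHom k F2 R2) a :=
    fun a c => Algebra.commutes a _
  have hcZ : ∀ (a : F2) (z : Z), (IsScalarTower.toAlgHom k F2 R2) a * DZ D Z z =
      DZ D Z z * (IsScalarTower.toAlgHom k F2 R2) a :=
    fun a z => Algebra.commutes a _
  have hKc : ∀ a b : K, a * b = b * a := by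
    intro a b
    apply Subtype.ext
    exact hMK.comm a a.2 b (hMK.le b.2)
  letI : CommRing K := { (inferInstance : Ring K) with mul_comm := hKc }
  have hnt : Nontrivial R2 := by
    obtain ⟨x, y, hxy⟩ := hMK.fieldK.exists_pair_ne
    exact ⟨x, y, fun h => hxy (Subtype.ext h)⟩
  have hpi : Function.Injective (IsScalarTower.toAlgHom k F2 R2) := (algebraMap F2 R2).injective
  refine ⟨?_, ?_, ?_, ?_⟩
  · intro kap w hS t ht
    have h1 := hS (Algebra.TensorProduct.map (IsScalarTower.toAlgHom k F2 K) (AlgHom.id k Z) t) (by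
      rw [mu_map]
      exact ht)
    rwa [mu_map] at h1
  · intro ξ w hM
    obtain ⟨h, h1, h2⟩ := hKEX k F2 R2 F2 Z K Ω (IsScalarTower.toAlgHom k F2 R2) (DZ D Z)
      (K.val.restrictScalars k) ξ w (fun x => ⟨x, rfl⟩) hcZ hcF hcD hM
    exact ⟨h, fun a => kill_ext _ _ _ _ h1 a _ rfl, kill_flip _ _ hcD _ _ h2⟩
  · intro kap
    obtain ⟨w, h1, h2⟩ := hKEX k F2 R2 K K Z Ω (K.val.restrictScalars k) (K.val.restrictScalars k)
      (DZ D Z) kap kap (fun x => ⟨algebraMap F2 K x, rfl⟩)
      (fun a b => congrArg (fun c : K => (c : R2)) (hKc a b)) (fun a z => (hcD z a).symm)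
      (fun a z => (hcD z a).symm) (kill_self _ Subtype.val_injective _)
    exact ⟨w, h1⟩
  · intro ξ
    obtain ⟨h, h1, h2⟩ := hKEX k F2 R2 F2 F2 K Ω (IsScalarTower.toAlgHom k F2 R2)
      (IsScalarTower.toAlgHom k F2 R2) (K.val.restrictScalars k) ξ ξ (fun x => ⟨x, rfl⟩)
      (fun a b => Algebra.commutes a _) hcF hcF (kill_self _ hpi _)
    exact ⟨h, fun a => kill_ext _ _ _ _ h1 a _ rfl⟩

end Pool.Agent.Lib.MP_c37a72_al.LB
end

section
/-!
# MP_c37a72_al, block LB: module SYM (the relation does not depend on `W` and is symmetric)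
-/
set_option autoImplicit false

open scoped TensorProduct
open Coalgebra HopfAlgebra

namespace Pool.Agent.Lib.MP_c37a72_al.LB

universe u v w

namespace SYMM

theorem mu_comm {k : Type u} {Z Ω : Type v} [Field k] [Field Z] [Algebra k Z] [Field Ω]
    [Algebra k Ω] (f g : Z →ₐ[k] Ω) (t : Z ⊗[k] Z) :
    mu k f g (TensorProduct.comm k Z Z t) = mu k g f t := by
  induction t using TensorProduct.induction_on with
  | zero => simp
  | tmul a b => simp [mul_comm]
  | add a b ha hb => rw [map_add, map_add, ha, hb, map_add]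

end SYMM

theorem specSYM (hR11 : SpecR11.{u, v}) (hR12 : SpecR12.{u, v}) : SpecSYM.{u, v} := by
  intro k Z Q F2 R2 _ _ _ _ _ _ _ _ _ _ _ _ _ _ _ D M K hMK W W' hWM hBif hgen Ω _ _ z x hrel
  let _ : Field K := hMK.fieldK.toField
  obtain ⟨w', w, hw', hw, hk⟩ := hR12 k Z Q F2 R2 D M K hMK W hWM hBif Ω z x hrel
    (AlgebraicClosure K) (IsScalarTower.toAlgHom k K (AlgebraicClosure K))
  have h1 := hR11 k Z Q F2 R2 D M K hMK W' hgen (AlgebraicClosure K)
    (IsScalarTower.toAlgHom k K (AlgebraicClosure K)) w w' hw hw'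
  have h2 := hR11 k Z Q F2 R2 D M K hMK W' hgen (AlgebraicClosure K)
    (IsScalarTower.toAlgHom k K (AlgebraicClosure K)) w' w hw' hw
  refine ⟨fun t ht => (hk t).2 (h1 t ht), fun t ht => ?_⟩
  have h3 := h2 t ht
  rw [← SYMM.mu_comm] at h3
  have h4 := (hk _).2 h3
  rw [SYMM.mu_comm] at h4
  exact h4

end Pool.Agent.Lib.MP_c37a72_al.LB
end

section
/-!
# MP_c37a72_al, block LB: modules TAL and TAR (`τ : R2 → M_n(R2)`)
-/
set_option autoImplicit false

open scoped TensorProduct
open Coalgebra HopfAlgebra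

namespace Pool.Agent.Lib.MP_c37a72_al.LB

universe u v w

namespace TALM

/-! ### left multiplication by `Z ⊗ L` along homomorphisms -/

section reg

variable {k Z L A B : Type*} [Field k] [Field Z] [Field L] [Ring A] [Ring B] [Algebra k Z]
  [Algebra k L] [Algebra k A] [Algebra k B]

/-- `(f ⊗ g)(t) x = 0` implies `x = 0` for `t ≠ 0`. -/
theorem left_reg (f : Z →ₐ[k] A) (g : L →ₐ[k] B) {F : Type*} [Field F] [Algebra k F]
    {jF : Z ⊗[k] L →ₐ[k] F} (hF : IsFrc jF) (t : Z ⊗[k] L) (ht : t ≠ 0) (x : A ⊗[k] B)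
    (h : Algebra.TensorProduct.map f g t * x = 0) : x = 0 := by
  classical
  let _ : Module Z A := Module.compHom A f.toRingHom
  let _ : Module L B := Module.compHom B g.toRingHom
  have hA : ∀ (z : Z) (a : A), z • a = f z * a := fun _ _ => rfl
  have hB : ∀ (z : L) (a : B), z • a = g z * a := fun _ _ => rfl
  have _ : IsScalarTower k Z A := ⟨fun c z a => by
    rw [hA, hA, map_smul, smul_mul_assoc]⟩
  have _ : IsScalarTower k L B := ⟨fun c z a => by
    rw [hB, hB, map_smul, smul_mul_assoc]⟩
  let e := Module.Basis.ofVectorSpace Z A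
  let e' := Module.Basis.ofVectorSpace L B
  let co : A ⊗[k] B ≃ₗ[k] _ →₀ (Z ⊗[k] L) :=
    (TensorProduct.congr (e.repr.restrictScalars k) (e'.repr.restrictScalars k)).trans
      (finsuppTensorFinsupp k k Z L _ _)
  have co_tmul : ∀ a b i j, co (a ⊗ₜ b) (i, j) = e.repr a i ⊗ₜ[k] e'.repr b j := by
    intro a b i j
    show finsuppTensorFinsupp k k Z L _ _ (_ ⊗ₜ _) (i, j) = _
    rw [finsuppTensorFinsupp_apply]
    rfl
  have co_mul : ∀ (s : Z ⊗[k] L) (y : A ⊗[k] B) i j,
      co (Algebra.TensorProduct.map f g s * y) (i, j) = s * co y (i, j) := by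
    intro s y i j
    induction s using TensorProduct.induction_on with
    | zero => simp
    | add s t hs ht => rw [map_add, add_mul, map_add, Finsupp.add_apply, hs, ht, add_mul]
    | tmul z l =>
      induction y using TensorProduct.induction_on with
      | zero => simp
      | add x y hx hy => rw [mul_add, map_add, Finsupp.add_apply, hx, hy, map_add,
          Finsupp.add_apply, mul_add]
      | tmul a b =>
        rw [Algebra.TensorProduct.map_tmul, Algebra.TensorProduct.tmul_mul_tmul, co_tmul, co_tmul,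
          Algebra.TensorProduct.tmul_mul_tmul, ← hA, ← hB, map_smul, map_smul]
        rfl
  apply co.injective
  ext ⟨i, j⟩
  have h1 := co_mul t x i j
  rw [h, map_zero, Finsupp.zero_apply] at h1
  rw [map_zero, Finsupp.zero_apply]
  by_contra hne
  exact hF.mul_ne ht hne h1.symm

end reg

/-! ### `M_n(Q) ⊗ Q' → M_n(R)` -/

section mat

variable {k Q Q' R : Type*} [Field k] [Ring Q] [Ring Q'] [Ring R] [Algebra k Q] [Algebra k Q']
  [Algebra k R] (n : ℕ)

/-- `M_n(Q) → M_n(R)` -/
noncomputable def jL (j : Q ⊗[k] Q' →ₐ[k] R) :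
    Matrix (Fin n) (Fin n) Q →ₐ[k] Matrix (Fin n) (Fin n) R :=
  (j.comp (Algebra.TensorProduct.includeLeft : Q →ₐ[k] Q ⊗[k] Q')).mapMatrix

theorem jL_apply (j : Q ⊗[k] Q' →ₐ[k] R) (m : Matrix (Fin n) (Fin n) Q) (p l : Fin n) :
    jL n j m p l = j (m p l ⊗ₜ 1) := rfl

/-- `Q' → M_n(R)`, scalar matrices -/
noncomputable def jS (j : Q ⊗[k] Q' →ₐ[k] R) : Q' →ₐ[k] Matrix (Fin n) (Fin n) R :=
  (Matrix.diagonalAlgHom k).comp (AlgHom.pi
    (fun _ : Fin n => j.comp (Algebra.TensorProduct.includeRight : Q' →ₐ[k] Q ⊗[k] Q')))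

theorem jS_apply (j : Q ⊗[k] Q' →ₐ[k] R) (b : Q') :
    jS n j b = Matrix.diagonal (fun _ => j (1 ⊗ₜ b)) := rfl

theorem jLS_comm (j : Q ⊗[k] Q' →ₐ[k] R) (m : Matrix (Fin n) (Fin n) Q) (b : Q') :
    Commute (jL n j m) (jS n j b) := by
  show jL n j m * jS n j b = jS n j b * jL n j m
  ext p l
  rw [jS_apply, Matrix.mul_diagonal, Matrix.diagonal_mul, jL_apply, ← map_mul, ← map_mul,
    Algebra.TensorProduct.tmul_mul_tmul, Algebra.TensorProduct.tmul_mul_tmul, one_mul, mul_one,
    one_mul, mul_one]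

/-- `M_n(Q) ⊗ Q' → M_n(R)` -/
noncomputable def jM (j : Q ⊗[k] Q' →ₐ[k] R) :
    Matrix (Fin n) (Fin n) Q ⊗[k] Q' →ₐ[k] Matrix (Fin n) (Fin n) R :=
  Algebra.TensorProduct.lift (jL n j) (jS n j) (jLS_comm n j)

theorem jM_tmul (j : Q ⊗[k] Q' →ₐ[k] R) (m : Matrix (Fin n) (Fin n) Q) (b : Q') (p l : Fin n) :
    jM n j (m ⊗ₜ b) p l = j (m p l ⊗ₜ b) := by
  unfold jM
  rw [Algebra.TensorProduct.lift_tmul, jS_apply, Matrix.mul_diagonal, jL_apply, ← map_mul,
    Algebra.TensorProduct.tmul_mul_tmul, one_mul, mul_one]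

/-- `Y ↦ ∑ E_pl ⊗ Y_pl` -/
noncomputable def un (k : Type*) {Q Q' : Type*} [Field k] [Ring Q] [Ring Q'] [Algebra k Q]
    [Algebra k Q'] (n : ℕ) (Y : Fin n → Fin n → Q ⊗[k] Q') : Matrix (Fin n) (Fin n) Q ⊗[k] Q' :=
  ∑ p, ∑ l, (LinearMap.rTensor Q' (Matrix.singleLinearMap k p l)) (Y p l)

theorem jM_un (j : Q ⊗[k] Q' →ₐ[k] R) (Y : Fin n → Fin n → Q ⊗[k] Q') (p l : Fin n) :
    jM n j (un k n Y) p l = j (Y p l) := by
  classical
  have h1 : ∀ (p' l' : Fin n) (y : Q ⊗[k] Q'),
      jM n j ((LinearMap.rTensor Q' (Matrix.singleLinearMap k p' l')) y) p l =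
        if p' = p ∧ l' = l then j y else 0 := by
    intro p' l' y
    induction y using TensorProduct.induction_on with
    | zero => simp
    | add x y hx hy =>
      rw [map_add, map_add, Matrix.add_apply, hx, hy]
      split_ifs
      · rw [map_add]
      · rw [add_zero]
    | tmul a b =>
      rw [LinearMap.rTensor_tmul, jM_tmul]
      show j (Matrix.single p' l' a p l ⊗ₜ[k] b) = _
      rw [Matrix.single_apply]
      split_ifs
      · rfl
      · rw [TensorProduct.zero_tmul, map_zero]
  unfold un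
  rw [map_sum, Matrix.sum_apply]
  simp_rw [map_sum, Matrix.sum_apply, h1]
  rw [Finset.sum_eq_single p, Finset.sum_eq_single l]
  · simp
  · intro b _ hb
    rw [if_neg (fun h => hb h.2)]
  · intro h; exact absurd (Finset.mem_univ _) h
  · intro b _ hb
    exact Finset.sum_eq_zero (fun c _ => if_neg (fun h => hb h.1))
  · intro h; exact absurd (Finset.mem_univ _) h

/-- the entries of an element of `M_n(Q) ⊗ Q'` -/
noncomputable def en (p l : Fin n) : Matrix (Fin n) (Fin n) Q ⊗[k] Q' →ₗ[k] Q ⊗[k] Q' :=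
  LinearMap.rTensor Q' (Matrix.entryLinearMap k Q p l)

theorem un_en (x : Matrix (Fin n) (Fin n) Q ⊗[k] Q') :
    un k n (fun p l => en (k := k) n p l x) = x := by
  unfold un
  induction x using TensorProduct.induction_on with
  | zero => simp
  | add x y hx hy =>
    simp only [map_add, Finset.sum_add_distrib]
    rw [hx, hy]
  | tmul m b =>
    have h1 : ∀ p l, (LinearMap.rTensor Q' (Matrix.singleLinearMap k p l))
        (en (k := k) n p l (m ⊗ₜ[k] b)) = Matrix.single p l (m p l) ⊗ₜ[k] b := fun p l => rfl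
    simp_rw [h1, ← TensorProduct.sum_tmul]
    rw [← Matrix.matrix_eq_sum_single m]

theorem jM_en (j : Q ⊗[k] Q' →ₐ[k] R) (x : Matrix (Fin n) (Fin n) Q ⊗[k] Q') (p l : Fin n) :
    jM n j x p l = j (en (k := k) n p l x) := by
  conv_lhs => rw [← un_en n x]
  rw [jM_un]

end mat

/-! ### `M_n(R)` is the central localisation of `M_n(Q) ⊗ Q'` -/

section cl

variable {k Z L Q Q' F R : Type*} [Field k] [Field Z] [Field L] [Ring Q] [Ring Q'] [Algebra k Z]
  [Algebra k L] [Algebra k Q] [Algebra k Q'] [Algebra Z Q] [Algebra L Q'] [IsScalarTower k Z Q]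
  [IsScalarTower k L Q'] [Field F] [Algebra k F] [Ring R] [Algebra k R] [Algebra F R]
  {jF : Z ⊗[k] L →ₐ[k] F} (hF : IsFrc jF) {j : Q ⊗[k] Q' →ₐ[k] R}
  (h : IsCL (iZ k Z L Q Q') jF j) (n : ℕ)

include hF h in
theorem isCL_mat : IsCL (iZ k Z L (Matrix (Fin n) (Fin n) Q) Q') jF (jM n j) := by
  classical
  refine ⟨?_, ?_, ?_⟩
  · intro x y hxy
    rw [← un_en n x, ← un_en n y]
    congr 1
    funext p l
    apply h.inj
    rw [← jM_en, ← jM_en, hxy]
  · intro t
    ext p l
    rw [Matrix.algebraMap_matrix_apply]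
    induction t using TensorProduct.induction_on with
    | zero => simp
    | add s t hs ht =>
      rw [map_add, map_add, Matrix.add_apply, hs, ht, map_add, map_add]
      split_ifs
      · rfl
      · rw [add_zero]
    | tmul z m =>
      rw [iZ_tmul, jM_tmul, Matrix.algebraMap_matrix_apply]
      split_ifs with hpl
      · rw [← iZ_tmul (k := k), h.comp]
      · rw [TensorProduct.zero_tmul, map_zero]
  · intro r
    obtain ⟨c, a, hc, ha⟩ := h.common hF Finset.univ (fun pl : Fin n × Fin n => r pl.1 pl.2)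
    refine ⟨un k n (fun p l => a (p, l)), c, hc, ?_⟩
    ext p l
    rw [jM_un, ← ha (p, l) (Finset.mem_univ _), ← Algebra.smul_def, Matrix.smul_apply,
      Algebra.smul_def]

include hF h in
/-- existence of `τ` -/
theorem exists_tau [Module.Finite F R] (T : Q →ₐ[k] Matrix (Fin n) (Fin n) Q) :
    ∃ τ : R →ₐ[k] Matrix (Fin n) (Fin n) R, ∀ a b p l, τ (j (a ⊗ₜ b)) p l = j (T a p l ⊗ₜ b) := by
  have hM := isCL_mat hF h n
  obtain ⟨τ, hτ⟩ := h.exists_lift hF
    ((jM n j).comp (Algebra.TensorProduct.map T (AlgHom.id k Q'))) (fun t ht => by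
      refine isUnit_of_left_regular (F := F) fun r hr => ?_
      refine hM.left_regular hF
        (a := Algebra.TensorProduct.map T (AlgHom.id k Q') (iZ k Z L Q Q' t)) (fun b hb => ?_) r hr
      have e : Algebra.TensorProduct.map T (AlgHom.id k Q') (iZ k Z L Q Q' t) =
          Algebra.TensorProduct.map (T.comp (IsScalarTower.toAlgHom k Z Q))
            (IsScalarTower.toAlgHom k L Q') t := by
        unfold iZ
        rw [← AlgHom.comp_apply, ← Algebra.TensorProduct.map_comp, AlgHom.id_comp]
      rw [e] at hb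
      exact left_reg _ _ hF t ht b hb)
  refine ⟨τ, fun a b p l => ?_⟩
  rw [hτ, AlgHom.comp_apply, Algebra.TensorProduct.map_tmul, jM_tmul]
  rfl

/-- the flip of a central localisation -/
theorem isFrc_flip (hF : IsFrc jF) :
    IsFrc (jF.comp (Algebra.TensorProduct.comm k L Z).toAlgHom) := by
  refine ⟨fun x y hxy => ?_, fun f => ?_⟩
  · exact (Algebra.TensorProduct.comm k L Z).injective (hF.inj hxy)
  · obtain ⟨a, b, hb, hab⟩ := hF.surj f
    refine ⟨(Algebra.TensorProduct.comm k L Z).symm a, (Algebra.TensorProduct.comm k L Z).symm b,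
      ?_, ?_⟩
    · intro h0
      apply hb
      rw [← (Algebra.TensorProduct.comm k L Z).apply_symm_apply b, h0, map_zero]
    · show f * jF ((Algebra.TensorProduct.comm k L Z) ((Algebra.TensorProduct.comm k L Z).symm b)) =
        jF ((Algebra.TensorProduct.comm k L Z) ((Algebra.TensorProduct.comm k L Z).symm a))
      rw [AlgEquiv.apply_symm_apply, AlgEquiv.apply_symm_apply, hab]

include h in
theorem isCL_flip : IsCL (iZ k L Z Q' Q) (jF.comp (Algebra.TensorProduct.comm k L Z).toAlgHom)
    (j.comp (Algebra.TensorProduct.comm k Q' Q).toAlgHom) := by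
  refine ⟨fun x y hxy => ?_, fun t => ?_, fun r => ?_⟩
  · exact (Algebra.TensorProduct.comm k Q' Q).injective (h.inj hxy)
  · have e : (Algebra.TensorProduct.comm k Q' Q) (iZ k L Z Q' Q t) =
        iZ k Z L Q Q' ((Algebra.TensorProduct.comm k L Z) t) := by
      induction t using TensorProduct.induction_on with
      | zero => simp
      | add s t hs ht => simp only [map_add, hs, ht]
      | tmul z l =>
        rw [iZ_tmul, Algebra.TensorProduct.comm_tmul, Algebra.TensorProduct.comm_tmul, iZ_tmul]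
    show j ((Algebra.TensorProduct.comm k Q' Q) (iZ k L Z Q' Q t)) =
      algebraMap F R (jF ((Algebra.TensorProduct.comm k L Z) t))
    rw [e, h.comp]
  · obtain ⟨a, c, hc, hac⟩ := h.surj r
    refine ⟨(Algebra.TensorProduct.comm k Q' Q).symm a, (Algebra.TensorProduct.comm k L Z).symm c,
      ?_, ?_⟩
    · intro h0
      apply hc
      rw [← (Algebra.TensorProduct.comm k L Z).apply_symm_apply c, h0, map_zero]
    · show algebraMap F R (jF ((Algebra.TensorProduct.comm k L Z)
        ((Algebra.TensorProduct.comm k L Z).symm c))) * r =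
        j ((Algebra.TensorProduct.comm k Q' Q) ((Algebra.TensorProduct.comm k Q' Q).symm a))
      rw [AlgEquiv.apply_symm_apply, AlgEquiv.apply_symm_apply, hac]

end cl

/-! ### compatibility with the coproduct -/

section comp

variable {k : Type u} {H Q : Type v} [Field k] [Ring H] [HopfAlgebra k H] [DivisionRing Q]
  [Algebra k Q] {n : ℕ}

/-- the entry `f(·)_pl` -/
noncomputable def fE (f : H →ₐ[k] Matrix (Fin n) (Fin n) k) (p l : Fin n) : H →ₗ[k] k :=
  Matrix.entryLinearMap k k p l ∘ₗ f.toLinearMap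

/-- `a ⊗ b ↦ f(a)_pl b` -/
noncomputable def phL (ι : H →ₐ[k] Q) (f : H →ₐ[k] Matrix (Fin n) (Fin n) k) (p l : Fin n) :
    H ⊗[k] H →ₗ[k] Q :=
  (TensorProduct.lid k Q).toLinearMap ∘ₗ TensorProduct.map (fE f p l) ι.toLinearMap

theorem phL_tmul (ι : H →ₐ[k] Q) (f : H →ₐ[k] Matrix (Fin n) (Fin n) k) (p l : Fin n) (a b : H) :
    phL ι f p l (a ⊗ₜ b) = f a p l • ι b := rfl

/-- `a ⊗ (b ⊗ c) ↦ f(a)_pl (ι b ⊗ ι c)` -/
noncomputable def gtL (ι : H →ₐ[k] Q) (f : H →ₐ[k] Matrix (Fin n) (Fin n) k) (p l : Fin n) :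
    H ⊗[k] (H ⊗[k] H) →ₗ[k] Q ⊗[k] Q :=
  (TensorProduct.lid k (Q ⊗[k] Q)).toLinearMap ∘ₗ
    TensorProduct.map (fE f p l) (TensorProduct.map ι.toLinearMap ι.toLinearMap)

theorem gtL_tmul (ι : H →ₐ[k] Q) (f : H →ₐ[k] Matrix (Fin n) (Fin n) k) (p l : Fin n) (a : H)
    (u : H ⊗[k] H) :
    gtL ι f p l (a ⊗ₜ u) = f a p l • TensorProduct.map ι.toLinearMap ι.toLinearMap u := rfl

/-- `a ⊗ b ↦ f(b)_pl a` -/
noncomputable def phR (ι : H →ₐ[k] Q) (f : H →ₐ[k] Matrix (Fin n) (Fin n) k) (p l : Fin n) :
    H ⊗[k] H →ₗ[k] Q :=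
  (TensorProduct.rid k Q).toLinearMap ∘ₗ TensorProduct.map ι.toLinearMap (fE f p l)

theorem phR_tmul (ι : H →ₐ[k] Q) (f : H →ₐ[k] Matrix (Fin n) (Fin n) k) (p l : Fin n) (a b : H) :
    phR ι f p l (a ⊗ₜ b) = f b p l • ι a := rfl

/-- `u ⊗ c ↦ f(c)_pl (ι ⊗ ι) u` -/
noncomputable def gtR (ι : H →ₐ[k] Q) (f : H →ₐ[k] Matrix (Fin n) (Fin n) k) (p l : Fin n) :
    (H ⊗[k] H) ⊗[k] H →ₗ[k] Q ⊗[k] Q :=
  (TensorProduct.rid k (Q ⊗[k] Q)).toLinearMap ∘ₗ
    TensorProduct.map (TensorProduct.map ι.toLinearMap ι.toLinearMap) (fE f p l)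

theorem gtR_tmul (ι : H →ₐ[k] Q) (f : H →ₐ[k] Matrix (Fin n) (Fin n) k) (p l : Fin n) (c : H)
    (u : H ⊗[k] H) :
    gtR ι f p l (u ⊗ₜ c) = f c p l • TensorProduct.map ι.toLinearMap ι.toLinearMap u := rfl

theorem T_eqL {ι : H →ₐ[k] Q} {f : H →ₐ[k] Matrix (Fin n) (Fin n) k}
    {T : Q →ₐ[k] Matrix (Fin n) (Fin n) Q} (hT : IsTl ι f T) (h : H) (p l : Fin n) :
    T (ι h) p l = phL ι f p l (comul (R := k) h) := by
  obtain ⟨m, x, y, e⟩ := TensorProduct.exists_sum_tmul_eq (comul (R := k) h)
  rw [hT.eq h m x y e p l, e, map_sum]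
  rfl

theorem T_eqR {ι : H →ₐ[k] Q} {f : H →ₐ[k] Matrix (Fin n) (Fin n) k}
    {T : Q →ₐ[k] Matrix (Fin n) (Fin n) Q} (hT : IsTr ι f T) (h : H) (p l : Fin n) :
    T (ι h) p l = phR ι f p l (comul (R := k) h) := by
  obtain ⟨m, x, y, e⟩ := TensorProduct.exists_sum_tmul_eq (comul (R := k) h)
  rw [hT.eq h m x y e p l, e, map_sum]
  rfl

theorem asL (ι : H →ₐ[k] Q) (f : H →ₐ[k] Matrix (Fin n) (Fin n) k) (p l : Fin n)
    (u : (H ⊗[k] H) ⊗[k] H) :
    TensorProduct.map (phL ι f p l) ι.toLinearMap u =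
      gtL ι f p l (TensorProduct.assoc k H H H u) := by
  induction u using TensorProduct.induction_on with
  | zero => simp
  | add u v hu hv => simp only [map_add, hu, hv]
  | tmul w c =>
    induction w using TensorProduct.induction_on with
    | zero => simp
    | add u v hu hv => simp only [map_add, TensorProduct.add_tmul, hu, hv]
    | tmul a b =>
      rw [TensorProduct.assoc_tmul, gtL_tmul, TensorProduct.map_tmul, TensorProduct.map_tmul,
        phL_tmul, TensorProduct.smul_tmul']
      rfl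

theorem asR (ι : H →ₐ[k] Q) (f : H →ₐ[k] Matrix (Fin n) (Fin n) k) (p l : Fin n)
    (u : (H ⊗[k] H) ⊗[k] H) :
    TensorProduct.map ι.toLinearMap (phR ι f p l) (TensorProduct.assoc k H H H u) =
      gtR ι f p l u := by
  induction u using TensorProduct.induction_on with
  | zero => simp
  | add u v hu hv => simp only [map_add, hu, hv]
  | tmul w c =>
    induction w using TensorProduct.induction_on with
    | zero => simp
    | add u v hu hv => simp only [map_add, TensorProduct.add_tmul, hu, hv]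
    | tmul a b =>
      rw [TensorProduct.assoc_tmul, gtR_tmul, TensorProduct.map_tmul, TensorProduct.map_tmul,
        phR_tmul, TensorProduct.tmul_smul]
      rfl

end comp

end TALM

open TALM in
theorem specTAL : SpecTAL.{u, v} := by
  intro k H Z Q F2 R2 _ _ _ _ _ _ _ _ _ _ _ _ _ _ _ _ ι jF j D hQ hR n f T hT
  have := hQ.fin
  have := hR.cl.finite_iZ hR.frc
  obtain ⟨τ, hτ⟩ := exists_tau hR.frc hR.cl n T
  refine ⟨τ, hτ, ?_⟩
  obtain ⟨jZ, hjZ⟩ := exists_jZ hQ (fun c hc q => REGM.cent_image hQ hc q)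
  have key : (τ.comp D) = (D.mapMatrix).comp T := by
    refine (isCL_H hQ hjZ).hom_ext (isFrc_jZ hQ hjZ) (fun h => ?_)
    ext p l
    show τ (D (ι h)) p l = D (T (ι h) p l)
    rw [hR.D_ι, T_eqL hT]
    have h1 : ∀ w : Q ⊗[k] Q, τ (j w) p l =
        j (LinearMap.rTensor Q (Matrix.entryLinearMap k Q p l ∘ₗ T.toLinearMap) w) := by
      intro w
      induction w using TensorProduct.induction_on with
      | zero => simp
      | add x y hx hy => simp only [map_add, Matrix.add_apply, hx, hy]
      | tmul a b => rw [hτ]; rfl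
    rw [h1, dQ_apply]
    have h2 : LinearMap.rTensor Q (Matrix.entryLinearMap k Q p l ∘ₗ T.toLinearMap)
        (TensorProduct.map ι.toLinearMap ι.toLinearMap (comul (R := k) h)) =
        TensorProduct.map (phL ι f p l) ι.toLinearMap
          (LinearMap.rTensor H (comul (R := k)) (comul (R := k) h)) := by
      generalize comul (R := k) h = u
      induction u using TensorProduct.induction_on with
      | zero => simp
      | add x y hx hy => simp only [map_add, hx, hy]
      | tmul a b =>
        rw [TensorProduct.map_tmul, LinearMap.rTensor_tmul, LinearMap.rTensor_tmul,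
          TensorProduct.map_tmul, ← T_eqL hT]
        rfl
    rw [h2, asL, Coalgebra.coassoc_apply]
    generalize comul (R := k) h = u
    induction u using TensorProduct.induction_on with
    | zero => simp
    | add x y hx hy => simp only [map_add, hx, hy]
    | tmul a b =>
      rw [LinearMap.lTensor_tmul, gtL_tmul, phL_tmul, map_smul, map_smul, hR.D_ι, dQ_apply]
  intro q p l
  have h3 := congrArg (fun g : Q →ₐ[k] Matrix (Fin n) (Fin n) R2 => g q p l) key
  exact h3

end Pool.Agent.Lib.MP_c37a72_al.LB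
end
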