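import Pool.Agent.Lib.MP_c37a72_al.PUR
import Pool.Agent.Lib.MP_c37a72_al.EG.Base

/-!
# MP_c37a72_al, block LB (labels): definitions

`H ⊆ Q ⊇ Z` as in `IsCQ`; `F2 = Frac (Z ⊗ Z)`, `R2` the localisation of `Q ⊗ Q`, `D : Q → R2` the
coproduct (`IsR2`). Text: `/team-store/MP_c37a72_labels.md`.

* points: `x y z w : Z →ₐ[k] Ω`, `Ω` a field (mostly algebraically closed); pairs of independent points:
  `ξ : F2 →ₐ[k] Ω` (`Pr ξ x y`: `ξ (a ⊗ b) = x a * y b`);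
* `Rel D W z x` (text: `z ∈ W * x`), `W` a `k`-subspace of `R2`: every `∑ z'_i ⊗ z_i` with
  `∑ D z'_i · w · D z_i = 0` for all `w ∈ W` is killed by `(z, x)`;
* `RelT T z x`, `T : Q → M_n(Q)`: every `∑ z'_i ⊗ z_i` with `∑ T z'_i · z_i = 0` is killed by `(z, x)`;
* `Mul D ξ w` (text: `w ∈ x * y`): every `∑ a_i ⊗ c_i ∈ F2 ⊗ Z` with `∑ a_i D c_i = 0` is killed by
  `(ξ, w)`;
* `Star D K kap w` (text: `w ∈ *kap`), `kap : K →ₐ[k] Ω`, `K ⊆ R2`: the same with `K ⊗ Z`;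
* `M2`, `K2` (text: `M_2`, `K_2`); `embL`, `embR`: `E ⊗ 1`, `1 ⊗ E` in `R2`;
* `gZ k Z F = Gal(F / Z)` inside `F ≃ₐ[k] F`, `Lab D W F` (text: `T(W)`), `G0 D W F`.
-/

set_option autoImplicit false

open scoped TensorProduct
open Coalgebra HopfAlgebra

namespace Pool.Agent.Lib.MP_c37a72_al.LB

universe u v w

section Pure

variable (k : Type u) {A B R Ω : Type*} [Field k] [Ring A] [Algebra k A] [Ring B] [Algebra k B]
  [Ring R] [Algebra k R]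

/-- `a ⊗ b ↦ f a * r * g b`. -/
noncomputable def sand (f : A →ₐ[k] R) (g : B →ₐ[k] R) (r : R) : A ⊗[k] B →ₗ[k] R :=
  TensorProduct.lift ((LinearMap.mul k R).compl₁₂
    ((LinearMap.mulRight k r).comp f.toLinearMap) g.toLinearMap)

@[simp] theorem sand_tmul (f : A →ₐ[k] R) (g : B →ₐ[k] R) (r : R) (a : A) (b : B) :
    sand k f g r (a ⊗ₜ b) = f a * r * g b := rfl

/-- `a ⊗ b ↦ f a * g b`. -/
noncomputable def mu (f : A →ₐ[k] R) (g : B →ₐ[k] R) : A ⊗[k] B →ₗ[k] R :=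
  TensorProduct.lift ((LinearMap.mul k R).compl₁₂ f.toLinearMap g.toLinearMap)

@[simp] theorem mu_tmul (f : A →ₐ[k] R) (g : B →ₐ[k] R) (a : A) (b : B) :
    mu k f g (a ⊗ₜ b) = f a * g b := rfl

/-- `(f, g)` kills the kernel of `(p, q)` : `∑ p a_i * q b_i = 0` implies `∑ f a_i * g b_i = 0`. -/
def Kill {S : Type*} [Ring S] [Algebra k S] (p : A →ₐ[k] S) (q : B →ₐ[k] S) (f : A →ₐ[k] R)
    (g : B →ₐ[k] R) : Prop :=
  ∀ t : A ⊗[k] B, mu k p q t = 0 → mu k f g t = 0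

end Pure

section Defs

variable {k : Type u} {Z Q F2 R2 : Type v} [Field k] [Field Z] [Algebra k Z] [DivisionRing Q]
  [Algebra k Q] [Algebra Z Q] [IsScalarTower k Z Q] [Field F2] [Algebra k F2] [Ring R2]
  [Algebra k R2] [Algebra F2 R2] [IsScalarTower k F2 R2]

/-- `Z → Q` as a homomorphism of `k`-algebras. -/
noncomputable abbrev zQ (k : Type u) (Z Q : Type v) [Field k] [Field Z] [Algebra k Z]
    [DivisionRing Q] [Algebra k Q] [Algebra Z Q] [IsScalarTower k Z Q] : Z →ₐ[k] Q :=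
  IsScalarTower.toAlgHom k Z Q

/-- `D` on `Z`. -/
noncomputable def DZ (D : Q →ₐ[k] R2) (Z : Type v) [Field Z] [Algebra k Z] [Algebra Z Q]
    [IsScalarTower k Z Q] : Z →ₐ[k] R2 :=
  D.comp (zQ k Z Q)

@[simp] theorem DZ_apply (D : Q →ₐ[k] R2) (z : Z) : DZ D Z z = D (algebraMap Z Q z) := rfl

/-- The ring `R2` with the coproduct `D : Q → R2`. -/
structure IsR2 {H : Type v} [Ring H] [HopfAlgebra k H] (ι : H →ₐ[k] Q) (jF : Z ⊗[k] Z →ₐ[k] F2)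
    (j : Q ⊗[k] Q →ₐ[k] R2) (D : Q →ₐ[k] R2) : Prop where
  frc : IsFrc jF
  cl : IsCL (iZ k Z Z Q Q) jF j
  D_ι : ∀ h, D (ι h) = j (dQ ι h)

/-- `ξ` lies over the pair `(x, y)`. -/
def Pr {Ω : Type w} [Field Ω] [Algebra k Ω] (jF : Z ⊗[k] Z →ₐ[k] F2) (ξ : F2 →ₐ[k] Ω)
    (x y : Z →ₐ[k] Ω) : Prop :=
  ∀ a b : Z, ξ (jF (a ⊗ₜ b)) = x a * y b

/-- `(z, x)` kills every `∑ z'_i ⊗ z_i ∈ Z ⊗ Z` with `∑ D z'_i · w · D z_i = 0` for all `w ∈ W`. -/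
def Rel {Ω : Type w} [Field Ω] [Algebra k Ω] (D : Q →ₐ[k] R2) (W : Submodule k R2)
    (z x : Z →ₐ[k] Ω) : Prop :=
  ∀ t : Z ⊗[k] Z, (∀ r ∈ W, sand k (DZ D Z) (DZ D Z) r t = 0) → mu k z x t = 0

/-- `(z, x)` kills every `∑ z'_i ⊗ z_i ∈ Z ⊗ Z` with `∑ T z'_i · z_i = 0` in `M_n(Q)`. -/
def RelT {n : ℕ} {Ω : Type w} [Field Ω] [Algebra k Ω] (T : Q →ₐ[k] Matrix (Fin n) (Fin n) Q)
    (z x : Z →ₐ[k] Ω) : Prop :=
  Kill k (T.comp (zQ k Z Q)) (IsScalarTower.toAlgHom k Z (Matrix (Fin n) (Fin n) Q)) z x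

/-- text: `w ∈ x * y`, `ξ` over `(x, y)`. -/
def Mul {Ω : Type w} [Field Ω] [Algebra k Ω] (D : Q →ₐ[k] R2) (ξ : F2 →ₐ[k] Ω) (w : Z →ₐ[k] Ω) :
    Prop :=
  Kill k (IsScalarTower.toAlgHom k F2 R2) (DZ D Z) ξ w

/-- text: `w ∈ *kap`. -/
def Star {Ω : Type w} [Field Ω] [Algebra k Ω] (D : Q →ₐ[k] R2) (K : Subalgebra F2 R2)
    (kap : K →ₐ[k] Ω) (w : Z →ₐ[k] Ω) : Prop :=
  Kill k (K.val.restrictScalars k) (DZ D Z) kap w

/-- `E ⊗ 1` in `R2`. -/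
noncomputable def embL (j : Q ⊗[k] Q →ₐ[k] R2) (E : Submodule k Q) : Submodule k R2 :=
  E.map (j.comp (Algebra.TensorProduct.includeLeft : Q →ₐ[k] Q ⊗[k] Q)).toLinearMap

/-- `1 ⊗ E` in `R2`. -/
noncomputable def embR (j : Q ⊗[k] Q →ₐ[k] R2) (E : Submodule k Q) : Submodule k R2 :=
  E.map (j.comp (Algebra.TensorProduct.includeRight : Q →ₐ[k] Q ⊗[k] Q)).toLinearMap

/-- `W · D(Q)`, the `k`-span of the `w D(q)`. -/
noncomputable def WD (D : Q →ₐ[k] R2) (W : Submodule k R2) : Submodule k R2 :=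
  Submodule.span k {r | ∃ w ∈ W, ∃ q : Q, r = w * D q}

/-- text: `M_2`, the `F2`-algebra generated by `O_l ⊗ 1` and `D(Q)`. -/
noncomputable def M2 (Z : Type v) [Field Z] [Algebra k Z] [Algebra Z Q] [IsScalarTower k Z Q]
    (F2 : Type v) [Field F2] [Algebra F2 R2] {H : Type v} [Ring H] [HopfAlgebra k H]
    (ι : H →ₐ[k] Q) (j : Q ⊗[k] Q →ₐ[k] R2) (D : Q →ₐ[k] R2) : Subalgebra F2 R2 :=
  Algebra.adjoin F2 ((fun e : Q => j (e ⊗ₜ[k] 1)) '' (EG.Ol k Z ι : Set Q) ∪ Set.range D)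

/-- text: `K_2 = C(M_2)`. -/
noncomputable def K2 (Z : Type v) [Field Z] [Algebra k Z] [Algebra Z Q] [IsScalarTower k Z Q]
    (F2 : Type v) [Field F2] [Algebra F2 R2] {H : Type v} [Ring H] [HopfAlgebra k H]
    (ι : H →ₐ[k] Q) (j : Q ⊗[k] Q →ₐ[k] R2) (D : Q →ₐ[k] R2) : Subalgebra F2 R2 :=
  Subalgebra.centralizer F2 (M2 Z F2 ι j D : Set R2)

/-- `E` is a finite-dimensional `▷`-stable generating subspace of `O_l`. -/
structure IsEl (Z : Type v) [Field Z] [Algebra k Z] [Algebra Z Q] [IsScalarTower k Z Q] {H : Type v}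
    [Ring H] [HopfAlgebra k H] (ι : H →ₐ[k] Q) (E : Submodule k Q) : Prop where
  fin : Module.Finite k E
  one : (1 : Q) ∈ E
  sub : ∀ e ∈ E, e ∈ EG.Ol k Z ι
  stab : ∀ (h : H), ∀ e ∈ E, EG.adlQ k Z ι h e ∈ E
  gen : ∀ q ∈ EG.Ol k Z ι, q ∈ Submodule.span Z (E : Set Q)

/-- `E` is a finite-dimensional `◁`-stable generating subspace of `O_r`. -/
structure IsEr (Z : Type v) [Field Z] [Algebra k Z] [Algebra Z Q] [IsScalarTower k Z Q] {H : Type v}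
    [Ring H] [HopfAlgebra k H] (ι : H →ₐ[k] Q) (E : Submodule k Q) : Prop where
  fin : Module.Finite k E
  one : (1 : Q) ∈ E
  sub : ∀ e ∈ E, e ∈ EG.Or k Z ι
  stab : ∀ (h : H), ∀ e ∈ E, EG.adrQ k Z ι h e ∈ E
  gen : ∀ q ∈ EG.Or k Z ι, q ∈ Submodule.span Z (E : Set Q)

/-- `T` is the homomorphism `Q → M_n(Q)` of the representation `f` of `H`, LEFT version:
`T (ι h) = f(h₁) h₂`. -/
structure IsTl {H : Type v} [Ring H] [HopfAlgebra k H] (ι : H →ₐ[k] Q) {n : ℕ}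
    (f : H →ₐ[k] Matrix (Fin n) (Fin n) k) (T : Q →ₐ[k] Matrix (Fin n) (Fin n) Q) : Prop where
  eq : ∀ (h : H) (m : ℕ) (a b : Fin m → H), comul (R := k) h = ∑ i, a i ⊗ₜ[k] b i →
    ∀ p q, T (ι h) p q = ∑ i, f (a i) p q • ι (b i)

/-- RIGHT version: `T (ι h) = f(h₂) h₁`. -/
structure IsTr {H : Type v} [Ring H] [HopfAlgebra k H] (ι : H →ₐ[k] Q) {n : ℕ}
    (f : H →ₐ[k] Matrix (Fin n) (Fin n) k) (T : Q →ₐ[k] Matrix (Fin n) (Fin n) Q) : Prop where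
  eq : ∀ (h : H) (m : ℕ) (a b : Fin m → H), comul (R := k) h = ∑ i, a i ⊗ₜ[k] b i →
    ∀ p q, T (ι h) p q = ∑ i, f (b i) p q • ι (a i)

end Defs

section Labels

/-- `Gal(F / Z)` as a subgroup of `F ≃ₐ[k] F`. -/
def gZ (k : Type u) (Z F : Type v) [Field k] [Field Z] [Field F] [Algebra k Z] [Algebra k F]
    [Algebra Z F] : Subgroup (F ≃ₐ[k] F) where
  carrier := {σ | ∀ z : Z, σ (algebraMap Z F z) = algebraMap Z F z}
  mul_mem' := fun {a b} ha hb z => by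
    show a (b (algebraMap Z F z)) = _
    rw [hb z, ha z]
  one_mem' := fun z => rfl
  inv_mem' := fun {a} ha z => by
    show a.symm (algebraMap Z F z) = _
    rw [AlgEquiv.symm_apply_eq]
    exact (ha z).symm

variable {k : Type u} {Q R2 : Type v} [Field k] [DivisionRing Q] [Algebra k Q] [Ring R2]
  [Algebra k R2]

/-- `τ` restricted to `Z`, a point of `Z` in `F`. -/
noncomputable def rs {k : Type u} (Z : Type v) {F : Type v} [Field k] [Field Z] [Field F]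
    [Algebra k Z] [Algebra k F] [Algebra Z F] [IsScalarTower k Z F] (τ : F ≃ₐ[k] F) : Z →ₐ[k] F :=
  τ.toAlgHom.comp (IsScalarTower.toAlgHom k Z F)

@[simp] theorem rs_apply {k : Type u} (Z : Type v) {F : Type v} [Field k] [Field Z] [Field F]
    [Algebra k Z] [Algebra k F] [Algebra Z F] [IsScalarTower k Z F] (τ : F ≃ₐ[k] F) (z : Z) :
    rs Z τ z = τ (algebraMap Z F z) := rfl

/-- text: `T(W)`: the labels, `τ ∈ Aut(F/k)` with `(τ|Z, id)` in the relation `Rel D W`. -/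
def Lab (F Z : Type v) [Field F] [Algebra k F] [Field Z] [Algebra k Z] [Algebra Z F]
    [IsScalarTower k Z F] [Algebra Z Q] [IsScalarTower k Z Q] (D : Q →ₐ[k] R2)
    (W : Submodule k R2) : Set (F ≃ₐ[k] F) :=
  {τ | Rel D W (rs Z τ) (rs Z 1)}

/-- text: `G0 = ⟨T(W), g⟩`. -/
def G0 (F Z : Type v) [Field F] [Algebra k F] [Field Z] [Algebra k Z] [Algebra Z F]
    [IsScalarTower k Z F] [Algebra Z Q] [IsScalarTower k Z Q] (D : Q →ₐ[k] R2)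
    (W : Submodule k R2) : Subgroup (F ≃ₐ[k] F) :=
  Subgroup.closure (Lab F Z D W ∪ (gZ k Z F : Set (F ≃ₐ[k] F)))

end Labels

end Pool.Agent.Lib.MP_c37a72_al.LB
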