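import Pool.Agent.Lib.MP_c37a72_al.LB.Spec
import Pool.Agent.Lib.MP_c37a72_al.EG.ADA

/-!
# MP_c37a72_al, block LB: module BIF

`(E_0 ⊗ 1) D(Q) = D(Q)(E_0 ⊗ 1)` and `(1 ⊗ E_r) D(Q) = D(Q)(1 ⊗ E_r)`.
-/

set_option autoImplicit false

open scoped TensorProduct
open Coalgebra HopfAlgebra WithConv

namespace Pool.Agent.Lib.MP_c37a72_al.LB

universe u v w

namespace BIFM

theorem opS {α R : Type*} [AddCommMonoid R] (s : Finset α) (f : α → R) :
    MulOpposite.op (∑ i ∈ s, f i) = ∑ i ∈ s, MulOpposite.op (f i) :=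
  map_sum (MulOpposite.opAddEquiv : R ≃+ Rᵐᵒᵖ) f s

section Lin

variable {K M : Type*} [DivisionRing K] [AddCommGroup M] [Module K M]

theorem pull (X : Set M) (hf : Module.Finite K (Submodule.span K X)) (L : M →ₗ[K] M)
    (hi : Function.Injective L) (hX : ∀ x ∈ X, L x ∈ Submodule.span K X) {r : M}
    (hr : L r ∈ Submodule.span K X) : r ∈ Submodule.span K X := by
  have hLV : ∀ v ∈ Submodule.span K X, L v ∈ Submodule.span K X := by
    have h1 : Submodule.span K X ≤ (Submodule.span K X).comap L := Submodule.span_le.2 hX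
    exact h1
  let L' : Submodule.span K X →ₗ[K] Submodule.span K X := L.restrict hLV
  have h1 : Function.Injective L' := fun a b hab => Subtype.ext (hi (congrArg Subtype.val hab))
  have h2 : Function.Surjective L' := LinearMap.surjective_of_injective h1
  obtain ⟨v, hv⟩ := h2 ⟨L r, hr⟩
  have h3 : L v = L r := congrArg Subtype.val hv
  rw [← hi h3]
  exact v.2

/-- the span of a finite-dimensional `k`-space is finite-dimensional -/
theorem fin_span {k : Type*} [Field k] [Module k M] (c : k → K) (hc : ∀ (a : k) (x : M),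
    a • x = c a • x) (W : Submodule k M) (hW : Module.Finite k W) :
    Module.Finite K (Submodule.span K (W : Set M)) := by
  obtain ⟨s, hs⟩ := (Module.Finite.iff_fg.1 hW)
  have h1 : Submodule.span K (W : Set M) = Submodule.span K (s : Set M) := by
    refine le_antisymm (Submodule.span_le.2 fun x hx => ?_) (Submodule.span_mono ?_)
    · have hx' : x ∈ Submodule.span k (s : Set M) := by
        rw [hs]
        exact hx
      induction hx' using Submodule.span_induction with
      | mem y hy => exact Submodule.subset_span hy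
      | zero => exact Submodule.zero_mem _
      | add y z hy hz h1 h2 =>
        exact Submodule.add_mem _ (h1 (by
          show y ∈ W
          rw [← hs]
          exact hy)) (h2 (by
          show z ∈ W
          rw [← hs]
          exact hz))
      | smul a y hy h1 =>
        rw [hc]
        exact Submodule.smul_mem _ _ (h1 (by
          show y ∈ W
          rw [← hs]
          exact hy))
    · intro x hx
      show x ∈ W
      rw [← hs]
      exact Submodule.subset_span hx
  rw [h1]
  exact Module.Finite.span_finset K s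

end Lin

section Ring

variable {k : Type u} {Q R2 : Type v} [Field k] [DivisionRing Q] [Algebra k Q] [Ring R2]
  [Algebra k R2]

/-- right multiplication through `D` -/
@[reducible] noncomputable def rmod (D : Q →ₐ[k] R2) : Module Qᵐᵒᵖ R2 :=
  Module.compHom R2 (RingHom.op D.toRingHom : Qᵐᵒᵖ →+* R2ᵐᵒᵖ)

/-- left multiplication through `D` -/
@[reducible] noncomputable def lmod (D : Q →ₐ[k] R2) : Module Q R2 :=
  Module.compHom R2 (D.toRingHom : Q →+* R2)

theorem wd_mul (D : Q →ₐ[k] R2) (W : Submodule k R2) (q : Q) {r : R2} (hr : r ∈ WD D W) :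
    r * D q ∈ WD D W := by
  unfold WD at hr ⊢
  induction hr using Submodule.span_induction with
  | mem y hy =>
    obtain ⟨w, hw, q', rfl⟩ := hy
    exact Submodule.subset_span ⟨w, hw, q' * q, by rw [map_mul, mul_assoc]⟩
  | zero => rw [zero_mul]; exact Submodule.zero_mem _
  | add y z _ _ hy hz => rw [add_mul]; exact Submodule.add_mem _ hy hz
  | smul b y _ hy => rw [smul_mul_assoc]; exact Submodule.smul_mem _ _ hy

theorem dw_mul (D : Q →ₐ[k] R2) (W : Submodule k R2) (q : Q) {r : R2} (hr : r ∈ DW D W) :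
    D q * r ∈ DW D W := by
  unfold DW at hr ⊢
  induction hr using Submodule.span_induction with
  | mem y hy =>
    obtain ⟨w, hw, q', rfl⟩ := hy
    exact Submodule.subset_span ⟨w, hw, q * q', by rw [map_mul, mul_assoc]⟩
  | zero => rw [mul_zero]; exact Submodule.zero_mem _
  | add y z _ _ hy hz => rw [mul_add]; exact Submodule.add_mem _ hy hz
  | smul b y _ hy => rw [mul_smul_comm]; exact Submodule.smul_mem _ _ hy

theorem wd_mem (D : Q →ₐ[k] R2) (W : Submodule k R2) (r : R2) :
    letI := rmod D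
    r ∈ WD D W ↔ r ∈ Submodule.span Qᵐᵒᵖ (W : Set R2) := by
  let _ := rmod D
  have hs : ∀ (q : Q) (x : R2), MulOpposite.op q • x = x * D q := fun q x => rfl
  constructor
  · intro hr
    unfold WD at hr
    induction hr using Submodule.span_induction with
    | mem x hx =>
      obtain ⟨w, hw, q, rfl⟩ := hx
      rw [← hs]
      exact Submodule.smul_mem _ _ (Submodule.subset_span hw)
    | zero => exact Submodule.zero_mem _
    | add x y _ _ hx hy => exact Submodule.add_mem _ hx hy
    | smul a x _ hx =>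
      have h1 : a • x = MulOpposite.op (algebraMap k Q a) • x := by
        rw [hs, D.commutes, ← Algebra.commutes, Algebra.smul_def]
      rw [h1]
      exact Submodule.smul_mem _ _ hx
  · intro hr
    induction hr using Submodule.span_induction with
    | mem x hx =>
      refine Submodule.subset_span ⟨x, hx, 1, ?_⟩
      rw [map_one, mul_one]
    | zero => exact Submodule.zero_mem _
    | add x y _ _ hx hy => exact Submodule.add_mem _ hx hy
    | smul a x _ hx => exact wd_mul D W a.unop hx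

theorem dw_mem (D : Q →ₐ[k] R2) (W : Submodule k R2) (r : R2) :
    letI := lmod D
    r ∈ DW D W ↔ r ∈ Submodule.span Q (W : Set R2) := by
  let _ := lmod D
  have hs : ∀ (q : Q) (x : R2), q • x = D q * x := fun q x => rfl
  constructor
  · intro hr
    unfold DW at hr
    induction hr using Submodule.span_induction with
    | mem x hx =>
      obtain ⟨w, hw, q, rfl⟩ := hx
      rw [← hs]
      exact Submodule.smul_mem _ _ (Submodule.subset_span hw)
    | zero => exact Submodule.zero_mem _
    | add x y _ _ hx hy => exact Submodule.add_mem _ hx hy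
    | smul a x _ hx =>
      have h1 : a • x = (algebraMap k Q a) • x := by
        rw [hs, D.commutes, Algebra.smul_def]
      rw [h1]
      exact Submodule.smul_mem _ _ hx
  · intro hr
    induction hr using Submodule.span_induction with
    | mem x hx =>
      refine Submodule.subset_span ⟨x, hx, 1, ?_⟩
      rw [map_one, one_mul]
    | zero => exact Submodule.zero_mem _
    | add x y _ _ hx hy => exact Submodule.add_mem _ hx hy
    | smul a x _ hx => exact dw_mul D W a hx

/-- cancellation of `D c` on the left of `W D(Q)` -/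
theorem wd_pull (D : Q →ₐ[k] R2) (W : Submodule k R2) (hW : Module.Finite k W) {c : Q}
    (hc : c ≠ 0) (hcW : ∀ x ∈ W, D c * x ∈ WD D W) {r : R2} (hr : D c * r ∈ WD D W) :
    r ∈ WD D W := by
  let _ := rmod D
  have hs : ∀ (q : Qᵐᵒᵖ) (x : R2), q • x = x * D q.unop := fun q x => rfl
  rw [wd_mem] at hr ⊢
  refine pull (W : Set R2) ?_ (L := { toFun := fun x => D c * x
                                      map_add' := fun x y => mul_add _ x y
                                      map_smul' := fun q x => by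
                                        rw [hs, RingHom.id_apply, hs, mul_assoc] }) ?_ ?_ hr
  · refine fin_span (fun a : k => MulOpposite.op (algebraMap k Q a)) (fun a x => ?_) W hW
    rw [hs]
    show a • x = x * D (algebraMap k Q a)
    rw [D.commutes, ← Algebra.commutes, Algebra.smul_def]
  · intro x y hxy
    have h1 : D c * x = D c * y := hxy
    have h2 : D c⁻¹ * (D c * x) = D c⁻¹ * (D c * y) := by rw [h1]
    rwa [← mul_assoc, ← mul_assoc, ← map_mul, inv_mul_cancel₀ hc, map_one, one_mul,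
      one_mul] at h2
  · intro x hx
    show D c * x ∈ _
    rw [← wd_mem]
    exact hcW x hx

/-- cancellation of `D c` on the right of `D(Q) W` -/
theorem dw_pull (D : Q →ₐ[k] R2) (W : Submodule k R2) (hW : Module.Finite k W) {c : Q}
    (hc : c ≠ 0) (hcW : ∀ x ∈ W, x * D c ∈ DW D W) {r : R2} (hr : r * D c ∈ DW D W) :
    r ∈ DW D W := by
  let _ := lmod D
  have hs : ∀ (q : Q) (x : R2), q • x = D q * x := fun q x => rfl
  rw [dw_mem] at hr ⊢
  refine pull (W : Set R2) ?_ (L := { toFun := fun x => x * D c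
                                      map_add' := fun x y => add_mul x y _
                                      map_smul' := fun q x => by
                                        rw [hs, RingHom.id_apply, hs, mul_assoc] }) ?_ ?_ hr
  · refine fin_span (fun a : k => algebraMap k Q a) (fun a x => ?_) W hW
    rw [hs, D.commutes, Algebra.smul_def]
  · intro x y hxy
    have h1 : x * D c = y * D c := hxy
    have h2 : x * D c * D c⁻¹ = y * D c * D c⁻¹ := by rw [h1]
    rwa [mul_assoc, mul_assoc, ← map_mul, mul_inv_cancel₀ hc, map_one, mul_one,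
      mul_one] at h2
  · intro x hx
    show x * D c ∈ _
    rw [← dw_mem]
    exact hcW x hx

end Ring

section Bi

variable {k : Type u} {H Z Q R2 : Type v} [Field k] [Ring H] [IsDomain H] [HopfAlgebra k H] [Field Z]
  [Algebra k Z] [DivisionRing Q] [Algebra k Q] [Algebra Z Q] [IsScalarTower k Z Q] [Ring R2]
  [Algebra k R2]

/-- from `H` to `Q` -/
theorem bif_of {ι : H →ₐ[k] Q} (hQ : IsCQ k H Z Q ι) (D : Q →ₐ[k] R2) (W : Submodule k R2)
    (hW : Module.Finite k W) (h1 : ∀ (h : H), ∀ x ∈ W, D (ι h) * x ∈ WD D W)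
    (h2 : ∀ (h : H), ∀ x ∈ W, x * D (ι h) ∈ DW D W) : Bif D W := by
  refine ⟨hW, le_antisymm (Submodule.span_le.2 ?_) (Submodule.span_le.2 ?_)⟩
  · rintro _ ⟨w, hw, q, rfl⟩
    obtain ⟨c, h, hc0, hc, hch⟩ := hQ.frac q
    have hιc : ι c ≠ 0 := fun h0 => hc0 (hQ.inj (by rw [h0, map_zero]))
    have hcq : q * ι c = ι c * q := REGM.cent_image hQ hc q
    refine dw_pull D W hW hιc (fun x hx => h2 c x hx) ?_
    rw [mul_assoc, ← map_mul, hcq, hch]
    exact h2 h w hw
  · rintro _ ⟨w, hw, q, rfl⟩
    obtain ⟨c, h, hc0, hc, hch⟩ := hQ.frac q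
    have hιc : ι c ≠ 0 := fun h0 => hc0 (hQ.inj (by rw [h0, map_zero]))
    refine wd_pull D W hW hιc (fun x hx => h1 c x hx) ?_
    rw [← mul_assoc, ← map_mul, hch]
    exact h1 h w hw

end Bi

section Conv

open EG EG.ADAM

variable {k : Type u} {H : Type v} {R : Type w} [Field k] [Ring H] [HopfAlgebra k H] [Ring R]
  [Algebra k R]

theorem a1 (i1 i2 d : H →ₐ[k] R) (hd : cI d = cI i1 * cI i2) (e : R)
    (he : ∀ h, i2 h * e = e * i2 h) : cI d * cst k H e = cL i1 e * cI d := by
  have h1 : cI i2 * cst k H e = cst k H e * cI i2 := conv_ext fun h => by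
    rw [mul_cst_apply, cst_mul_apply, cI_apply, he]
  rw [hd, cL, mul_assoc, h1]
  calc cI i1 * (cst k H e * cI i2) = cI i1 * cst k H e * 1 * cI i2 := by rw [mul_one, mul_assoc]
    _ = cI i1 * cst k H e * (cS i1 * cI i1) * cI i2 := by rw [cS_mul_cI]
    _ = cI i1 * cst k H e * cS i1 * (cI i1 * cI i2) := by simp only [mul_assoc]

theorem b2 (i1 i2 d : H →ₐ[k] R) (hd : cI d = cI i1 * cI i2) (b : R)
    (hb : ∀ h, i1 h * b = b * i1 h) : cst k H b * cI d = cI d * cR i2 b := by
  have h1 : cst k H b * cI i1 = cI i1 * cst k H b := conv_ext fun h => by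
    rw [mul_cst_apply, cst_mul_apply, cI_apply, hb]
  rw [hd, cR, ← mul_assoc, h1]
  calc cI i1 * cst k H b * cI i2 = cI i1 * 1 * cst k H b * cI i2 := by rw [mul_one]
    _ = cI i1 * (cI i2 * cS i2) * cst k H b * cI i2 := by rw [cI_mul_cS]
    _ = cI i1 * cI i2 * (cS i2 * cst k H b * cI i2) := by simp only [mul_assoc]

/-- `i` with values in the opposite ring -/
noncomputable def oI (i : H →ₐ[k] R) : WithConv (H →ₗ[k] Rᵐᵒᵖ) :=
  toConv ((MulOpposite.opLinearEquiv k : R ≃ₗ[k] Rᵐᵒᵖ).toLinearMap ∘ₗ i.toLinearMap)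

/-- `i ∘ T` with values in the opposite ring -/
noncomputable def oT (T : H →ₗ[k] H) (i : H →ₐ[k] R) : WithConv (H →ₗ[k] Rᵐᵒᵖ) :=
  toConv ((MulOpposite.opLinearEquiv k : R ≃ₗ[k] Rᵐᵒᵖ).toLinearMap ∘ₗ i.toLinearMap ∘ₗ T)

theorem oI_apply (i : H →ₐ[k] R) (h : H) : oI i h = MulOpposite.op (i h) := rfl

theorem oT_apply (T : H →ₗ[k] H) (i : H →ₐ[k] R) (h : H) :
    oT T i h = MulOpposite.op (i (T h)) := rfl

variable {T : H →ₗ[k] H} (hT : ∀ x, antipode k (T x) = x)
  (hinj : Function.Injective (antipode k (A := H)))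

include hT hinj in
theorem sumT1 {n : ℕ} {h : H} {x y : Fin n → H} (e : comul (R := k) h = ∑ i, x i ⊗ₜ[k] y i) :
    ∑ i, y i * T (x i) = algebraMap k H (counit h) := by
  apply hinj
  rw [map_sum]
  have h1 : ∀ i, antipode k (y i * T (x i)) = x i * antipode k (y i) := fun i => by
    rw [antipode_mul_antidistrib, hT]
  rw [Finset.sum_congr rfl fun i _ => h1 i, Algebra.algebraMap_eq_smul_one, map_smul, antipode_one,
    ← Algebra.algebraMap_eq_smul_one, ← mul_antipode_lTensor_comul_apply (R := k) h, e]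
  simp

include hT hinj in
theorem sumT2 {n : ℕ} {h : H} {x y : Fin n → H} (e : comul (R := k) h = ∑ i, x i ⊗ₜ[k] y i) :
    ∑ i, T (y i) * x i = algebraMap k H (counit h) := by
  apply hinj
  rw [map_sum]
  have h1 : ∀ i, antipode k (T (y i) * x i) = antipode k (x i) * y i := fun i => by
    rw [antipode_mul_antidistrib, hT]
  rw [Finset.sum_congr rfl fun i _ => h1 i, Algebra.algebraMap_eq_smul_one, map_smul, antipode_one,
    ← Algebra.algebraMap_eq_smul_one, ← mul_antipode_rTensor_comul_apply (R := k) h, e]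
  simp

include hT hinj in
theorem oT_mul_oI (i : H →ₐ[k] R) : oT T i * oI i = 1 :=
  conv_ext fun h => by
    obtain ⟨n, x, y, e⟩ := exists_repr k h
    rw [conv_apply _ _ e, LinearMap.convOne_apply]
    simp only [oI_apply, oT_apply, ← MulOpposite.op_mul, ← map_mul]
    rw [← opS, ← map_sum, sumT1 hT hinj e, AlgHom.commutes]
    rfl

include hT hinj in
theorem oI_mul_oT (i : H →ₐ[k] R) : oI i * oT T i = 1 :=
  conv_ext fun h => by
    obtain ⟨n, x, y, e⟩ := exists_repr k h
    rw [conv_apply _ _ e, LinearMap.convOne_apply]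
    simp only [oI_apply, oT_apply, ← MulOpposite.op_mul, ← map_mul]
    rw [← opS, ← map_sum, sumT2 hT hinj e, AlgHom.commutes]
    rfl

include hT hinj in
theorem a2 (i1 i2 d : H →ₐ[k] R) (hd : oI d = oI i1 * oI i2) (e : R)
    (he : ∀ h, i2 h * e = e * i2 h) : oI d * cst k H (MulOpposite.op e) =
      oI i1 * cst k H (MulOpposite.op e) * oT T i1 * oI d := by
  have h1 : oI i2 * cst k H (MulOpposite.op e) = cst k H (MulOpposite.op e) * oI i2 :=
    conv_ext fun h => by
      rw [mul_cst_apply, cst_mul_apply, oI_apply, ← MulOpposite.op_mul, ← MulOpposite.op_mul, he]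
  rw [hd, mul_assoc, h1]
  calc oI i1 * (cst k H (MulOpposite.op e) * oI i2)
      = oI i1 * cst k H (MulOpposite.op e) * 1 * oI i2 := by rw [mul_one, mul_assoc]
    _ = oI i1 * cst k H (MulOpposite.op e) * (oT T i1 * oI i1) * oI i2 := by
      rw [oT_mul_oI hT hinj]
    _ = oI i1 * cst k H (MulOpposite.op e) * oT T i1 * (oI i1 * oI i2) := by
      simp only [mul_assoc]

include hT hinj in
theorem b1 (i1 i2 d : H →ₐ[k] R) (hd : oI d = oI i1 * oI i2) (b : R)
    (hb : ∀ h, i1 h * b = b * i1 h) : cst k H (MulOpposite.op b) * oI d =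
      oI d * (oT T i2 * cst k H (MulOpposite.op b) * oI i2) := by
  have h1 : cst k H (MulOpposite.op b) * oI i1 = oI i1 * cst k H (MulOpposite.op b) :=
    conv_ext fun h => by
      rw [mul_cst_apply, cst_mul_apply, oI_apply, ← MulOpposite.op_mul, ← MulOpposite.op_mul, hb]
  rw [hd, ← mul_assoc, h1]
  calc oI i1 * cst k H (MulOpposite.op b) * oI i2
      = oI i1 * 1 * cst k H (MulOpposite.op b) * oI i2 := by rw [mul_one]
    _ = oI i1 * (oI i2 * oT T i2) * cst k H (MulOpposite.op b) * oI i2 := by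
      rw [oI_mul_oT hT hinj]
    _ = oI i1 * oI i2 * (oT T i2 * cst k H (MulOpposite.op b) * oI i2) := by
      simp only [mul_assoc]

end Conv

section Main

open EG EG.ADAM

variable {k : Type u} {H Z Q R2 : Type v} [Field k] [Ring H] [HopfAlgebra k H]
  [Field Z] [Algebra k Z] [DivisionRing Q] [Algebra k Q] [Algebra Z Q] [IsScalarTower k Z Q]
  [Ring R2] [Algebra k R2]

theorem cL_comp (φ : Q →ₐ[k] R2) (ι : H →ₐ[k] Q) (e : Q) (g : H) :
    cL (φ.comp ι) (φ e) g = φ (adlQ k Z ι g e) := by
  obtain ⟨n, x, y, h⟩ := exists_repr k g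
  rw [cL_apply_repr _ _ h, adlQ_eq k Z ι h, map_sum]
  exact Finset.sum_congr rfl fun i _ => by
    rw [map_mul, map_mul]
    rfl

theorem cR_comp (φ : Q →ₐ[k] R2) (ι : H →ₐ[k] Q) (e : Q) (g : H) :
    cR (φ.comp ι) (φ e) g = φ (adrQ k Z ι g e) := by
  obtain ⟨n, x, y, h⟩ := exists_repr k g
  rw [cR_apply_repr _ _ h, adrQ_eq k Z ι h, map_sum]
  exact Finset.sum_congr rfl fun i _ => by
    rw [map_mul, map_mul]
    rfl

theorem comul_T (hHAN : SpecHAN.{u, v}) {T : H →ₗ[k] H} (hT : ∀ x, antipode k (T x) = x)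
    (hT' : ∀ x, T (antipode k x) = x) {g : H} {n : ℕ} {x y : Fin n → H}
    (e : comul (R := k) g = ∑ i, x i ⊗ₜ[k] y i) :
    comul (R := k) (T g) = ∑ i, T (y i) ⊗ₜ[k] T (x i) := by
  have h1 := hHAN k H (T g)
  rw [hT] at h1
  have h2 : ∀ t : H ⊗[k] H, TensorProduct.map T T (TensorProduct.comm k H H
      (TensorProduct.comm k H H (TensorProduct.map (antipode k) (antipode k) t))) = t := by
    intro t
    induction t using TensorProduct.induction_on with
    | zero => simp
    | tmul a b => simp [hT']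
    | add a b ha hb => simp only [map_add, ha, hb]
  rw [← h2 (comul (R := k) (T g)), ← h1, e]
  simp

theorem oL_comp (hHAN : SpecHAN.{u, v}) {T : H →ₗ[k] H} (hT : ∀ x, antipode k (T x) = x)
    (hT' : ∀ x, T (antipode k x) = x) (φ : Q →ₐ[k] R2) (ι : H →ₐ[k] Q) (e : Q) (g : H) :
    (oI (φ.comp ι) * cst k H (MulOpposite.op (φ e)) * oT T (φ.comp ι)) g =
      MulOpposite.op (φ (adlQ k Z ι (T g) e)) := by
  obtain ⟨n, x, y, h⟩ := exists_repr k g
  rw [conv_apply _ _ h, adlQ_eq k Z ι (comul_T hHAN hT hT' h), map_sum, opS]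
  refine Finset.sum_congr rfl fun i _ => ?_
  rw [mul_cst_apply, oI_apply, oT_apply, ← MulOpposite.op_mul, ← MulOpposite.op_mul, hT,
    map_mul, map_mul, mul_assoc]
  rfl

theorem oR_comp (hHAN : SpecHAN.{u, v}) {T : H →ₗ[k] H} (hT : ∀ x, antipode k (T x) = x)
    (hT' : ∀ x, T (antipode k x) = x) (φ : Q →ₐ[k] R2) (ι : H →ₐ[k] Q) (e : Q) (g : H) :
    (oT T (φ.comp ι) * cst k H (MulOpposite.op (φ e)) * oI (φ.comp ι)) g =
      MulOpposite.op (φ (adrQ k Z ι (T g) e)) := by
  obtain ⟨n, x, y, h⟩ := exists_repr k g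
  rw [conv_apply _ _ h, adrQ_eq k Z ι (comul_T hHAN hT hT' h), map_sum, opS]
  refine Finset.sum_congr rfl fun i _ => ?_
  rw [mul_cst_apply, oI_apply, oT_apply, ← MulOpposite.op_mul, ← MulOpposite.op_mul, hT,
    map_mul, map_mul, mul_assoc]
  rfl

end Main

end BIFM

open EG EG.ADAM BIFM in
theorem specBIF (hHAN : SpecHAN.{u, v}) : SpecBIF.{u, v} := by
  intro k H Z Q F2 R2 _ _ _ _ _ _ _ _ _ _ _ _ _ _ _ _ ι jF j D hQ hR hS El Er hEl hEr
  set φ1 : Q →ₐ[k] R2 := j.comp (Algebra.TensorProduct.includeLeft : Q →ₐ[k] Q ⊗[k] Q) with hφ1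
  set φ2 : Q →ₐ[k] R2 := j.comp (Algebra.TensorProduct.includeRight : Q →ₐ[k] Q ⊗[k] Q) with hφ2
  have h12 : ∀ a b : Q, φ1 a * φ2 b = j (a ⊗ₜ b) := by
    intro a b
    show j (a ⊗ₜ 1) * j (1 ⊗ₜ b) = _
    rw [← map_mul, Algebra.TensorProduct.tmul_mul_tmul, mul_one, one_mul]
  have h21 : ∀ a b : Q, φ2 b * φ1 a = j (a ⊗ₜ b) := by
    intro a b
    show j (1 ⊗ₜ b) * j (a ⊗ₜ 1) = _
    rw [← map_mul, Algebra.TensorProduct.tmul_mul_tmul, mul_one, one_mul]
  obtain ⟨T, hT, hT'⟩ : ∃ T : H →ₗ[k] H, (∀ x, antipode k (T x) = x) ∧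
      ∀ x, T (antipode k x) = x := by
    let E := LinearEquiv.ofBijective (antipode k (A := H)) hS
    exact ⟨E.symm.toLinearMap, fun x => E.apply_symm_apply x, fun x => E.symm_apply_apply x⟩
  have hDι : ∀ (h : H) (n : ℕ) (x y : Fin n → H), comul (R := k) h = ∑ i, x i ⊗ₜ[k] y i →
      D (ι h) = ∑ i, j (ι (x i) ⊗ₜ ι (y i)) := by
    intro h n x y e
    rw [hR.D_ι, dQ_apply, e, map_sum, map_sum]
    rfl
  have hd : cI (D.comp ι) = cI (φ1.comp ι) * cI (φ2.comp ι) := conv_ext fun h => by
    obtain ⟨n, x, y, e⟩ := exists_repr k h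
    rw [conv_apply _ _ e, cI_apply]
    show D (ι h) = _
    rw [hDι h n x y e]
    exact Finset.sum_congr rfl fun i _ => (h12 _ _).symm
  have hd' : oI (D.comp ι) = oI (φ1.comp ι) * oI (φ2.comp ι) := conv_ext fun h => by
    obtain ⟨n, x, y, e⟩ := exists_repr k h
    rw [conv_apply _ _ e, oI_apply]
    show MulOpposite.op (D (ι h)) = _
    rw [hDι h n x y e, opS]
    refine Finset.sum_congr rfl fun i _ => ?_
    rw [oI_apply, oI_apply, ← MulOpposite.op_mul]
    exact congrArg MulOpposite.op (h21 _ _).symm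
  have hfL : Module.Finite k (embL j El) := by
    have := hEl.fin
    exact Module.Finite.map El _
  have hfR : Module.Finite k (embR j Er) := by
    have := hEr.fin
    exact Module.Finite.map Er _
  constructor
  · refine bif_of hQ D (embL j El) hfL ?_ ?_
    · rintro h _ ⟨e, he, rfl⟩
      obtain ⟨n, x, y, hxy⟩ := exists_repr k h
      have h1 := a1 (φ1.comp ι) (φ2.comp ι) (D.comp ι) hd (φ1 e) (fun g => by
        show φ2 (ι g) * φ1 e = φ1 e * φ2 (ι g)
        rw [h12, h21])
      have h2 := congrArg (fun f => f h) h1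
      rw [mul_cst_apply, conv_apply _ _ hxy] at h2
      show D (ι h) * φ1 e ∈ _
      have h3 : D (ι h) * φ1 e = ∑ i, φ1 (adlQ k Z ι (x i) e) * D (ι (y i)) := by
        refine (show D (ι h) * φ1 e = _ from h2).trans (Finset.sum_congr rfl fun i _ => ?_)
        rw [cL_comp (Z := Z)]
        rfl
      rw [h3]
      refine Submodule.sum_mem _ fun i _ => Submodule.subset_span ⟨_, ?_, _, rfl⟩
      exact ⟨_, hEl.stab (x i) e he, rfl⟩
    · rintro h _ ⟨e, he, rfl⟩
      obtain ⟨n, x, y, hxy⟩ := exists_repr k h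
      have h1 := a2 hT hS.1 (φ1.comp ι) (φ2.comp ι) (D.comp ι) hd' (φ1 e) (fun g => by
        show φ2 (ι g) * φ1 e = φ1 e * φ2 (ι g)
        rw [h12, h21])
      have h2 := congrArg (fun f => f h) h1
      rw [mul_cst_apply, conv_apply _ _ hxy] at h2
      show φ1 e * D (ι h) ∈ _
      have h3 : φ1 e * D (ι h) = ∑ i, D (ι (y i)) * φ1 (adlQ k Z ι (T (x i)) e) := by
        apply MulOpposite.op_injective
        rw [opS]
        refine (show MulOpposite.op (φ1 e * D (ι h)) = _ from h2).trans
          (Finset.sum_congr rfl fun i _ => ?_)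
        rw [oL_comp (Z := Z) hHAN hT hT', oI_apply, ← MulOpposite.op_mul]
        rfl
      rw [h3]
      refine Submodule.sum_mem _ fun i _ => Submodule.subset_span ⟨_, ?_, _, rfl⟩
      exact ⟨_, hEl.stab (T (x i)) e he, rfl⟩
  · refine bif_of hQ D (embR j Er) hfR ?_ ?_
    · rintro h _ ⟨b, hb, rfl⟩
      obtain ⟨n, x, y, hxy⟩ := exists_repr k h
      have h1 := b1 hT hS.1 (φ1.comp ι) (φ2.comp ι) (D.comp ι) hd' (φ2 b) (fun g => by
        show φ1 (ι g) * φ2 b = φ2 b * φ1 (ι g)
        rw [h12, h21])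
      have h2 := congrArg (fun f => f h) h1
      rw [cst_mul_apply, conv_apply _ _ hxy] at h2
      show D (ι h) * φ2 b ∈ _
      have h3 : D (ι h) * φ2 b = ∑ i, φ2 (adrQ k Z ι (T (y i)) b) * D (ι (x i)) := by
        apply MulOpposite.op_injective
        rw [opS]
        refine (show MulOpposite.op (D (ι h) * φ2 b) = _ from h2).trans
          (Finset.sum_congr rfl fun i _ => ?_)
        rw [oR_comp (Z := Z) hHAN hT hT', oI_apply, ← MulOpposite.op_mul]
        rfl
      rw [h3]
      refine Submodule.sum_mem _ fun i _ => Submodule.subset_span ⟨_, ?_, _, rfl⟩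
      exact ⟨_, hEr.stab (T (y i)) b hb, rfl⟩
    · rintro h _ ⟨b, hb, rfl⟩
      obtain ⟨n, x, y, hxy⟩ := exists_repr k h
      have h1 := b2 (φ1.comp ι) (φ2.comp ι) (D.comp ι) hd (φ2 b) (fun g => by
        show φ1 (ι g) * φ2 b = φ2 b * φ1 (ι g)
        rw [h12, h21])
      have h2 := congrArg (fun f => f h) h1
      rw [cst_mul_apply, conv_apply _ _ hxy] at h2
      show φ2 b * D (ι h) ∈ _
      have h3 : φ2 b * D (ι h) = ∑ i, D (ι (x i)) * φ2 (adrQ k Z ι (y i) b) := by
        refine (show φ2 b * D (ι h) = _ from h2).trans (Finset.sum_congr rfl fun i _ => ?_)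
        rw [cR_comp (Z := Z)]
        rfl
      rw [h3]
      refine Submodule.sum_mem _ fun i _ => Submodule.subset_span ⟨_, ?_, _, rfl⟩
      exact ⟨_, hEr.stab (y i) b hb, rfl⟩

end Pool.Agent.Lib.MP_c37a72_al.LB
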