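import Pool.Agent.Lib.MP_c37a72_al.LB.Spec

/-!
# MP_c37a72_al, block LB, module MIS: the mirrors of `Phi_injective`
-/

set_option autoImplicit false

open scoped TensorProduct
open Coalgebra HopfAlgebra

namespace Pool.Agent.Lib.MP_c37a72_al.LB

universe u v w

namespace MISM

section tensor

variable {k Q R2 : Type*} [Field k] [AddCommGroup Q] [Module k Q] [AddCommGroup R2] [Module k R2]

/-- independence of the first components -/
theorem indep {n : ℕ} {a : Fin n → Q} (ha : LinearIndependent k a) (b : Fin n → Q)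
    (h : ∑ i, a i ⊗ₜ[k] b i = 0) (i : Fin n) : b i = 0 := by
  classical
  have hinj : LinearMap.ker (Finsupp.linearCombination k a) = ⊥ := LinearMap.ker_eq_bot.2 ha
  obtain ⟨g, hg⟩ := (Finsupp.linearCombination k a).exists_leftInverse_of_injective hinj
  have hga : ∀ j, g (a j) = Finsupp.single j 1 := by
    intro j
    have := LinearMap.congr_fun hg (Finsupp.single j 1)
    simpa using this
  have h1 := congrArg (fun t => TensorProduct.lid k Q
    (((Finsupp.lapply i).comp g).rTensor Q t)) h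
  simp only [map_sum, map_zero, LinearMap.rTensor_tmul, LinearMap.comp_apply, hga,
    Finsupp.lapply_apply, TensorProduct.lid_tmul] at h1
  rw [Finset.sum_eq_single i] at h1
  · simpa using h1
  · intro j _ hj
    rw [Finsupp.single_eq_of_ne (Ne.symm hj), zero_smul]
  · intro hi
    exact absurd (Finset.mem_univ _) hi

end tensor

section antip

variable {k : Type u} {H : Type v} {Q : Type w} [Field k] [Ring H] [HopfAlgebra k H]
  [Ring Q] [Algebra k Q] (hS : Function.Bijective (antipode k (A := H)))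

/-- the inverse of the antipode -/
noncomputable def T : H →ₗ[k] H := (LinearEquiv.ofBijective (antipode k (A := H)) hS).symm.toLinearMap

theorem S_T (x : H) : antipode k (T hS x) = x :=
  (LinearEquiv.ofBijective (antipode k (A := H)) hS).apply_symm_apply x

/-- `ι` as a map to the opposite algebra -/
noncomputable def oi (ι : H →ₐ[k] Q) : H →ₗ[k] Qᵐᵒᵖ :=
  (MulOpposite.opLinearEquiv k).toLinearMap ∘ₗ ι.toLinearMap

@[simp] theorem oi_apply (ι : H →ₐ[k] Q) (h : H) : oi ι h = MulOpposite.op (ι h) := rfl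

/-- `h₂ S⁻¹(h₁) = ε(h)` -/
theorem anti1 (h : H) : LinearMap.mul' k H (TensorProduct.comm k H H
    ((T hS).rTensor H (comul (R := k) h))) = algebraMap k H (counit (R := k) h) := by
  apply hS.1
  have h1 : ∀ t : H ⊗[k] H, antipode k (LinearMap.mul' k H (TensorProduct.comm k H H
      ((T hS).rTensor H t))) = LinearMap.mul' k H ((antipode k).lTensor H t) := by
    intro t
    induction t using TensorProduct.induction_on with
    | zero => simp
    | tmul a b =>
      rw [LinearMap.rTensor_tmul, TensorProduct.comm_tmul, LinearMap.mul'_apply,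
        antipode_mul_antidistrib, S_T, LinearMap.lTensor_tmul, LinearMap.mul'_apply]
    | add s t hs ht => simp only [map_add, hs, ht]
  rw [h1, mul_antipode_lTensor_comul_apply, Algebra.algebraMap_eq_smul_one, map_smul,
    antipode_one]

/-- `S⁻¹(h₂) h₁ = ε(h)` -/
theorem anti2 (h : H) : LinearMap.mul' k H (TensorProduct.comm k H H
    ((T hS).lTensor H (comul (R := k) h))) = algebraMap k H (counit (R := k) h) := by
  apply hS.1
  have h1 : ∀ t : H ⊗[k] H, antipode k (LinearMap.mul' k H (TensorProduct.comm k H H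
      ((T hS).lTensor H t))) = LinearMap.mul' k H ((antipode k).rTensor H t) := by
    intro t
    induction t using TensorProduct.induction_on with
    | zero => simp
    | tmul a b =>
      rw [LinearMap.lTensor_tmul, TensorProduct.comm_tmul, LinearMap.mul'_apply,
        antipode_mul_antidistrib, S_T, LinearMap.rTensor_tmul, LinearMap.mul'_apply]
    | add s t hs ht => simp only [map_add, hs, ht]
  rw [h1, mul_antipode_rTensor_comul_apply, Algebra.algebraMap_eq_smul_one, map_smul,
    antipode_one]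

theorem cvA (ι : H →ₐ[k] Q) : REGM.cv (oi ι ∘ₗ T hS) (oi ι)
    = REGM.e0 (k := k) (H := H) (Q := Qᵐᵒᵖ) := by
  ext h
  have h1 : ∀ t : H ⊗[k] H, LinearMap.mul' k Qᵐᵒᵖ
      (TensorProduct.map (oi ι ∘ₗ T hS) (oi ι) t) =
      MulOpposite.op (ι (LinearMap.mul' k H (TensorProduct.comm k H H ((T hS).rTensor H t)))) := by
    intro t
    induction t using TensorProduct.induction_on with
    | zero => simp
    | tmul a b => simp
    | add s t hs ht => simp only [map_add, hs, ht, MulOpposite.op_add]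
  simp only [REGM.cv, REGM.e0, LinearMap.comp_apply]
  rw [h1, anti1]
  simp

theorem cvB (ι : H →ₐ[k] Q) : REGM.cv (oi ι) (oi ι ∘ₗ T hS)
    = REGM.e0 (k := k) (H := H) (Q := Qᵐᵒᵖ) := by
  ext h
  have h1 : ∀ t : H ⊗[k] H, LinearMap.mul' k Qᵐᵒᵖ
      (TensorProduct.map (oi ι) (oi ι ∘ₗ T hS) t) =
      MulOpposite.op (ι (LinearMap.mul' k H (TensorProduct.comm k H H ((T hS).lTensor H t)))) := by
    intro t
    induction t using TensorProduct.induction_on with
    | zero => simp
    | tmul a b => simp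
    | add s t hs ht => simp only [map_add, hs, ht, MulOpposite.op_add]
  simp only [REGM.cv, REGM.e0, LinearMap.comp_apply]
  rw [h1, anti2]
  simp

/-- the four operators are injective -/
theorem Lf_inj (ι : H →ₐ[k] Q) : Function.Injective (REGM.Lf ι.toLinearMap) := by
  intro x y hxy
  have := congrArg (REGM.Lf (ι.toLinearMap ∘ₗ antipode k)) hxy
  rwa [REGM.Lf_comp, REGM.Lf_comp, REGM.cv2, REGM.Lf_e0, REGM.Lf_e0] at this

include hS in
theorem Lf_oi_inj (ι : H →ₐ[k] Q) : Function.Injective (REGM.Lf (oi ι)) := by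
  intro x y hxy
  have := congrArg (REGM.Lf (oi ι ∘ₗ T hS)) hxy
  rwa [REGM.Lf_comp, REGM.Lf_comp, cvA, REGM.Lf_e0, REGM.Lf_e0] at this

include hS in
theorem Rf_oi_inj (ι : H →ₐ[k] Q) : Function.Injective (REGM.Rf (oi ι)) := by
  intro x y hxy
  have := congrArg (REGM.Rf (oi ι ∘ₗ T hS)) hxy
  rwa [REGM.Rf_comp, REGM.Rf_comp, cvB, REGM.Rf_e0, REGM.Rf_e0] at this

end antip

section main

variable {k : Type u} {H Z Q F2 R2 : Type v} [Field k] [Ring H] [IsDomain H] [HopfAlgebra k H]
    [Field Z] [Algebra k Z] [DivisionRing Q] [Algebra k Q] [Algebra Z Q] [IsScalarTower k Z Q]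
    [Field F2] [Algebra k F2] [Ring R2] [Algebra k R2] [Algebra F2 R2]
    {ι : H →ₐ[k] Q} {jF : Z ⊗[k] Z →ₐ[k] F2} {j : Q ⊗[k] Q →ₐ[k] R2} {D : Q →ₐ[k] R2}

/-- clearing central denominators on the right -/
theorem inj_of (hQ : IsCQ k H Z Q ι) (T : Q ⊗[k] Q →ₗ[k] R2)
    (hTr : ∀ z : H, Cent z → ∀ x : Q ⊗[k] Q, T x = 0 → T (x * (1 ⊗ₜ ι z)) = 0)
    (hT : ∀ v : Q ⊗[k] H, T (ι.toLinearMap.lTensor Q v) = 0 → v = 0) :
    Function.Injective T := by
  rw [injective_iff_map_eq_zero]
  intro x hx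
  obtain ⟨z, hz0, hz, v, hv⟩ := REGM.den_right hQ x
  have hz1 : ι z ≠ 0 := fun h => hz0 (hQ.inj (by rw [h, map_zero]))
  have h1 : x * (1 ⊗ₜ ι z) = ι.toLinearMap.lTensor Q v := by
    rw [← hv, REGM.cent_tmul' hQ hz]
  have h5 : v = 0 := hT v (by rw [← h1]; exact hTr z hz x hx)
  rw [h5, map_zero] at h1
  have h6 : x * (1 ⊗ₜ ι z) * (1 ⊗ₜ (ι z)⁻¹) = x := by
    rw [mul_assoc, Algebra.TensorProduct.tmul_mul_tmul, mul_one, mul_inv_cancel₀ hz1]
    exact mul_one x
  rw [← h6, h1, zero_mul]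

/-- `a ⊗ b ↦ j (1 ⊗ a) D b` -/
noncomputable def P2 (j : Q ⊗[k] Q →ₐ[k] R2) (D : Q →ₐ[k] R2) : Q ⊗[k] Q →ₗ[k] R2 :=
  TensorProduct.lift ((LinearMap.mul k R2).compl₁₂
    (j.comp (Algebra.TensorProduct.includeRight : Q →ₐ[k] Q ⊗[k] Q)).toLinearMap D.toLinearMap)

@[simp] theorem P2_tmul (j : Q ⊗[k] Q →ₐ[k] R2) (D : Q →ₐ[k] R2) (a b : Q) :
    P2 j D (a ⊗ₜ b) = j (1 ⊗ₜ a) * D b := rfl

/-- `a ⊗ b ↦ D b j (a ⊗ 1)` -/
noncomputable def P3 (j : Q ⊗[k] Q →ₐ[k] R2) (D : Q →ₐ[k] R2) : Q ⊗[k] Q →ₗ[k] R2 :=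
  TensorProduct.lift ((LinearMap.mul k R2).flip.compl₁₂
    (j.comp (Algebra.TensorProduct.includeLeft : Q →ₐ[k] Q ⊗[k] Q)).toLinearMap D.toLinearMap)

@[simp] theorem P3_tmul (j : Q ⊗[k] Q →ₐ[k] R2) (D : Q →ₐ[k] R2) (a b : Q) :
    P3 j D (a ⊗ₜ b) = D b * j (a ⊗ₜ 1) := rfl

/-- `a ⊗ b ↦ D b j (1 ⊗ a)` -/
noncomputable def P4 (j : Q ⊗[k] Q →ₐ[k] R2) (D : Q →ₐ[k] R2) : Q ⊗[k] Q →ₗ[k] R2 :=
  TensorProduct.lift ((LinearMap.mul k R2).flip.compl₁₂
    (j.comp (Algebra.TensorProduct.includeRight : Q →ₐ[k] Q ⊗[k] Q)).toLinearMap D.toLinearMap)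

@[simp] theorem P4_tmul (j : Q ⊗[k] Q →ₐ[k] R2) (D : Q →ₐ[k] R2) (a b : Q) :
    P4 j D (a ⊗ₜ b) = D b * j (1 ⊗ₜ a) := rfl

theorem P2_mul_right (x : Q ⊗[k] Q) (q : Q) : P2 j D (x * (1 ⊗ₜ q)) = P2 j D x * D q := by
  induction x using TensorProduct.induction_on with
  | zero => simp
  | add x y hx hy => rw [add_mul, map_add, map_add, hx, hy, add_mul]
  | tmul a b =>
    rw [Algebra.TensorProduct.tmul_mul_tmul, mul_one, P2_tmul, P2_tmul, map_mul, mul_assoc]

theorem P3_mul_left (x : Q ⊗[k] Q) (q : Q) : P3 j D ((1 ⊗ₜ q) * x) = D q * P3 j D x := by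
  induction x using TensorProduct.induction_on with
  | zero => simp
  | add x y hx hy => rw [mul_add, map_add, map_add, hx, hy, mul_add]
  | tmul a b =>
    rw [Algebra.TensorProduct.tmul_mul_tmul, one_mul, P3_tmul, P3_tmul, map_mul, mul_assoc]

theorem P4_mul_left (x : Q ⊗[k] Q) (q : Q) : P4 j D ((1 ⊗ₜ q) * x) = D q * P4 j D x := by
  induction x using TensorProduct.induction_on with
  | zero => simp
  | add x y hx hy => rw [mul_add, map_add, map_add, hx, hy, mul_add]
  | tmul a b =>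
    rw [Algebra.TensorProduct.tmul_mul_tmul, one_mul, P4_tmul, P4_tmul, map_mul, mul_assoc]

/-- `q ⊗ h ↦ h ⊗ op q` -/
noncomputable def sw : Q ⊗[k] H ≃ₗ[k] H ⊗[k] Qᵐᵒᵖ :=
  (TensorProduct.comm k Q H).trans (LinearEquiv.lTensor H (MulOpposite.opLinearEquiv k))

/-- `q ⊗ h ↦ op q ⊗ h` -/
noncomputable def sw' : Q ⊗[k] H ≃ₗ[k] Qᵐᵒᵖ ⊗[k] H :=
  LinearEquiv.rTensor H (MulOpposite.opLinearEquiv k)

/-- `h ⊗ op q ↦ h ⊗ q` -/
noncomputable def un : H ⊗[k] Qᵐᵒᵖ ≃ₗ[k] H ⊗[k] Q :=
  LinearEquiv.lTensor H (MulOpposite.opLinearEquiv k).symm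

/-- `op q ⊗ h ↦ q ⊗ h` -/
noncomputable def un' : Qᵐᵒᵖ ⊗[k] H ≃ₗ[k] Q ⊗[k] H :=
  LinearEquiv.rTensor H (MulOpposite.opLinearEquiv k).symm

variable (hD : ∀ h, D (ι h) = j (dQ ι h))

include hD in
theorem P2_eq (v : Q ⊗[k] H) : P2 j D (ι.toLinearMap.lTensor Q v)
    = j (ι.toLinearMap.rTensor Q (un (REGM.Lf (oi ι) (sw v)))) := by
  induction v using TensorProduct.induction_on with
  | zero => simp
  | add x y hx hy => simp only [map_add, hx, hy]
  | tmul q h =>
    have e1 : sw (k := k) (q ⊗ₜ[k] h) = h ⊗ₜ[k] MulOpposite.op q := rfl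
    rw [LinearMap.lTensor_tmul, P2_tmul, e1, REGM.Lf_tmul]
    show j (1 ⊗ₜ q) * D (ι h) = _
    rw [hD, ← map_mul]
    congr 1
    rw [dQ_apply]
    generalize comul (R := k) h = t
    induction t using TensorProduct.induction_on with
    | zero => simp
    | add x y hx hy =>
      rw [map_add, mul_add, hx, hy, map_add, add_mul, map_add, map_add]
    | tmul a b =>
      rw [TensorProduct.map_tmul, Algebra.TensorProduct.tmul_mul_tmul, one_mul,
        LinearMap.lTensor_tmul, Algebra.TensorProduct.tmul_mul_tmul, mul_one]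
      rfl

include hD in
theorem P3_eq (v : Q ⊗[k] H) : P3 j D (ι.toLinearMap.lTensor Q v)
    = j (ι.toLinearMap.lTensor Q (un' (REGM.Rf (oi ι) (sw' v)))) := by
  induction v using TensorProduct.induction_on with
  | zero => simp
  | add x y hx hy => simp only [map_add, hx, hy]
  | tmul q h =>
    have e1 : sw' (k := k) (q ⊗ₜ[k] h) = MulOpposite.op q ⊗ₜ[k] h := rfl
    rw [LinearMap.lTensor_tmul, P3_tmul, e1, REGM.Rf_tmul]
    show D (ι h) * j (q ⊗ₜ 1) = _
    rw [hD, ← map_mul]
    congr 1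
    rw [dQ_apply]
    generalize comul (R := k) h = t
    induction t using TensorProduct.induction_on with
    | zero => simp
    | add x y hx hy =>
      rw [map_add, add_mul, hx, hy, map_add, mul_add, map_add, map_add]
    | tmul a b =>
      rw [TensorProduct.map_tmul, Algebra.TensorProduct.tmul_mul_tmul, mul_one,
        LinearMap.rTensor_tmul, Algebra.TensorProduct.tmul_mul_tmul, one_mul]
      rfl

include hD in
theorem P4_eq (v : Q ⊗[k] H) : P4 j D (ι.toLinearMap.lTensor Q v)
    = j (ι.toLinearMap.rTensor Q (REGM.Lf ι.toLinearMap (TensorProduct.comm k Q H v))) := by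
  induction v using TensorProduct.induction_on with
  | zero => simp
  | add x y hx hy => simp only [map_add, hx, hy]
  | tmul q h =>
    rw [LinearMap.lTensor_tmul, P4_tmul, TensorProduct.comm_tmul, REGM.Lf_tmul]
    show D (ι h) * j (1 ⊗ₜ q) = _
    rw [hD, ← map_mul]
    congr 1
    rw [dQ_apply]
    generalize comul (R := k) h = t
    induction t using TensorProduct.induction_on with
    | zero => simp
    | add x y hx hy =>
      rw [map_add, add_mul, hx, hy, map_add, add_mul, map_add]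
    | tmul a b =>
      rw [TensorProduct.map_tmul, Algebra.TensorProduct.tmul_mul_tmul, mul_one,
        LinearMap.lTensor_tmul, Algebra.TensorProduct.tmul_mul_tmul, mul_one]
      rfl

end main

end MISM

open MISM in
theorem specMIS : SpecMIS.{u, v} := by
  intro k H Z Q F2 R2 _ _ _ _ _ _ _ _ _ _ _ _ _ _ _ _ ι jF j D hQ hR hS n a ha b
  have hD := hR.D_ι
  have hιr : Function.Injective (ι.toLinearMap.rTensor Q) :=
    Module.Flat.rTensor_preserves_injective_linearMap _ hQ.inj
  have hιl : Function.Injective (ι.toLinearMap.lTensor Q) :=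
    Module.Flat.lTensor_preserves_injective_linearMap _ hQ.inj
  have hcent : ∀ z : H, Cent z → ∀ q : Q, q * ι z = ι z * q := fun z hz q =>
    REGM.cent_image hQ hz q
  refine ⟨fun h => ?_, fun h => ?_, fun h => ?_, fun h => ?_⟩
  · refine indep ha b ?_
    apply Phi_injective hQ hR.frc hR.cl hD
    rw [map_sum, map_zero, ← h]
    rfl
  · refine indep ha b ?_
    have hinj : Function.Injective (P2 j D) := by
      refine inj_of hQ _ (fun z _ x hx => by rw [P2_mul_right, hx, zero_mul]) fun v hv => ?_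
      rw [P2_eq hD] at hv
      have h1 := hιr ((hR.cl.inj (by rw [hv, map_zero])).trans (map_zero _).symm)
      have h2 := Lf_oi_inj hS ι ((un.injective (h1.trans (map_zero _).symm)).trans
        (map_zero _).symm)
      exact sw.injective (h2.trans (map_zero _).symm)
    apply hinj
    rw [map_sum, map_zero, ← h]
    rfl
  · refine indep ha b ?_
    have hinj : Function.Injective (P3 j D) := by
      refine inj_of hQ _ (fun z hz x hx => by
        rw [REGM.cent_tmul' hQ hz, P3_mul_left, hx, mul_zero]) fun v hv => ?_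
      rw [P3_eq hD] at hv
      have h1 := hιl ((hR.cl.inj (by rw [hv, map_zero])).trans (map_zero _).symm)
      have h2 := Rf_oi_inj hS ι ((un'.injective (h1.trans (map_zero _).symm)).trans
        (map_zero _).symm)
      exact sw'.injective (h2.trans (map_zero _).symm)
    apply hinj
    rw [map_sum, map_zero, ← h]
    rfl
  · refine indep ha b ?_
    have hinj : Function.Injective (P4 j D) := by
      refine inj_of hQ _ (fun z hz x hx => by
        rw [REGM.cent_tmul' hQ hz, P4_mul_left, hx, mul_zero]) fun v hv => ?_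
      rw [P4_eq hD] at hv
      have h1 := hιr ((hR.cl.inj (by rw [hv, map_zero])).trans (map_zero _).symm)
      have h2 := Lf_inj ι (h1.trans (map_zero _).symm)
      exact (TensorProduct.comm k Q H).injective (h2.trans (map_zero _).symm)
    apply hinj
    rw [map_sum, map_zero, ← h]
    rfl

end Pool.Agent.Lib.MP_c37a72_al.LB
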