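import Pool.Agent.Lib.MP_c37a72_al.LB.Spec

/-!
# MP_c37a72_al, block LB: module R2S

`R2` is a simple ring of finite dimension over its centre `F2`.
-/

set_option autoImplicit false

open scoped TensorProduct
open Coalgebra HopfAlgebra

namespace Pool.Agent.Lib.MP_c37a72_al.LB

universe u v w

namespace R2SM

/-- a basis which contains `1` -/
theorem exists_basis (Z Q : Type*) [Field Z] [DivisionRing Q] [Algebra Z Q] [Module.Finite Z Q] :
    ∃ (n : ℕ) (b : Module.Basis (Fin n) Z Q) (i0 : Fin n), b i0 = 1 := by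
  classical
  have h1 : LinearIndepOn Z id ({1} : Set Q) := by
    rw [linearIndepOn_singleton_iff]
    exact one_ne_zero
  let b := Module.Basis.extend h1
  have : Fintype (h1.extend (Set.subset_univ _)) := FiniteDimensional.fintypeBasisIndex b
  let e := Fintype.equivFin (h1.extend (Set.subset_univ _))
  refine ⟨_, b.reindex e, e ⟨1, h1.subset_extend _ (Set.mem_singleton _)⟩, ?_⟩
  rw [Module.Basis.reindex_apply, Equiv.symm_apply_apply, Module.Basis.extend_apply_self]

variable {F R : Type*} [Field F] [Ring R] [Algebra F R]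

/-- the operator `x ↦ ∑ a_l x b_l` -/
noncomputable def op {m : ℕ} (a b : Fin m → R) : R →ₗ[F] R :=
  ∑ l, (LinearMap.mulRight F (b l)).comp (LinearMap.mulLeft F (a l))

theorem op_apply {m : ℕ} (a b : Fin m → R) (x : R) : op (F := F) a b x = ∑ l, a l * x * b l := by
  unfold op
  rw [LinearMap.sum_apply]
  rfl

/-- two-sided ideals are stable under the operators -/
theorem op_mem {m : ℕ} (a b : Fin m → R) (I : TwoSidedIdeal R) {x : R} (hx : x ∈ I) :
    op (F := F) a b x ∈ I := by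
  rw [op_apply]
  refine sum_mem fun l _ => ?_
  exact I.mul_mem_right _ _ (I.mul_mem_left _ _ hx)

/-- an algebra with operators which compute the coordinates -/
theorem simple_of_coord {J : Type*} (B : Module.Basis J F R) (i0 : J)
    (h : ∀ i : J, ∃ L : R →ₗ[F] R, (∀ r, L r = algebraMap F R (B.repr r i)) ∧
      ∀ (I : TwoSidedIdeal R) (x : R), x ∈ I → L x ∈ I) : IsSimpleRing R := by
  have hnt : Nontrivial R := ⟨⟨B i0, 0, B.ne_zero i0⟩⟩
  refine ⟨⟨fun I => ?_⟩⟩
  by_cases hI : I = ⊥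
  · exact Or.inl hI
  · right
    have h1 : ∃ x ∈ I, x ≠ 0 := by
      by_contra h2
      push Not at h2
      apply hI
      ext x
      rw [TwoSidedIdeal.mem_bot]
      constructor
      · intro hx
        exact h2 x hx
      · rintro rfl
        exact I.zero_mem
    obtain ⟨x, hx, hx0⟩ := h1
    have h2 : ∃ i, B.repr x i ≠ 0 := by
      by_contra h3
      push Not at h3
      apply hx0
      apply B.repr.injective
      ext i
      rw [h3 i, map_zero]
      rfl
    obtain ⟨i, hi⟩ := h2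
    obtain ⟨L, hL, hLI⟩ := h i
    have h3 : algebraMap F R (B.repr x i) ∈ I := by
      rw [← hL]
      exact hLI I x hx
    rw [← TwoSidedIdeal.one_mem_iff]
    have h4 := I.mul_mem_left (algebraMap F R (B.repr x i)⁻¹) _ h3
    rwa [← map_mul, inv_mul_cancel₀ hi, map_one] at h4

end R2SM

theorem specR2S (hJD : SpecJD.{v}) : SpecR2S.{u, v} := by
  classical
  intro k H Z Q F2 R2 _ _ _ _ _ _ _ _ _ _ _ _ _ _ _ _ ι jF j D hQ hR
  have hfin := hQ.fin
  have hF := hR.frc
  have h2 := hR.cl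
  obtain ⟨n, b, i0, hb0⟩ := R2SM.exists_basis Z Q
  have hop : ∀ i : Fin n, ∃ (m : ℕ) (a c : Fin m → Q),
      ∀ i', ∑ l, a l * b i' * c l = if i' = i then 1 else 0 := fun i =>
    hJD Z Q hQ.cent n b b.linearIndependent i
  let B : Module.Basis (Fin n × Fin n) F2 R2 :=
    Module.Basis.mk (h2.ind_iZ hF b b) (h2.span_iZ hF b b).ge
  have hB : ∀ p : Fin n × Fin n, B p = j (b p.1 ⊗ₜ b p.2) := fun p =>
    Module.Basis.mk_apply _ _ p
  -- the operators
  have hΘ : ∀ (i : Fin n × Fin n), ∃ (m m' : ℕ) (a c : Fin m → Q) (a' c' : Fin m' → Q),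
      (∀ i', ∑ l, a l * b i' * c l = if i' = i.1 then 1 else 0) ∧
      (∀ i', ∑ l, a' l * b i' * c' l = if i' = i.2 then 1 else 0) ∧
      ∀ r, R2SM.op (F := F2) (fun l => j ((1 : Q) ⊗ₜ a' l)) (fun l => j ((1 : Q) ⊗ₜ c' l))
        (R2SM.op (F := F2) (fun l => j (a l ⊗ₜ (1 : Q))) (fun l => j (c l ⊗ₜ (1 : Q))) r) =
        algebraMap F2 R2 (B.repr r i) := by
    intro i
    obtain ⟨m, a, c, hac⟩ := hop i.1
    obtain ⟨m', a', c', hac'⟩ := hop i.2
    refine ⟨m, m', a, c, a', c', hac, hac', fun r => ?_⟩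
    have key : (R2SM.op (F := F2) (fun l => j ((1 : Q) ⊗ₜ a' l)) (fun l => j ((1 : Q) ⊗ₜ c' l))).comp
        (R2SM.op (F := F2) (fun l => j (a l ⊗ₜ (1 : Q))) (fun l => j (c l ⊗ₜ (1 : Q)))) =
        (Algebra.linearMap F2 R2).comp (B.coord i) := by
      refine B.ext fun p => ?_
      rw [LinearMap.comp_apply, LinearMap.comp_apply, Module.Basis.coord_apply,
        Module.Basis.repr_self, Algebra.linearMap_apply, hB, R2SM.op_apply, R2SM.op_apply]
      have h1 : ∑ l, j (a l ⊗ₜ (1 : Q)) * j (b p.1 ⊗ₜ b p.2) * j (c l ⊗ₜ (1 : Q)) =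
          j ((if p.1 = i.1 then (1 : Q) else 0) ⊗ₜ b p.2) := by
        rw [← hac, TensorProduct.sum_tmul, map_sum]
        refine Finset.sum_congr rfl fun l _ => ?_
        rw [← map_mul, ← map_mul, Algebra.TensorProduct.tmul_mul_tmul,
          Algebra.TensorProduct.tmul_mul_tmul, one_mul, mul_one]
      rw [h1]
      have h3 : ∑ l, j ((1 : Q) ⊗ₜ a' l) * j ((if p.1 = i.1 then (1 : Q) else 0) ⊗ₜ b p.2) *
          j ((1 : Q) ⊗ₜ c' l) =
          j ((if p.1 = i.1 then (1 : Q) else 0) ⊗ₜ (if p.2 = i.2 then (1 : Q) else 0)) := by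
        rw [← hac', TensorProduct.tmul_sum, map_sum]
        refine Finset.sum_congr rfl fun l _ => ?_
        rw [← map_mul, ← map_mul, Algebra.TensorProduct.tmul_mul_tmul,
          Algebra.TensorProduct.tmul_mul_tmul, one_mul, mul_one]
      rw [h3]
      by_cases hp : p = i
      · subst hp
        rw [if_pos rfl, if_pos rfl, Finsupp.single_eq_same, map_one]
        exact map_one j
      · rw [Finsupp.single_eq_of_ne (Ne.symm hp), map_zero]
        by_cases hp1 : p.1 = i.1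
        · have hp2 : p.2 ≠ i.2 := fun hp2 => hp (Prod.ext hp1 hp2)
          rw [if_neg hp2, TensorProduct.tmul_zero, map_zero]
        · rw [if_neg hp1, TensorProduct.zero_tmul, map_zero]
    exact LinearMap.congr_fun key r
  refine ⟨h2.finite_iZ hF, ?_, ?_⟩
  · refine R2SM.simple_of_coord B (i0, i0) fun i => ?_
    obtain ⟨m, m', a, c, a', c', -, -, h⟩ := hΘ i
    exact ⟨(R2SM.op (F := F2) (fun l => j ((1 : Q) ⊗ₜ a' l)) (fun l => j ((1 : Q) ⊗ₜ c' l))).comp
      (R2SM.op (F := F2) (fun l => j (a l ⊗ₜ (1 : Q))) (fun l => j (c l ⊗ₜ (1 : Q)))), h,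
      fun I x hx => R2SM.op_mem _ _ I (R2SM.op_mem _ _ I hx)⟩
  · intro c₀ hc₀
    obtain ⟨m, m', a, c, a', c', hac, hac', h⟩ := hΘ (i0, i0)
    refine ⟨B.repr c₀ (i0, i0), ?_⟩
    rw [← h, R2SM.op_apply, R2SM.op_apply]
    have h1 : ∑ l, j (a l ⊗ₜ (1 : Q)) * c₀ * j (c l ⊗ₜ (1 : Q)) = c₀ := by
      have h3 : ∀ l, j (a l ⊗ₜ (1 : Q)) * c₀ * j (c l ⊗ₜ (1 : Q)) =
          c₀ * j ((a l * b i0 * c l) ⊗ₜ (1 : Q)) := by
        intro l
        rw [hc₀, mul_assoc, ← map_mul, Algebra.TensorProduct.tmul_mul_tmul, hb0, mul_one, mul_one]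
      rw [Finset.sum_congr rfl fun l _ => h3 l, ← Finset.mul_sum, ← map_sum,
        ← TensorProduct.sum_tmul, hac i0, if_pos rfl]
      have h4 : j ((1 : Q) ⊗ₜ (1 : Q)) = 1 := map_one j
      rw [h4, mul_one]
    rw [h1]
    have h3 : ∀ l, j ((1 : Q) ⊗ₜ a' l) * c₀ * j ((1 : Q) ⊗ₜ c' l) =
        c₀ * j ((1 : Q) ⊗ₜ (a' l * b i0 * c' l)) := by
      intro l
      rw [hc₀, mul_assoc, ← map_mul, Algebra.TensorProduct.tmul_mul_tmul, hb0, mul_one, mul_one]
    rw [Finset.sum_congr rfl fun l _ => h3 l, ← Finset.mul_sum, ← map_sum,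
      ← TensorProduct.tmul_sum, hac' i0, if_pos rfl]
    have h4 : j ((1 : Q) ⊗ₜ (1 : Q)) = 1 := map_one j
    rw [h4, mul_one]

end Pool.Agent.Lib.MP_c37a72_al.LB
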