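import Pool.Agent.Lib.MP_c37a72_al.LB.RTL

/-!
# RTR: the matrix of `1 ⊗ E` and the relation `RelT`, right
-/

set_option autoImplicit false
set_option linter.unusedSectionVars false

open scoped TensorProduct
open Coalgebra HopfAlgebra

namespace Pool.Agent.Lib.MP_c37a72_al.LB

universe u v w

namespace RTRM

section

variable {k : Type u} (Z : Type v) {H Q : Type v} [Field k] [Ring H] [IsDomain H] [HopfAlgebra k H]
  [Field Z] [Algebra k Z] [DivisionRing Q] [Algebra k Q] [Algebra Z Q] [IsScalarTower k Z Q]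
  (ι : H →ₐ[k] Q) (hS : Function.Bijective (antipode k (A := H)))

/-- the inverse of the antipode -/
noncomputable def inv : H →ₗ[k] H :=
  (LinearEquiv.ofBijective (antipode k (A := H)) hS).symm.toLinearMap

theorem S_inv (x : H) : antipode k (inv hS x) = x :=
  (LinearEquiv.ofBijective (antipode k (A := H)) hS).apply_symm_apply x

/-- `h ↦ a ◁ S⁻¹(h)` -/
noncomputable def ad (a : Q) : H →ₗ[k] Q where
  toFun h := EG.adrQ k Z ι (inv hS h) a
  map_add' g h := by rw [map_add, map_add, LinearMap.add_apply]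
  map_smul' c h := by rw [map_smul, map_smul, LinearMap.smul_apply, RingHom.id_apply]

@[simp] theorem ad_apply (a : Q) (h : H) :
    ad Z ι hS a h = EG.adrQ k Z ι (inv hS h) a := rfl

/-- `u ⊗ p ↦ (1 ⊗ (a ◁ S⁻¹(p))) ι(u)` -/
noncomputable def A (a : Q) : (H ⊗[k] H) ⊗[k] H →ₗ[k] Q ⊗[k] Q :=
  LinearMap.mul' k (Q ⊗[k] Q) ∘ₗ TensorProduct.map
    (TensorProduct.mk k Q Q 1 ∘ₗ ad Z ι hS a)
    (TensorProduct.map ι.toLinearMap ι.toLinearMap) ∘ₗ
    (TensorProduct.comm k (H ⊗[k] H) H).toLinearMap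

@[simp] theorem A_tmul (a : Q) (p : H) (u : H ⊗[k] H) :
    A Z ι hS a (u ⊗ₜ[k] p) =
      (1 ⊗ₜ[k] EG.adrQ k Z ι (inv hS p) a) *
        TensorProduct.map ι.toLinearMap ι.toLinearMap u := by
  simp [A]

/-- `p ⊗ q ↦ (a ◁ S⁻¹(q)) ι(p)` -/
noncomputable def B (a : Q) : H ⊗[k] H →ₗ[k] Q :=
  LinearMap.mul' k Q ∘ₗ TensorProduct.map (ad Z ι hS a) ι.toLinearMap ∘ₗ
    (TensorProduct.comm k H H).toLinearMap

@[simp] theorem B_tmul (a : Q) (p q : H) :
    B Z ι hS a (p ⊗ₜ[k] q) = EG.adrQ k Z ι (inv hS q) a * ι p := by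
  simp [B]

theorem B_comul (hADB : EG.SpecADB.{u, v}) (a : Q) (x : H) :
    B Z ι hS a (comul (R := k) x) = ι x * a := by
  obtain ⟨n, p, q, e⟩ := RTLM.exists_fin_repr (k := k) x
  rw [e, map_sum, (hADB k H Z Q ι x n p q e a).2.2.2.2 hS (fun i => inv hS (q i))
    (fun i => S_inv hS (q i))]
  exact Finset.sum_congr rfl fun i _ => B_tmul Z ι hS a _ _

/-- `Δ(h)(1 ⊗ a) = (1 ⊗ (a ◁ S⁻¹(h₂))) Δ(h₁)` -/
theorem dQ_mul (hADB : EG.SpecADB.{u, v}) (a : Q) (h : H) {n : ℕ} (x y : Fin n → H)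
    (e : comul (R := k) h = ∑ i, x i ⊗ₜ[k] y i) :
    dQ ι h * (1 ⊗ₜ[k] a) =
      ∑ i, (1 ⊗ₜ[k] EG.adrQ k Z ι (inv hS (y i)) a) * dQ ι (x i) := by
  have h1 : ∑ i, ((1 : Q) ⊗ₜ[k] EG.adrQ k Z ι (inv hS (y i)) a) * dQ ι (x i) =
      A Z ι hS a ((comul (R := k) (A := H)).rTensor H (comul (R := k) h)) := by
    rw [e, map_sum, map_sum]
    refine Finset.sum_congr rfl fun i _ => ?_
    rw [LinearMap.rTensor_tmul, A_tmul, dQ_apply]
  rw [h1, ← Coalgebra.coassoc_symm_apply, e, map_sum, map_sum, map_sum]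
  have h2 : ∀ (u : H ⊗[k] H) (y : H),
      A Z ι hS a ((TensorProduct.assoc k H H H).symm (y ⊗ₜ[k] u)) =
      ι y ⊗ₜ[k] B Z ι hS a u := by
    intro u y
    induction u with
    | zero => simp
    | add u v hu hv =>
      rw [TensorProduct.tmul_add, map_add, map_add, hu, hv, map_add, TensorProduct.tmul_add]
    | tmul p q =>
      rw [TensorProduct.assoc_symm_tmul, A_tmul, TensorProduct.map_tmul,
        Algebra.TensorProduct.tmul_mul_tmul, one_mul, B_tmul]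
      rfl
  have h3 : dQ ι h = ∑ i, ι (x i) ⊗ₜ[k] ι (y i) := by
    rw [dQ_apply, e, map_sum]
    rfl
  rw [h3, Finset.sum_mul]
  refine Finset.sum_congr rfl fun i _ => ?_
  rw [LinearMap.lTensor_tmul, h2, B_comul Z ι hS hADB, Algebra.TensorProduct.tmul_mul_tmul,
    mul_one]

end

end RTRM

/-- **RTR**. -/
theorem specRTR (hADB : EG.SpecADB.{u, v}) (hMIS : SpecMIS.{u, v}) : SpecRTR.{u, v} := by
  intro k H Z Q F2 R2 _ _ _ _ _ _ _ _ _ _ _ _ _ _ _ _ ι jF j D hQ hR hS n f T hT e he hf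
  have h0 : ∀ h i, D (ι h) * j (1 ⊗ₜ e i) = ∑ l, j (1 ⊗ₜ e l) * D (T (ι h) l i) := by
    intro h i
    obtain ⟨m, x, y, hxy⟩ := RTLM.exists_fin_repr (k := k) h
    rw [hR.D_ι, ← map_mul, RTRM.dQ_mul Z ι hS hADB (e i) h x y hxy, map_sum]
    have h1 : ∀ s, j ((1 ⊗ₜ[k] EG.adrQ k Z ι (RTRM.inv hS (y s)) (e i)) * dQ ι (x s)) =
        ∑ l, j (1 ⊗ₜ e l) * D (f (y s) l i • ι (x s)) := by
      intro s
      rw [hf, RTRM.S_inv, map_mul, ← hR.D_ι, TensorProduct.tmul_sum, map_sum, Finset.sum_mul]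
      refine Finset.sum_congr rfl fun l _ => ?_
      rw [TensorProduct.tmul_smul, map_smul, map_smul, smul_mul_assoc, mul_smul_comm]
    simp only [h1]
    rw [Finset.sum_comm]
    refine Finset.sum_congr rfl fun l _ => ?_
    rw [hT.eq h m x y hxy l i, map_sum, Finset.mul_sum]
  have h1 := RTLM.rule Z ι hQ D (fun i => j ((1 : Q) ⊗ₜ[k] e i)) T h0
  refine ⟨h1, ?_⟩
  intro Ω _ _ z x
  have h2 := RTLM.equiv Z D (fun i => j ((1 : Q) ⊗ₜ[k] e i)) T h1
    (fun b hb => (hMIS k H Z Q F2 R2 ι jF j D hQ hR hS n e he b).2.1 hb) z x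
  rw [h2]
  have h3 : embR j (Submodule.span k (Set.range e)) =
      Submodule.span k (Set.range fun i => j ((1 : Q) ⊗ₜ[k] e i)) := by
    unfold embR
    rw [Submodule.map_span, ← Set.range_comp]
    rfl
  rw [h3]

end Pool.Agent.Lib.MP_c37a72_al.LB
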