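import Pool.Agent.Lib.MP_c37a72_al.LB.Base

/-!
# MP_c37a72_al, block LB (labels): classes, the key lemma, products and labels

Text: `/team-store/MP_c37a72_labels.md`, sections 0 and (1.1) - (1.3), in commutative-algebra form.
Module `XXX` is the file `Pool/Agent/Lib/MP_c37a72_al/LB/XXX.lean`, which imports
`Pool.Agent.Lib.MP_c37a72_al.LB.Spec`, with `theorem specXXX (hYYY : SpecYYY) .. : SpecXXX`; every Spec of
this file and of `EG/Spec.lean`, `SpecH.lean` may be taken as a hypothesis; own lemmas in the namespace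
`Pool.Agent.Lib.MP_c37a72_al.LB.XXXM`.

Notation: `Δ h = h₁ ⊗ h₂`, `S` the antipode (bijective), `h ▷ q = adlQ h q = h₁ q S(h₂)`,
`q ◁ h = adrQ h q = S(h₁) q h₂`. In `R2`: `q ⊗ q'` is `j (q ⊗ q')`, `D(q)` the coproduct;
`F2` is central in `R2`. `[Z : ..]`: `z ∈ Z` is written for `algebraMap Z Q z`. Useful from `DR2.lean`:
`IsCL.finite_iZ, span_iZ, ind_iZ, left_regular, isUnit_of_left_regular, exists_jZ, isFrc_jZ, isCL_H,
Phi_injective, Phi_surj`; from `CL.lean`: `IsCL.exists_lift, hom_ext, common, exists_CL`,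
`IsFrc.exists_lift`.
-/

set_option autoImplicit false

open scoped TensorProduct
open Coalgebra HopfAlgebra

namespace Pool.Agent.Lib.MP_c37a72_al.LB

universe u v w

section Defs

variable {k : Type u} {Q F2 R2 : Type v} [Field k] [DivisionRing Q] [Algebra k Q] [Field F2]
  [Ring R2] [Algebra k R2] [Algebra F2 R2]

/-- `D(Q) · W`, the `k`-span of the `D(q) w`. -/
noncomputable def DW (D : Q →ₐ[k] R2) (W : Submodule k R2) : Submodule k R2 :=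
  Submodule.span k {r | ∃ w ∈ W, ∃ q : Q, r = D q * w}

/-- `W` is finite-dimensional and `W · D(Q) = D(Q) · W`. -/
structure Bif (D : Q →ₐ[k] R2) (W : Submodule k R2) : Prop where
  fin : Module.Finite k W
  eq : WD D W = DW D W

/-- `M ⊆ R2` is a simple ring which contains `D(Q)`, `K` is the centre of `M`. -/
structure IsMK (D : Q →ₐ[k] R2) (M K : Subalgebra F2 R2) : Prop where
  simple : IsSimpleRing M
  fieldK : IsField K
  le : K ≤ M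
  comm : ∀ c ∈ K, ∀ m ∈ M, c * m = m * c
  centre : ∀ c ∈ M, (∀ m ∈ M, m * c = c * m) → c ∈ K
  D_mem : ∀ q, D q ∈ M

end Defs

/-- **JD** (150 lines). Density for a simple ring `S` with centre `K` (a field): independent elements are
separated by operators `x ↦ ∑ a_l x b_l`.

PROOF. Operators: the additive maps `θ = ∑ L_{a_l} R_{b_l}`; they form a ring, closed under left
multiplication by `L_a`. Induction on `n`. `n = 1`: the two-sided ideal generated by `s_0 ≠ 0` is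
everything, so some operator maps `s_0` to `1`. Step: let `i0` be given, `I = {i ≠ i0}`. By induction there
are operators `θ_i`, `i ∈ I`, with `θ_i(s_{i'}) = δ` for `i, i' ∈ I`. Suppose every operator which kills all
`s_i`, `i ∈ I`, kills `s_{i0}`. For an operator `θ`, `θ - ∑_{i ∈ I} L_{θ(s_i)} θ_i` kills the `s_i`, so
`θ(s_{i0}) = ∑_{i ∈ I} θ(s_i) c_i`, `c_i := θ_i(s_{i0})`. Apply this to `θ` and to `R_b θ`:
`∑ θ(s_i)(b c_i - c_i b) = 0`; with `θ = θ_i`: `b c_i = c_i b` for all `b`, so `c_i ∈ K`. `θ = id`: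
`s_{i0} = ∑ s_i c_i`, contradiction. So some operator `θ` kills the `s_i`, `i ∈ I`, and
`θ(s_{i0}) ≠ 0`; compose with an operator which maps `θ(s_{i0})` to `1`. (Compare `AWL.lean`.) -/
def SpecJD : Prop :=
  ∀ (K S : Type v) [Field K] [Ring S] [Algebra K S] [IsSimpleRing S],
    (∀ c : S, (∀ x : S, x * c = c * x) → ∃ a : K, algebraMap K S a = c) →
    ∀ (n : ℕ) (s : Fin n → S), LinearIndependent K s → ∀ i0 : Fin n,
      ∃ (m : ℕ) (a b : Fin m → S), ∀ i, ∑ l, a l * s i * b l = if i = i0 then 1 else 0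

/-- **EXT** (80 lines). Homomorphisms to an algebraically closed field extend along integral extensions of
commutative rings.

PROOF. `P = ker φ` is prime; lying over (`Ideal.exists_ideal_over_prime_of_isIntegral` or its variants):
a prime `P'` of `B` with `P' ∩ A = P`. `A / P → B / P'` is injective and integral, `B / P'` a domain,
`A / P → Ω` injective: `IsAlgClosed.lift`. -/
def SpecEXT : Prop :=
  ∀ (k : Type u) (A B Ω : Type v) [Field k] [CommRing A] [Algebra k A] [CommRing B] [Algebra k B]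
    [Algebra A B] [IsScalarTower k A B] [Field Ω] [IsAlgClosed Ω] [Algebra k Ω],
    Algebra.IsIntegral A B → Function.Injective (algebraMap A B) → ∀ φ : A →ₐ[k] Ω,
    ∃ ψ : B →ₐ[k] Ω, ∀ a, ψ (algebraMap A B a) = φ a

/-- **KEX** (150 lines). Extension of points, in the language of `Kill`.

PROOF (EXT). The range of `mu k p q` is a commutative subalgebra `P0` of `R`, and `Kill k p q f g` gives
`φ : P0 → Ω` with `φ (p a * q b) = f a * g b`. `P := ` the `k`-span of the `p a * q b * r c` is a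
commutative subalgebra. It is integral over `P0`: `R` is finite over `F`, so every element of `R` is a root
of a monic polynomial over `F`, and `F ⊆ P0`. By EXT `φ` extends to `ψ : P → Ω`; `h c := ψ (r c)`. If
`∑ p a_i * r c_i = 0` then `∑ f a_i * h c_i = ψ (∑ p a_i * r c_i) = 0`, the same for `q`. -/
def SpecKEX : Prop :=
  ∀ (k : Type u) (F R A B C Ω : Type v) [Field k] [Field F] [Algebra k F] [Ring R] [Algebra k R]
    [Algebra F R] [IsScalarTower k F R] [Module.Finite F R] [CommRing A] [Algebra k A] [CommRing B]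
    [Algebra k B] [CommRing C] [Algebra k C] [Field Ω] [IsAlgClosed Ω] [Algebra k Ω]
    (p : A →ₐ[k] R) (q : B →ₐ[k] R) (r : C →ₐ[k] R) (f : A →ₐ[k] Ω) (g : B →ₐ[k] Ω),
    (∀ x : F, ∃ a, p a = algebraMap F R x) → (∀ a b, p a * q b = q b * p a) →
    (∀ a c, p a * r c = r c * p a) → (∀ b c, q b * r c = r c * q b) → Kill k p q f g →
    ∃ h : C →ₐ[k] Ω, Kill k p r f h ∧ Kill k q r g h

/-- **R2X** (100 lines). Existence of `F2`, `R2`, `j`, `D`.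

PROOF. `Z ⊗ Z` is a domain (`noZeroDivisors_tensor`, Gauss.lean, `k` algebraically closed);
`F2 = FractionRing (Z ⊗ Z)` with its `k`-structure, `jF` (`IsFrc jF`); `R2`, `j`: `exists_CL` for
`ι := iZ k Z Z Q Q` (`iZ_cent`, `iZ_torsion_free`); `D`: `exists_D` of `DR2.lean`. -/
def SpecR2X : Prop :=
  ∀ (k : Type u) (H Z Q : Type v) [Field k] [IsAlgClosed k] [Ring H] [IsDomain H] [HopfAlgebra k H]
    [Field Z] [Algebra k Z] [DivisionRing Q] [Algebra k Q] [Algebra Z Q] [IsScalarTower k Z Q]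
    (ι : H →ₐ[k] Q), IsCQ k H Z Q ι →
    ∃ (F2 : Type v) (_ : Field F2) (_ : Algebra k F2) (R2 : Type v) (_ : Ring R2)
      (_ : Algebra k R2) (_ : Algebra F2 R2) (_ : IsScalarTower k F2 R2)
      (jF : Z ⊗[k] Z →ₐ[k] F2) (j : Q ⊗[k] Q →ₐ[k] R2) (D : Q →ₐ[k] R2), IsR2 ι jF j D

/-- **E0X** (150 lines). Existence of `E_0` and `E_r`.

PROOF. `E_0`: the span of the `W` of `EG.SpecWEX` and `1` (`h ▷ 1 = ε(h)`, `EG.SpecADA`). `E_r`: the same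
proof on the right: a `Z`-basis `b_1, .., b_s` of `O_r`, `E_r = k 1 + ∑ span_k {b_l ◁ h}`
(`EG.SpecOLF`, `EG.SpecADA`: `(b ◁ h) ◁ g = b ◁ (h g)`). -/
def SpecE0X : Prop :=
  ∀ (k : Type u) (H Z Q : Type v) [Field k] [Ring H] [HopfAlgebra k H] [Field Z] [Algebra k Z]
    [DivisionRing Q] [Algebra k Q] [Algebra Z Q] [IsScalarTower k Z Q] (ι : H →ₐ[k] Q),
    IsCQ k H Z Q ι → ∃ El Er : Submodule k Q, IsEl Z ι El ∧ IsEr Z ι Er

/-- **R2S** (250 lines). `R2` is a simple ring of finite dimension over its centre `F2`.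

PROOF. Finite: `IsCL.finite_iZ`. `Q` is simple with centre `Z` (`IsCQ.cent`). Let `e_i` be a `Z`-basis of `Q`
with `e_0 = 1`; `j(e_i ⊗ e_l)` is an `F2`-basis of `R2` (`ind_iZ`, `span_iZ`). By JD for `Q` there are
operators `θ_i = ∑ a x b` on `Q` with `θ_i(e_l) = δ_il`; the operators
`Θ_i = ∑ (a ⊗ 1) · (b ⊗ 1)`, `Θ'_l = ∑ (1 ⊗ a) · (1 ⊗ b)` of `R2` are `F2`-linear and
`Θ_i(j(e_m ⊗ e_n)) = δ_im j(1 ⊗ e_n)` (`θ_i` is `Z`-linear), `Θ'_l Θ_i` maps `r = ∑ f_il j(e_i ⊗ e_l)` to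
`f_il`. Simple: a two-sided ideal is stable under all these operators, and `f_il ≠ 0` is a unit. Centre:
let `r` be central. `Θ_i(r) = (∑ a b ⊗ 1) r = (θ_i(1) ⊗ 1) r = 0` for `i ≠ 0`, so `f_il = 0` for
`i ≠ 0`; the same with `Θ'_l`: `r = f_00`. -/
def SpecR2S : Prop :=
  ∀ (k : Type u) (H Z Q F2 R2 : Type v) [Field k] [Ring H] [IsDomain H] [HopfAlgebra k H]
    [Field Z] [Algebra k Z] [DivisionRing Q] [Algebra k Q] [Algebra Z Q] [IsScalarTower k Z Q]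
    [Field F2] [Algebra k F2] [Ring R2] [Algebra k R2] [Algebra F2 R2] [IsScalarTower k F2 R2]
    (ι : H →ₐ[k] Q) (jF : Z ⊗[k] Z →ₐ[k] F2) (j : Q ⊗[k] Q →ₐ[k] R2) (D : Q →ₐ[k] R2),
    IsCQ k H Z Q ι → IsR2 ι jF j D →
    Module.Finite F2 R2 ∧ IsSimpleRing R2 ∧
      ∀ c : R2, (∀ x : R2, x * c = c * x) → ∃ a : F2, algebraMap F2 R2 a = c

/-- **DCT** (300 lines). Double centraliser for a subfield `K` of a central simple algebra: `C = C_R(K)` is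
simple with centre `K`.

PROOF. Let `e_m` be an `F`-basis of `R`, `e_0 = 1`. (1) If `∑ a_m x e_m = 0` for all `x ∈ R` then all
`a_m = 0` (JD: replace `x` by `u_l` and multiply by `v_l` on the right, with `∑ u_l e_m v_l = δ_{m m0}`).
(2) Every `F`-linear map `φ : R → R` is `x ↦ ∑ φ_m x e_m` for unique `φ_m ∈ R`: by JD there are
`θ_i = ∑ L_a R_b` with `θ_i(e_l) = δ_il`, `φ = ∑ L_{φ(e_i)} θ_i`; expand the `b` in the basis. (3) `R` is a
left `K`-space; `φ` is `K`-linear iff all `φ_m ∈ C` (`φ(c x) = c φ(x)` means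
`∑ (φ_m c - c φ_m) x e_m = 0`, (1)). (4) Centre: let `c ∈ C` commute with `C`. For `K`-linear `φ`,
`φ(c) = ∑ φ_m c e_m = c φ(1)`. If `c ∉ K` then `1, c` are `K`-independent, there is a `K`-linear `φ` with
`φ(1) = 0`, `φ(c) = 1`, a contradiction. (5) Simple: let `0 ≠ y ∈ J`, `J` a two-sided ideal of `C`.
The set of the maps `x ↦ ∑ y_m x e_m`, `y_m ∈ J`, is stable under composition with `K`-linear maps on both
sides (expand `e_m e_n` over `F`). Let `u_i` be a `K`-basis of `R` with coordinates `x_i`; `α_i` a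
`K`-linear map with `α_i(y) = u_i`, `β_i(x) = x_i(x) · 1`; `α_i L_y β_i (x) = α_i(y x_i(x))
= x_i(x) u_i` (`y` commutes with `K`). Sum over `i`: the identity is `x ↦ ∑ y_m x e_m` with `y_m ∈ J`; by
(1) `y_0 = 1`. (`C` is nontrivial since `R` is.) -/
def SpecDCT : Prop :=
  ∀ (F R : Type v) [Field F] [Ring R] [Algebra F R] [Module.Finite F R] [IsSimpleRing R],
    (∀ c : R, (∀ x : R, x * c = c * x) → ∃ a : F, algebraMap F R a = c) →
    ∀ K : Subalgebra F R, IsField K →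
      IsSimpleRing (Subalgebra.centralizer F (K : Set R)) ∧
      ∀ c ∈ Subalgebra.centralizer F (K : Set R),
        (∀ m ∈ Subalgebra.centralizer F (K : Set R), m * c = c * m) → c ∈ K

/-- **MK** (80 lines). `M2` is simple with centre `K2` (under the input from constancy).

PROOF. `M2 ≤ C(K2)` always, so `C(K2) = M2`; DCT with R2S. `K2` is commutative, so `K2 ≤ C(K2) = M2`. The
rest is the definition of `K2` and `M2`. -/
def SpecMK : Prop :=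
  ∀ (k : Type u) (H Z Q F2 R2 : Type v) [Field k] [Ring H] [IsDomain H] [HopfAlgebra k H]
    [Field Z] [Algebra k Z] [DivisionRing Q] [Algebra k Q] [Algebra Z Q] [IsScalarTower k Z Q]
    [Field F2] [Algebra k F2] [Ring R2] [Algebra k R2] [Algebra F2 R2] [IsScalarTower k F2 R2]
    (ι : H →ₐ[k] Q) (jF : Z ⊗[k] Z →ₐ[k] F2) (j : Q ⊗[k] Q →ₐ[k] R2) (D : Q →ₐ[k] R2),
    IsCQ k H Z Q ι → IsR2 ι jF j D →
    IsField (K2 Z F2 ι j D) →
    (∀ c : R2, (∀ x ∈ K2 Z F2 ι j D, x * c = c * x) → c ∈ M2 Z F2 ι j D) →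
    IsMK D (M2 Z F2 ι j D) (K2 Z F2 ι j D)

/-- **MIS** (150 lines). Mirror of `Phi_injective`: `a ⊗ b ↦ (1 ⊗ a) D(b)` is injective; and both maps with
`D(b)` on the left.

PROOF. As in `DR2.lean` (`Phi_injective`): central right denominators reduce to `b ∈ H` (`REGM.den_right`),
where the map is `q ⊗ h ↦ h₁ ⊗ q h₂` into `H ⊗ Q`, which has the left inverse
`x ⊗ y ↦ y S⁻¹(x₂) ⊗ x₁` (`q h₃ S⁻¹(h₂) ⊗ h₁ = q ⊗ h`). With `D(b)` on the left: `h₁ q ⊗ h₂` has the left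
inverse `x ⊗ y ↦ S⁻¹(y₁) x ⊗ y₂` (`S⁻¹(h₂) h₁ q ⊗ h₃ = q ⊗ h`), and `h₁ ⊗ h₂ q` has the left inverse
`x ⊗ y ↦ S(x₂) y ⊗ x₁` (`S(h₂) h₃ q ⊗ h₁ = q ⊗ h`). -/
def SpecMIS : Prop :=
  ∀ (k : Type u) (H Z Q F2 R2 : Type v) [Field k] [Ring H] [IsDomain H] [HopfAlgebra k H]
    [Field Z] [Algebra k Z] [DivisionRing Q] [Algebra k Q] [Algebra Z Q] [IsScalarTower k Z Q]
    [Field F2] [Algebra k F2] [Ring R2] [Algebra k R2] [Algebra F2 R2] [IsScalarTower k F2 R2]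
    (ι : H →ₐ[k] Q) (jF : Z ⊗[k] Z →ₐ[k] F2) (j : Q ⊗[k] Q →ₐ[k] R2) (D : Q →ₐ[k] R2),
    IsCQ k H Z Q ι → IsR2 ι jF j D →
    Function.Bijective (antipode k (A := H)) →
    ∀ (n : ℕ) (a : Fin n → Q), LinearIndependent k a → ∀ b : Fin n → Q,
      (∑ i, j (a i ⊗ₜ 1) * D (b i) = 0 → ∀ i, b i = 0) ∧
      (∑ i, j (1 ⊗ₜ a i) * D (b i) = 0 → ∀ i, b i = 0) ∧
      (∑ i, D (b i) * j (a i ⊗ₜ 1) = 0 → ∀ i, b i = 0) ∧
      (∑ i, D (b i) * j (1 ⊗ₜ a i) = 0 → ∀ i, b i = 0)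

/-- **BIF** (250 lines). `(E_0 ⊗ 1) D(Q) = D(Q)(E_0 ⊗ 1)`, `(1 ⊗ E_r) D(Q) = D(Q)(1 ⊗ E_r)`.

PROOF. `h ∈ H`: `D(h)(e ⊗ 1) = ((h₁ ▷ e) ⊗ 1) D(h₂)` and `(e ⊗ 1) D(h) = D(h₂)((S⁻¹(h₁) ▷ e) ⊗ 1)`
(`S⁻¹(g) ▷ e = S⁻¹(g₂) e g₁`, so the right side is `h₃ S⁻¹(h₂) e h₁ ⊗ h₄ = e h₁ ⊗ h₂`).
`D(h)(1 ⊗ b) = (1 ⊗ (b ◁ S⁻¹(h₂))) D(h₁)` (`b ◁ S⁻¹(g) = g₂ b S⁻¹(g₁)`:
`h₁ ⊗ h₄ b S⁻¹(h₃) h₂ = h₁ ⊗ h₂ b`) and `(1 ⊗ b) D(h) = D(h₁)(1 ⊗ (b ◁ h₂))`
(`h₁ ⊗ h₂ S(h₃) b h₄ = h₁ ⊗ b h₂`). Let `X` be `embL j E` (or `embR j E`). `V = X D(Q)` is a right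
`D(Q)`-space spanned by a `k`-basis of `X`, so of finite dimension. For `0 ≠ c` central in `H` left
multiplication by `D(c)` maps `V` to `V` (first formula, `D(c) X ⊆ V`), right `D(Q)`-linearly and
injectively (`D(c)` is a unit), so `D(c) V = V`, `D(c)⁻¹ V = V`. So `D(q) X ⊆ V` for all `q = c⁻¹ h`:
`DW D X ≤ WD D X`. The other inclusion is the same with left and right exchanged (second formula). -/
def SpecBIF : Prop :=
  ∀ (k : Type u) (H Z Q F2 R2 : Type v) [Field k] [Ring H] [IsDomain H] [HopfAlgebra k H]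
    [Field Z] [Algebra k Z] [DivisionRing Q] [Algebra k Q] [Algebra Z Q] [IsScalarTower k Z Q]
    [Field F2] [Algebra k F2] [Ring R2] [Algebra k R2] [Algebra F2 R2] [IsScalarTower k F2 R2]
    (ι : H →ₐ[k] Q) (jF : Z ⊗[k] Z →ₐ[k] F2) (j : Q ⊗[k] Q →ₐ[k] R2) (D : Q →ₐ[k] R2),
    IsCQ k H Z Q ι → IsR2 ι jF j D →
    Function.Bijective (antipode k (A := H)) →
    ∀ El Er : Submodule k Q, IsEl Z ι El → IsEr Z ι Er → Bif D (embL j El) ∧ Bif D (embR j Er)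

/-- **LEG** (200 lines). Legs of locally finite elements of `H`.

PROOF. (1) Let `ι h` be locally finite for `◁`, `V = h ◁ H ⊆ H` (finite-dimensional), `V₁` the
(finite-dimensional) span of the `(id ⊗ φ)Δ(v)`, `v ∈ V`, `φ ∈ H^*`. `Δ(v ◁ g) = (v₁ ◁ g₂) ⊗ S(g₁) v₂ g₃`,
so `(v₁ ◁ g) ⊗ v₂ = (1 ⊗ g₁) Δ(v ◁ g₂)(1 ⊗ S(g₃))` and `V₁ ◁ H ⊆ V₁`. If `Δ h = ∑ x_i ⊗ y_i` with
independent `y_i` then `x_i ∈ V₁`, so `ι(x_i) ∈ O_r`, and `ι(S x_i) ∈ O_l`: `S(a ◁ g) = S(g) ▷ S(a)`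
(SpecHAN), `S` is surjective, so `H ▷ S(a) = S(a ◁ H)`. (2) Mirror: `ι h` locally finite for `▷`:
`Δ(g ▷ v) = g₁ v₁ S(g₃) ⊗ (g₂ ▷ v₂)`, so `v₁ ⊗ (g ▷ v₂) = (S(g₁) ⊗ 1) Δ(g₂ ▷ v)(g₃ ⊗ 1)`; with independent
`x_i`: `ι(y_i) ∈ O_l`, and `S(g ▷ a) = S(a) ◁ S(g)`, so `ι(S y_i) ∈ O_r`. -/
def SpecLEG : Prop :=
  ∀ (k : Type u) (H Z Q : Type v) [Field k] [Ring H] [HopfAlgebra k H] [Field Z] [Algebra k Z]
    [DivisionRing Q] [Algebra k Q] [Algebra Z Q] [IsScalarTower k Z Q] (ι : H →ₐ[k] Q),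
    IsCQ k H Z Q ι → Function.Bijective (antipode k (A := H)) → ∀ (h : H) (n : ℕ) (x y : Fin n → H),
    comul (R := k) h = ∑ i, x i ⊗ₜ[k] y i →
      (ι h ∈ EG.Or k Z ι → LinearIndependent k y →
        ∀ i, ι (x i) ∈ EG.Or k Z ι ∧ ι (antipode k (x i)) ∈ EG.Ol k Z ι) ∧
      (ι h ∈ EG.Ol k Z ι → LinearIndependent k x →
        ∀ i, ι (y i) ∈ EG.Ol k Z ι ∧ ι (antipode k (y i)) ∈ EG.Or k Z ι)

/-- **M2D** (250 lines). `M2` is the `F2`-span of `(E_0 ⊗ 1) D(Q)` and of `(1 ⊗ E_r) D(Q)`.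

PROOF. (1) Let `A_l` be the `F2`-span of `(E_0 ⊗ 1) D(Q)`. `O_l ⊗ 1 ⊆ F2 (E_0 ⊗ 1)` (`O_l = Z E_0`),
`1 ∈ E_0`: `A_l` contains the generators of `M2`; closed under multiplication:
`(e ⊗ 1) D(q)(e' ⊗ 1) D(q') ∈ (e ⊗ 1)(E_0 ⊗ 1) D(Q) ⊆ F2 (O_l ⊗ 1) D(Q)` (BIF). So `A_l = M2`.
(2) `A_r`, the `F2`-span of `(1 ⊗ E_r) D(Q)`, is a subalgebra in the same way and contains `1 ⊗ O_r`,
`D(Q)`. `A_r ⊆ M2`: for `b ∈ O_r` let `c b = h`, `0 ≠ c ∈ H` central, `h ∈ H` (`IsCQ.frac`), `h ∈ O_r`;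
`Δ h = ∑ x_i ⊗ y_i`, `y_i` independent: `1 ⊗ h = ∑ (S(x_i) ⊗ 1) D(y_i)`, `S(x_i) ∈ O_l` (LEG); and
`1 ⊗ b = (1 ⊗ c)⁻¹ (1 ⊗ h)`, `1 ⊗ c ∈ F2`. `M2 ⊆ A_r`: for `e ∈ O_l`, `c e = h ∈ O_l`:
`h ⊗ 1 = ∑ D(x_i)(1 ⊗ S(y_i))` with `S(y_i) ∈ O_r` (LEG), in `D(Q)(1 ⊗ O_r) ⊆ A_r` (BIF). -/
def SpecM2D : Prop :=
  ∀ (k : Type u) (H Z Q F2 R2 : Type v) [Field k] [Ring H] [IsDomain H] [HopfAlgebra k H]
    [Field Z] [Algebra k Z] [DivisionRing Q] [Algebra k Q] [Algebra Z Q] [IsScalarTower k Z Q]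
    [Field F2] [Algebra k F2] [Ring R2] [Algebra k R2] [Algebra F2 R2] [IsScalarTower k F2 R2]
    (ι : H →ₐ[k] Q) (jF : Z ⊗[k] Z →ₐ[k] F2) (j : Q ⊗[k] Q →ₐ[k] R2) (D : Q →ₐ[k] R2),
    IsCQ k H Z Q ι → IsR2 ι jF j D →
    Function.Bijective (antipode k (A := H)) →
    ∀ El Er : Submodule k Q, IsEl Z ι El → IsEr Z ι Er →
      Submodule.span F2 (WD D (embL j El) : Set R2) = Subalgebra.toSubmodule (M2 Z F2 ι j D) ∧
      Submodule.span F2 (WD D (embR j Er) : Set R2) = Subalgebra.toSubmodule (M2 Z F2 ι j D)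

/-- **R11** (200 lines). (1.1): two points of `*kap` are related by every `W` which generates `M`.

PROOF. Let `∑ z'_i ⊗ z_i ∈ Z ⊗ Z` with `∑ D(z'_i) r D(z_i) = 0` for `r ∈ W`; then also for `r ∈ W D(Q)`
(`D(z_i)` commutes with `D(Q)`), and for `r ∈ M` (`F2`-linearity). `M` is a `K`-algebra; choose a maximal
`K`-independent family among the `D(z_i)`: `D(z_i) = ∑_{m ∈ J} c_im D(z_m)`, `c_im ∈ K`, `J` a set of
indices. `∑_{m ∈ J} (∑_i c_im D(z'_i)) r D(z_m) = 0` for all `r ∈ M` (`K` is central in `M`), so by JD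
for `M` (replace `r` by `r u_l`, multiply by `v_l` on the right, sum) `∑_i c_im D(z'_i) = 0` for each
`m ∈ J`. `Star D K kap w'`: `∑_i kap(c_im) w'(z'_i) = 0`; `Star D K kap w`:
`w(z_i) = ∑_{m ∈ J} kap(c_im) w(z_m)`. So `∑_i w'(z'_i) w(z_i) = 0`. -/
def SpecR11 : Prop :=
  ∀ (k : Type u) (Z Q F2 R2 : Type v) [Field k] [Field Z] [Algebra k Z] [DivisionRing Q]
    [Algebra k Q] [Algebra Z Q] [IsScalarTower k Z Q] [Field F2] [Algebra k F2] [Ring R2]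
    [Algebra k R2] [Algebra F2 R2] [IsScalarTower k F2 R2] [Module.Finite Z Q] [Module.Finite F2 R2]
    (D : Q →ₐ[k] R2) (M K : Subalgebra F2 R2), IsMK D M K → ∀ W : Submodule k R2,
    Submodule.span F2 (WD D W : Set R2) = Subalgebra.toSubmodule M →
    ∀ (Ω : Type v) [Field Ω] [Algebra k Ω] (kap : K →ₐ[k] Ω) (w w' : Z →ₐ[k] Ω),
      Star D K kap w → Star D K kap w' → Rel D W w' w

/-- **R12** (300 lines). KEY (1.2): a related pair `(z, x)` is realised, up to isomorphism, by a pair of points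
of `*kap`, for every `kap`.

PROOF. `V = W D(Q) ⊆ M` is a `Z ⊗ Z`-module, `(z' ⊗ z) r = D(z') r D(z)` (`DW D W ≤ WD D W`). Let
`I ⊆ Z ⊗ Z` be its annihilator; `I = {t : t r = 0 for r ∈ W}`, so `(z, x)` kills `I`. `V` is of finite
dimension over `Z` (acting on the right: `W` finite over `k`, `[Q : Z] < ∞`), so `(Z ⊗ Z) / I`, a
`Z`-subspace of `End_Z(V)`, is a finite-dimensional algebra over the field `Z` (right factor), and `V` is a
faithful finitely generated module over it. `𝔪 := ker (z, x)` is a prime which contains `I`, so maximal, and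
minimal over `I` (Artinian ring). So `𝔪` is an associated prime of `V`: there is `0 ≠ m ∈ V` with
`𝔪 m = 0`. `L := K[D(Z)] ⊆ M`, commutative, finite over `F2`. `L ⊗_K L` acts on `M`,
`(l ⊗ l') r = l r l'`; let `J` be the annihilator of `m`, a proper ideal. `(L ⊗_K L) / J` is a nonzero finite
`K`-algebra, so it has a homomorphism `π` to `Ω'` over `kap` (EXT for the field `K ⊆ (L ⊗_K L) / J`).
`w'(z) := π(D(z) ⊗ 1)`, `w(z) := π(1 ⊗ D(z))`: `Star` for both (`π` restricted to the two copies of `L`),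
and `(w', w)` kills `𝔪`; `𝔪` is maximal, so `𝔪 = ker (w', w)`. -/
def SpecR12 : Prop :=
  ∀ (k : Type u) (Z Q F2 R2 : Type v) [Field k] [Field Z] [Algebra k Z] [DivisionRing Q]
    [Algebra k Q] [Algebra Z Q] [IsScalarTower k Z Q] [Field F2] [Algebra k F2] [Ring R2]
    [Algebra k R2] [Algebra F2 R2] [IsScalarTower k F2 R2] [Module.Finite Z Q] [Module.Finite F2 R2]
    (D : Q →ₐ[k] R2) (M K : Subalgebra F2 R2), IsMK D M K → ∀ W : Submodule k R2, (∀ r ∈ W, r ∈ M) →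
    Bif D W → ∀ (Ω : Type v) [Field Ω] [Algebra k Ω] (z x : Z →ₐ[k] Ω), Rel D W z x →
    ∀ (Ω' : Type v) [Field Ω'] [IsAlgClosed Ω'] [Algebra k Ω'] (kap : K →ₐ[k] Ω'),
      ∃ w' w : Z →ₐ[k] Ω', Star D K kap w' ∧ Star D K kap w ∧
        ∀ t : Z ⊗[k] Z, mu k z x t = 0 ↔ mu k w' w t = 0

/-- **SYM** (80 lines). The relation does not depend on `W` and is symmetric.

PROOF. R12 with `Ω' = AlgebraicClosure K` and the inclusion `kap`: `w', w ∈ *kap` with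
`ker (w', w) = ker (z, x)`. By R11 `Rel D W' w' w` and `Rel D W' w w'`. `Rel` depends only on the kernel of
the pair, and `mu k x z` is `mu k z x` after the flip of `Z ⊗ Z`. -/
def SpecSYM : Prop :=
  ∀ (k : Type u) (Z Q F2 R2 : Type v) [Field k] [Field Z] [Algebra k Z] [DivisionRing Q]
    [Algebra k Q] [Algebra Z Q] [IsScalarTower k Z Q] [Field F2] [Algebra k F2] [Ring R2]
    [Algebra k R2] [Algebra F2 R2] [IsScalarTower k F2 R2] [Module.Finite Z Q] [Module.Finite F2 R2]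
    (D : Q →ₐ[k] R2) (M K : Subalgebra F2 R2), IsMK D M K → ∀ W W' : Submodule k R2, (∀ r ∈ W, r ∈ M) →
    Bif D W → Submodule.span F2 (WD D W' : Set R2) = Subalgebra.toSubmodule M →
    ∀ (Ω : Type v) [Field Ω] [Algebra k Ω] (z x : Z →ₐ[k] Ω), Rel D W z x → Rel D W' z x ∧ Rel D W' x z

/-- **ALG** (150 lines). Related points are algebraic over each other.

PROOF. `V = W D(Q)` is a `Z`-vector space through `z • r = r D(z)`, of finite dimension, and `r ↦ D(a) r` is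
a `Z`-linear endomorphism (`V = D(Q) W`); it has a monic annihilating polynomial `∑ p_i X^i` over `Z`:
`∑ D(a)^i r D(p_i) = 0` for `r ∈ W`, so `∑ a^i ⊗ p_i` is killed by `(z, x)`: `∑ z(a)^i x(p_i) = 0`. The
second statement: the same with `z • r = D(z) r` and `r ↦ r D(a)`. -/
def SpecALG : Prop :=
  ∀ (k : Type u) (Z Q F2 R2 : Type v) [Field k] [Field Z] [Algebra k Z] [DivisionRing Q]
    [Algebra k Q] [Algebra Z Q] [IsScalarTower k Z Q] [Field F2] [Algebra k F2] [Ring R2]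
    [Algebra k R2] [Algebra F2 R2] [IsScalarTower k F2 R2] [Module.Finite Z Q] [Module.Finite F2 R2]
    (D : Q →ₐ[k] R2) (W : Submodule k R2), Bif D W → ∀ (Ω : Type v) [Field Ω] [Algebra k Ω] (z x : Z →ₐ[k] Ω),
    Rel D W z x → ∀ a : Z,
      (∃ p : Polynomial Z, p.Monic ∧ p.eval₂ (x : Z →+* Ω) (z a) = 0) ∧
      ∃ p : Polynomial Z, p.Monic ∧ p.eval₂ (z : Z →+* Ω) (x a) = 0

/-- **LAB** (250 lines). Points and labels: for a lift `xt` of `x`, `z ∈ W * x` iff `z = xt ∘ τ` on `Z` for a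
label `τ`.

PROOF. `(xt ∘ τ, x) = xt ∘ (τ, id)` on `Z ⊗ Z` and `xt` is injective: this gives `⇐`. `⇒`: by ALG `z(Z)`
consists of elements algebraic over `x(Z) ⊆ xt(F)`; `F` is algebraically closed, so `z(Z) ⊆ xt(F)`,
`z = xt ∘ z₀`, `z₀ : Z → F`. By ALG `x(Z)` is algebraic over `z(Z)`, so `Z` is algebraic over `z₀(Z)`, and `F`
is an algebraic closure of `z₀(Z)`. So `z₀` extends to an automorphism `τ` of `F` (uniqueness of the
algebraic closure, `IsAlgClosure.equiv`, or `IsAlgClosed.lift` and surjectivity). -/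
def SpecLAB : Prop :=
  ∀ (k : Type u) (Z Q F2 R2 : Type v) [Field k] [Field Z] [Algebra k Z] [DivisionRing Q]
    [Algebra k Q] [Algebra Z Q] [IsScalarTower k Z Q] [Field F2] [Algebra k F2] [Ring R2]
    [Algebra k R2] [Algebra F2 R2] [IsScalarTower k F2 R2] [Module.Finite Z Q] [Module.Finite F2 R2]
    (D : Q →ₐ[k] R2) (W : Submodule k R2), Bif D W → ∀ (F : Type v) [Field F] [IsAlgClosed F] [Algebra k F] [Algebra Z F] [IsScalarTower k Z F]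
    [Algebra.IsAlgebraic Z F]
    (Ω : Type v) [Field Ω] [Algebra k Ω] (z x : Z →ₐ[k] Ω) (xt : F →ₐ[k] Ω),
    (∀ a, xt (algebraMap Z F a) = x a) →
    (Rel D W z x ↔ ∃ τ ∈ Lab F Z D W, ∀ a, z a = xt (τ (algebraMap Z F a)))

/-- **LCL** (200 lines). Labels: stable under `g = gZ` on both sides, finite modulo `g`, contain `1`.

PROOF. `τ σ = τ` on `Z` for `σ ∈ g`; `(σ τ, id) = σ ∘ (τ, σ⁻¹) = σ ∘ (τ, id)` on `Z ⊗ Z`. Finite: the class
`τ g` is determined by `τ|Z`. `(Z ⊗ Z) / I` (`I` as in R12) is a finite-dimensional algebra over `Z` (right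
factor) and the `(τ|Z, id)` are homomorphisms of `Z`-algebras from it to `F`: finitely many (each is
determined by the images of a `Z`-basis, which are roots of fixed monic polynomials). `1 ∈ W`:
`∑ D(z'_i) D(z_i) = 0` implies `∑ z'_i z_i = 0` (`D` is injective: `Q` is a division ring, `R2`
nontrivial). -/
def SpecLCL : Prop :=
  ∀ (k : Type u) (Z Q F2 R2 : Type v) [Field k] [Field Z] [Algebra k Z] [DivisionRing Q]
    [Algebra k Q] [Algebra Z Q] [IsScalarTower k Z Q] [Field F2] [Algebra k F2] [Ring R2]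
    [Algebra k R2] [Algebra F2 R2] [IsScalarTower k F2 R2] [Module.Finite Z Q] [Module.Finite F2 R2]
    (D : Q →ₐ[k] R2) (W : Submodule k R2), Bif D W → ∀ (F : Type v) [Field F] [IsAlgClosed F] [Algebra k F] [Algebra Z F] [IsScalarTower k Z F]
    [Algebra.IsAlgebraic Z F],
    (∀ σ ∈ gZ k Z F, ∀ τ ∈ Lab F Z D W, σ * τ ∈ Lab F Z D W ∧ τ * σ ∈ Lab F Z D W) ∧
    (∃ S : Finset (F ≃ₐ[k] F), (∀ s ∈ S, s ∈ Lab F Z D W) ∧
      ∀ τ ∈ Lab F Z D W, ∃ s ∈ S, ∃ σ ∈ gZ k Z F, τ = s * σ) ∧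
    (Nontrivial R2 → (1 : R2) ∈ W → 1 ∈ Lab F Z D W)

/-- **STM** (100 lines). `x * y` is the union of the `*kap`; existence of points.

PROOF. (1) Restrict to `F2 ⊗ Z`. (2) KEX with `F = F2`, `R = R2`, `p : F2 → R2`, `q = DZ D Z`,
`r = K.val`: `Kill k p r ξ kap` says that `kap` extends `ξ` (apply it to `a ⊗ 1 - 1 ⊗ a`), and
`Kill k q r w kap` is `Star D K kap w` after the flip. (3) KEX with `p = q = K.val`, `f = g = kap`,
`r = DZ D Z` (`Kill k p p f f` holds: `p` is injective). (4) KEX with `p = q : F2 → R2`, `r = K.val`.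
`K` is commutative (`IsMK.comm`, `IsMK.le`) and commutes with `D(Z)`. -/
def SpecSTM : Prop :=
  ∀ (k : Type u) (Z Q F2 R2 : Type v) [Field k] [Field Z] [Algebra k Z] [DivisionRing Q]
    [Algebra k Q] [Algebra Z Q] [IsScalarTower k Z Q] [Field F2] [Algebra k F2] [Ring R2]
    [Algebra k R2] [Algebra F2 R2] [IsScalarTower k F2 R2] [Module.Finite Z Q] [Module.Finite F2 R2]
    (D : Q →ₐ[k] R2) (M K : Subalgebra F2 R2), IsMK D M K → ∀ (Ω : Type v) [Field Ω] [IsAlgClosed Ω] [Algebra k Ω],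
    (∀ (kap : K →ₐ[k] Ω) (w : Z →ₐ[k] Ω), Star D K kap w →
      Mul D (kap.comp (IsScalarTower.toAlgHom k F2 K)) w) ∧
    (∀ (ξ : F2 →ₐ[k] Ω) (w : Z →ₐ[k] Ω), Mul D ξ w →
      ∃ kap : K →ₐ[k] Ω, (∀ a, kap (algebraMap F2 K a) = ξ a) ∧ Star D K kap w) ∧
    (∀ kap : K →ₐ[k] Ω, ∃ w : Z →ₐ[k] Ω, Star D K kap w) ∧
    ∀ ξ : F2 →ₐ[k] Ω, ∃ kap : K →ₐ[k] Ω, ∀ a, kap (algebraMap F2 K a) = ξ a

/-- **FIN** (150 lines). Finiteness of the point sets.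

PROOF. A homomorphism `ψ` from a commutative subalgebra `P ⊇ F2` of `R2` to `Ω` which is `ξ` on `F2` maps
an element with minimal polynomial `p` over `F2` to a root of `ξ(p)`, so it has finitely many possible values
on an `F2`-basis of `P`. `w ∈ x * y` is such a homomorphism on `P = F2[D(Z)]`. The third set is finite by
LCL and LAB, or directly: homomorphisms of the finite-dimensional algebra `(Z ⊗ Z) / I` over `Z` (right
factor) which are `x` on `Z`. -/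
def SpecFIN : Prop :=
  ∀ (k : Type u) (Z Q F2 R2 : Type v) [Field k] [Field Z] [Algebra k Z] [DivisionRing Q]
    [Algebra k Q] [Algebra Z Q] [IsScalarTower k Z Q] [Field F2] [Algebra k F2] [Ring R2]
    [Algebra k R2] [Algebra F2 R2] [IsScalarTower k F2 R2] [Module.Finite Z Q] [Module.Finite F2 R2]
    (D : Q →ₐ[k] R2) (K : Subalgebra F2 R2), IsField K → ∀ (Ω : Type v) [Field Ω] [Algebra k Ω] (ξ : F2 →ₐ[k] Ω),
    {w : Z →ₐ[k] Ω | Mul D ξ w}.Finite ∧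
    {kap : K →ₐ[k] Ω | ∀ a, kap (algebraMap F2 K a) = ξ a}.Finite ∧
    ∀ W : Submodule k R2, Bif D W → ∀ x : Z →ₐ[k] Ω, {z : Z →ₐ[k] Ω | Rel D W z x}.Finite

/-- **XIP** (150 lines). Independence is preserved by labels.

PROOF. `(xt, yt) : F ⊗ F → Ω` is injective: `F ⊗ F` is a domain (`noZeroDivisors_tensor`, `k` algebraically
closed), integral over `Z ⊗ Z`, and the kernel meets `Z ⊗ Z` in `0` (`ξ` is injective): a nonzero element
of the kernel divides a nonzero element of `Z ⊗ Z` in the kernel (constant term of a polynomial of minimal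
degree). Compose with `σ ⊗ τ`, restrict to `Z ⊗ Z` and extend to `F2` (`IsFrc.exists_lift`). -/
def SpecXIP : Prop :=
  ∀ (k : Type u) (Z F2 : Type v) [Field k] [IsAlgClosed k] [Field Z] [Algebra k Z] [Field F2]
    [Algebra k F2] (jF : Z ⊗[k] Z →ₐ[k] F2), IsFrc jF → ∀ (F : Type v) [Field F] [IsAlgClosed F] [Algebra k F] [Algebra Z F] [IsScalarTower k Z F]
    [Algebra.IsAlgebraic Z F]
    (Ω : Type v) [Field Ω] [Algebra k Ω] (ξ : F2 →ₐ[k] Ω) (xt yt : F →ₐ[k] Ω),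
    Pr jF ξ (xt.comp (IsScalarTower.toAlgHom k Z F)) (yt.comp (IsScalarTower.toAlgHom k Z F)) →
    Function.Injective (mu k xt yt) ∧
    ∀ σ τ : F ≃ₐ[k] F, ∃ ξ' : F2 →ₐ[k] Ω, Pr jF ξ' (xt.comp (rs Z σ)) (yt.comp (rs Z τ))

/-- **TEL** (200 lines). `Q → M_n(Q)` for a representation of `H`, left version.

PROOF. `T₀ : H → M_n(Q)`, `T₀(h)_pq = ∑ f(h₁)_pq ι(h₂)` is a homomorphism of algebras. For `0 ≠ c ∈ H`
central `T₀(c)` is a unit of `M_n(Q)`: it suffices that left multiplication by it is injective on `Q^n`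
(columns; `isUnit_of_left_regular` over `Z`, or linear algebra over `Q`), and, clearing central denominators
on the right, on `H^n = k^n ⊗ H`. The map `β(u ⊗ h) = f(S⁻¹(h₁))u ⊗ h₂` satisfies
`β(T₀(c) v) = (1 ⊗ c) β(v)`: `f(S⁻¹(c₂ h₁)) f(c₁) u ⊗ c₃ h₂ = f(S⁻¹(h₁)) f(S⁻¹(c₂) c₁) u ⊗ c₃ h₂`, and it is
injective (inverse `u ⊗ h ↦ f(h₁)u ⊗ h₂`); `H` is a domain. Extend by `(isCL_H hQ hjZ).exists_lift`. -/
def SpecTEL : Prop :=
  ∀ (k : Type u) (H Z Q : Type v) [Field k] [Ring H] [IsDomain H] [HopfAlgebra k H] [Field Z]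
    [Algebra k Z] [DivisionRing Q] [Algebra k Q] [Algebra Z Q] [IsScalarTower k Z Q]
    (ι : H →ₐ[k] Q), IsCQ k H Z Q ι → Function.Bijective (antipode k (A := H)) →
    ∀ (n : ℕ) (f : H →ₐ[k] Matrix (Fin n) (Fin n) k),
      ∃ T : Q →ₐ[k] Matrix (Fin n) (Fin n) Q, IsTl ι f T

/-- **TER** (200 lines). The right version: `T(ι h) = f(h₂) h₁`.

PROOF. As TEL with `β(u ⊗ h) = f(S(h₂))u ⊗ h₁`: `f(S(c₂ h₂)) f(c₃) u ⊗ c₁ h₁
= f(S(h₂)) f(S(c₂) c₃) u ⊗ c₁ h₁ = (1 ⊗ c) β(u ⊗ h)`, inverse `u ⊗ h ↦ f(h₂)u ⊗ h₁`. -/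
def SpecTER : Prop :=
  ∀ (k : Type u) (H Z Q : Type v) [Field k] [Ring H] [IsDomain H] [HopfAlgebra k H] [Field Z]
    [Algebra k Z] [DivisionRing Q] [Algebra k Q] [Algebra Z Q] [IsScalarTower k Z Q]
    (ι : H →ₐ[k] Q), IsCQ k H Z Q ι → Function.Bijective (antipode k (A := H)) →
    ∀ (n : ℕ) (f : H →ₐ[k] Matrix (Fin n) (Fin n) k),
      ∃ T : Q →ₐ[k] Matrix (Fin n) (Fin n) Q, IsTr ι f T

/-- **RTL** (200 lines). The matrix of `E ⊗ 1` and the relation `RelT`, left.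

PROOF. (1) For `q = ι h`: `D(h)(e_i ⊗ 1) = ((h₁ ▷ e_i) ⊗ 1) D(h₂) = ∑_l (e_l ⊗ 1) D(f(h₁)_li h₂)`. For
`q = c⁻¹ h`, `c` central (so `D q = D(c)⁻¹ D(h)`, `T(q) = T(c)⁻¹ T(h)`): write `X` for the row of the
`e_i ⊗ 1`, then `D(h) X = X D(T(h))` and `D(c) X = X D(T(c))`, so `D(c)⁻¹ X = X D(T(c)⁻¹)`. (2) For
`t = ∑ z'_m ⊗ z_m`: `∑ D(z'_m)(e_i ⊗ 1) D(z_m) = ∑_l (e_l ⊗ 1) D((∑_m T(z'_m) z_m)_li)`, which is `0` for all
`i` iff `∑ T(z'_m) z_m = 0` (MIS, the `e_l` are independent). `sand` is linear in the middle argument. -/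
def SpecRTL : Prop :=
  ∀ (k : Type u) (H Z Q F2 R2 : Type v) [Field k] [Ring H] [IsDomain H] [HopfAlgebra k H]
    [Field Z] [Algebra k Z] [DivisionRing Q] [Algebra k Q] [Algebra Z Q] [IsScalarTower k Z Q]
    [Field F2] [Algebra k F2] [Ring R2] [Algebra k R2] [Algebra F2 R2] [IsScalarTower k F2 R2]
    (ι : H →ₐ[k] Q) (jF : Z ⊗[k] Z →ₐ[k] F2) (j : Q ⊗[k] Q →ₐ[k] R2) (D : Q →ₐ[k] R2),
    IsCQ k H Z Q ι → IsR2 ι jF j D →
    Function.Bijective (antipode k (A := H)) →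
    ∀ (n : ℕ) (f : H →ₐ[k] Matrix (Fin n) (Fin n) k) (T : Q →ₐ[k] Matrix (Fin n) (Fin n) Q),
    IsTl ι f T → ∀ e : Fin n → Q, LinearIndependent k e →
    (∀ h i, EG.adlQ k Z ι h (e i) = ∑ l, f h l i • e l) →
    (∀ q i, D q * j (e i ⊗ₜ 1) = ∑ l, j (e l ⊗ₜ 1) * D (T q l i)) ∧
    ∀ (Ω : Type v) [Field Ω] [Algebra k Ω] (z x : Z →ₐ[k] Ω),
      RelT T z x ↔ Rel D (embL j (Submodule.span k (Set.range e))) z x

/-- **RTR** (200 lines). The matrix of `1 ⊗ E` and the relation `RelT`, right. The action is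
`h . b = b ◁ S⁻¹(h) = h₂ b S⁻¹(h₁)`.

PROOF. `D(h)(1 ⊗ e_i) = (1 ⊗ (h₂ . e_i)) D(h₁)` (see BIF) `= ∑_l (1 ⊗ e_l) D(f(h₂)_li h₁)`; the rest as
RTL. -/
def SpecRTR : Prop :=
  ∀ (k : Type u) (H Z Q F2 R2 : Type v) [Field k] [Ring H] [IsDomain H] [HopfAlgebra k H]
    [Field Z] [Algebra k Z] [DivisionRing Q] [Algebra k Q] [Algebra Z Q] [IsScalarTower k Z Q]
    [Field F2] [Algebra k F2] [Ring R2] [Algebra k R2] [Algebra F2 R2] [IsScalarTower k F2 R2]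
    (ι : H →ₐ[k] Q) (jF : Z ⊗[k] Z →ₐ[k] F2) (j : Q ⊗[k] Q →ₐ[k] R2) (D : Q →ₐ[k] R2),
    IsCQ k H Z Q ι → IsR2 ι jF j D →
    Function.Bijective (antipode k (A := H)) →
    ∀ (n : ℕ) (f : H →ₐ[k] Matrix (Fin n) (Fin n) k) (T : Q →ₐ[k] Matrix (Fin n) (Fin n) Q),
    IsTr ι f T → ∀ e : Fin n → Q, LinearIndependent k e →
    (∀ h i, EG.adrQ k Z ι h (e i) = ∑ l, f (antipode k h) l i • e l) →
    (∀ q i, D q * j (1 ⊗ₜ e i) = ∑ l, j (1 ⊗ₜ e l) * D (T q l i)) ∧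
    ∀ (Ω : Type v) [Field Ω] [Algebra k Ω] (z x : Z →ₐ[k] Ω),
      RelT T z x ↔ Rel D (embR j (Submodule.span k (Set.range e))) z x

/-- **TAL** (250 lines). `τ : R2 → M_n(R2)`, left: `q ⊗ q' ↦ T(q) ⊗ q'`, and `τ ∘ D = D(T(·))`.

PROOF. `τ₀ : Q ⊗ Q → M_n(R2)`, `a ⊗ b ↦ (j(T(a)_pl ⊗ b))` is a homomorphism. For `0 ≠ t ∈ Z ⊗ Z` its image is
a unit: `M_n(R2)` is finite over `F2`, so (`isUnit_of_left_regular`) it suffices that
`τ₀(t) y = 0 → y = 0` for `y ∈ M_n(R2)`, or for columns, or (clear denominators, `IsCL.common`) for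
`y ∈ (Q ⊗ Q)^n = Q^n ⊗ Q`. `Q^n` is a `Z`-vector space through `T`, `Q` is a `Z`-vector space, so
`Q^n ⊗_k Q` is a free `Z ⊗ Z`-module (bases on both sides, `finsuppTensorFinsupp`, as in `coordE`), and
`Z ⊗ Z` is a domain (`IsFrc jF`). Extend with `IsCL.exists_lift`. `τ ∘ D` and `q ↦ (D(T(q)_pl))` are
homomorphisms `Q → M_n(R2)` which agree on `ι(H)`:
`τ(j(ι h₁ ⊗ ι h₂)) = j(f(h₁) ι h₂ ⊗ ι h₃) = D(T(ι h))` entrywise; use `(isCL_H hQ hjZ).hom_ext`. -/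
def SpecTAL : Prop :=
  ∀ (k : Type u) (H Z Q F2 R2 : Type v) [Field k] [Ring H] [IsDomain H] [HopfAlgebra k H]
    [Field Z] [Algebra k Z] [DivisionRing Q] [Algebra k Q] [Algebra Z Q] [IsScalarTower k Z Q]
    [Field F2] [Algebra k F2] [Ring R2] [Algebra k R2] [Algebra F2 R2] [IsScalarTower k F2 R2]
    (ι : H →ₐ[k] Q) (jF : Z ⊗[k] Z →ₐ[k] F2) (j : Q ⊗[k] Q →ₐ[k] R2) (D : Q →ₐ[k] R2),
    IsCQ k H Z Q ι → IsR2 ι jF j D →
    ∀ (n : ℕ) (f : H →ₐ[k] Matrix (Fin n) (Fin n) k) (T : Q →ₐ[k] Matrix (Fin n) (Fin n) Q),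
    IsTl ι f T → ∃ τ : R2 →ₐ[k] Matrix (Fin n) (Fin n) R2,
      (∀ a b p l, τ (j (a ⊗ₜ b)) p l = j (T a p l ⊗ₜ b)) ∧ ∀ q p l, τ (D q) p l = D (T q p l)

/-- **TAR** (250 lines). `τ : R2 → M_n(R2)`, right: `q ⊗ q' ↦ q ⊗ T(q')`, and `τ ∘ D = D(T(·))`.

PROOF. Mirror of TAL; `τ(j(ι h₁ ⊗ ι h₂)) = j(ι h₁ ⊗ f(h₃) ι h₂) = D(f(h₂) ι h₁) = D(T(ι h))`. -/
def SpecTAR : Prop :=
  ∀ (k : Type u) (H Z Q F2 R2 : Type v) [Field k] [Ring H] [IsDomain H] [HopfAlgebra k H]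
    [Field Z] [Algebra k Z] [DivisionRing Q] [Algebra k Q] [Algebra Z Q] [IsScalarTower k Z Q]
    [Field F2] [Algebra k F2] [Ring R2] [Algebra k R2] [Algebra F2 R2] [IsScalarTower k F2 R2]
    (ι : H →ₐ[k] Q) (jF : Z ⊗[k] Z →ₐ[k] F2) (j : Q ⊗[k] Q →ₐ[k] R2) (D : Q →ₐ[k] R2),
    IsCQ k H Z Q ι → IsR2 ι jF j D →
    ∀ (n : ℕ) (f : H →ₐ[k] Matrix (Fin n) (Fin n) k) (T : Q →ₐ[k] Matrix (Fin n) (Fin n) Q),
    IsTr ι f T → ∃ τ : R2 →ₐ[k] Matrix (Fin n) (Fin n) R2,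
      (∀ a b p l, τ (j (a ⊗ₜ b)) p l = j (a ⊗ₜ T b p l)) ∧ ∀ q p l, τ (D q) p l = D (T q p l)

/-- **CHL** (200 lines). The point `(x, y | z, y)` of the commutative ring `F2[τ(F2)] ⊆ M_n(R2)`, left.

PROOF. Let `t ∈ F2 ⊗ F2` with `∑ a_i τ(b_i) = 0`. Multiply by `jF(c) ⊗ jF(d)` (`IsCL.common`; `τ(jF(d))` and
`ξ'(jF(d)) ≠ 0` are units): `a_i, b_i ∈ Z ⊗ Z`. A term `(z₁ ⊗ y₁) ⊗ (z₂ ⊗ y₂)` goes to
`j(T(z₂) z₁ ⊗ y₁ y₂)` and under `(ξ, ξ')` to `x(z₁) z(z₂) y(y₁ y₂)`. So consider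
`s = ∑ (z₂ ⊗ z₁) ⊗ y₁ y₂ ∈ (Z ⊗ Z) ⊗ Z`; its image in `M_n(Q) ⊗ Q` is `0` (`j` is injective). Write `s` with
`k`-independent elements in the last factor: `s = ∑ s_m ⊗ u_m`; then the image of each `s_m` in `M_n(Q)` is
`0`, `RelT T z x` gives `(z, x)(s_m) = 0`, so `((z, x), y)(s) = 0`. -/
def SpecCHL : Prop :=
  ∀ (k : Type u) (Z Q F2 R2 : Type v) [Field k] [Field Z] [Algebra k Z] [DivisionRing Q]
    [Algebra k Q] [Algebra Z Q] [IsScalarTower k Z Q] [Field F2] [Algebra k F2] [Ring R2]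
    [Algebra k R2] [Algebra F2 R2] [IsScalarTower k F2 R2] (jF : Z ⊗[k] Z →ₐ[k] F2)
    (j : Q ⊗[k] Q →ₐ[k] R2), IsFrc jF → IsCL (iZ k Z Z Q Q) jF j →
    ∀ (n : ℕ) (T : Q →ₐ[k] Matrix (Fin n) (Fin n) Q) (τ : R2 →ₐ[k] Matrix (Fin n) (Fin n) R2),
      (∀ a b p l, τ (j (a ⊗ₜ b)) p l = j (T a p l ⊗ₜ b)) →
      ∀ (Ω : Type v) [Field Ω] [Algebra k Ω] (x y z : Z →ₐ[k] Ω) (ξ ξ' : F2 →ₐ[k] Ω),
      Pr jF ξ x y → Pr jF ξ' z y → RelT T z x →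
      Kill k (IsScalarTower.toAlgHom k F2 (Matrix (Fin n) (Fin n) R2))
        (τ.comp (IsScalarTower.toAlgHom k F2 R2)) ξ ξ'

/-- **CHR** (200 lines). The point `(x, y | x, z)` of `F2[τ(F2)] ⊆ M_n(R2)`, right.

PROOF. Mirror of CHL: a term `(z₁ ⊗ y₁) ⊗ (z₂ ⊗ y₂)` goes to `j(z₁ z₂ ⊗ T(y₂) y₁)` and to
`x(z₁ z₂) y(y₁) z(y₂)`. -/
def SpecCHR : Prop :=
  ∀ (k : Type u) (Z Q F2 R2 : Type v) [Field k] [Field Z] [Algebra k Z] [DivisionRing Q]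
    [Algebra k Q] [Algebra Z Q] [IsScalarTower k Z Q] [Field F2] [Algebra k F2] [Ring R2]
    [Algebra k R2] [Algebra F2 R2] [IsScalarTower k F2 R2] (jF : Z ⊗[k] Z →ₐ[k] F2)
    (j : Q ⊗[k] Q →ₐ[k] R2), IsFrc jF → IsCL (iZ k Z Z Q Q) jF j →
    ∀ (n : ℕ) (T : Q →ₐ[k] Matrix (Fin n) (Fin n) Q) (τ : R2 →ₐ[k] Matrix (Fin n) (Fin n) R2),
      (∀ a b p l, τ (j (a ⊗ₜ b)) p l = j (a ⊗ₜ T b p l)) →
      ∀ (Ω : Type v) [Field Ω] [Algebra k Ω] (x y z : Z →ₐ[k] Ω) (ξ ξ' : F2 →ₐ[k] Ω),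
      Pr jF ξ x y → Pr jF ξ' x z → RelT T z y →
      Kill k (IsScalarTower.toAlgHom k F2 (Matrix (Fin n) (Fin n) R2))
        (τ.comp (IsScalarTower.toAlgHom k F2 R2)) ξ ξ'

/-- **R13** (300 lines). (1.3), abstract form.

PROOF. `M := M_n(R2)`; `F2` acts by scalars (central). (1) GLUING. If `l_1, .., l_m ∈ R2` are
`F2`-independent, `c_i ∈ M` commute with `τ(R2)` and `∑ c_i τ(l_i) = 0` then all `c_i = 0`: by JD for `R2`
there are `a_s, b_s` with `∑_s a_s l_i b_s = δ_{i i0}`, so `0 = ∑_s τ(a_s)(∑ c_i τ(l_i)) τ(b_s) = c_{i0}`.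
(2) Let `∑_i a_i τ(D(c_i)) = 0`, `a_i ∈ F2`, `c_i ∈ Z`; claim `∑ ξ(a_i) w(c_i) = 0`. Choose a set `J` of
indices such that the `D(c_m)`, `m ∈ J`, are an `F2`-basis of the `F2`-span of all `D(c_i)`;
`D(c_i) = ∑_{m ∈ J} b_im D(c_m)`, `b_im ∈ F2`. By (1) `∑_i a_i τ(b_im) = 0` for each `m ∈ J` (the `a_i` and
`τ(b_im)` commute with `τ(R2)`), so `∑_i ξ(a_i) ξ'(b_im) = 0` (hypothesis `Kill`); and `Mul D ξ' w` gives
`w(c_i) = ∑_m ξ'(b_im) w(c_m)`. So `∑_i ξ(a_i) w(c_i) = 0`. (3) Now KEX with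
`F = F2`, `R = M`, `p : F2 → M` (scalars), `q = τ ∘ DZ`, `r : Z → M`, `c ↦ D(c) · 1` (scalar matrix),
`f = ξ`, `g = w`: `p` is central; `τ(D(c'))` has the entries `D(T(c')_pl)`, which commute with `D(c)`. `Kill`
for `(p, q)` is (2). It gives `w₀` with `Kill (p, r) (ξ, w₀)`, i.e. `Mul D ξ w₀`, and
`Kill (q, r) (w, w₀)`: if `∑ T(c'_i) c_i = 0` then `∑ τ(D c'_i) (D(c_i) · 1)`, with entries
`D((∑ T(c'_i) c_i)_pl)`, is `0`, so `∑ w(c'_i) w₀(c_i) = 0`, i.e. `RelT T w w₀`. -/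
def SpecR13 : Prop :=
  ∀ (k : Type u) (Z Q F2 R2 Ω : Type v) [Field k] [Field Z] [Algebra k Z] [DivisionRing Q]
    [Algebra k Q] [Algebra Z Q] [IsScalarTower k Z Q] [Field F2] [Algebra k F2] [Ring R2]
    [Algebra k R2] [Algebra F2 R2] [IsScalarTower k F2 R2] [Module.Finite F2 R2] [IsSimpleRing R2]
    [Field Ω] [IsAlgClosed Ω] [Algebra k Ω],
    (∀ c : R2, (∀ x : R2, x * c = c * x) → ∃ a : F2, algebraMap F2 R2 a = c) →
    ∀ (D : Q →ₐ[k] R2) (n : ℕ) (T : Q →ₐ[k] Matrix (Fin n) (Fin n) Q)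
      (τ : R2 →ₐ[k] Matrix (Fin n) (Fin n) R2), (∀ q p l, τ (D q) p l = D (T q p l)) →
      ∀ ξ ξ' : F2 →ₐ[k] Ω,
      Kill k (IsScalarTower.toAlgHom k F2 (Matrix (Fin n) (Fin n) R2))
        (τ.comp (IsScalarTower.toAlgHom k F2 R2)) ξ ξ' →
      ∀ w : Z →ₐ[k] Ω, Mul D ξ' w → ∃ w₀ : Z →ₐ[k] Ω, Mul D ξ w₀ ∧ RelT T w w₀

/-- **R1L** (150 lines). (1.3) left: `z ∈ E_0 * x`, `w ∈ z * y` implies `w ∈ E_0 * w₀` for some `w₀ ∈ x * y`.

PROOF. Let `e` be a `k`-basis of `E`, `f` the matrix of `▷` on `E` (a homomorphism by `EG.SpecADA`), `T` from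
TEL, `τ` from TAL. RTL: `RelT T z x`. CHL, then R13 (with R2S): `w₀` with `Mul D ξ w₀` and `RelT T w w₀`;
RTL again. -/
def SpecR1L : Prop :=
  ∀ (k : Type u) (H Z Q F2 R2 : Type v) [Field k] [Ring H] [IsDomain H] [HopfAlgebra k H]
    [Field Z] [Algebra k Z] [DivisionRing Q] [Algebra k Q] [Algebra Z Q] [IsScalarTower k Z Q]
    [Field F2] [Algebra k F2] [Ring R2] [Algebra k R2] [Algebra F2 R2] [IsScalarTower k F2 R2]
    (ι : H →ₐ[k] Q) (jF : Z ⊗[k] Z →ₐ[k] F2) (j : Q ⊗[k] Q →ₐ[k] R2) (D : Q →ₐ[k] R2),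
    IsCQ k H Z Q ι → IsR2 ι jF j D →
    Function.Bijective (antipode k (A := H)) →
    ∀ E : Submodule k Q, IsEl Z ι E → ∀ (Ω : Type v) [Field Ω] [IsAlgClosed Ω] [Algebra k Ω]
      (x y z : Z →ₐ[k] Ω) (ξ ξ' : F2 →ₐ[k] Ω), Pr jF ξ x y → Pr jF ξ' z y →
      Rel D (embL j E) z x → ∀ w : Z →ₐ[k] Ω, Mul D ξ' w →
      ∃ w₀ : Z →ₐ[k] Ω, Mul D ξ w₀ ∧ Rel D (embL j E) w w₀

/-- **R1R** (150 lines). (1.3) right: `z ∈ E_r * y` (relation of `1 ⊗ E_r`), `w ∈ x * z` implies that `w` is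
related to some `w₀ ∈ x * y`.

PROOF. The same with TER, TAR, RTR, CHR; `f(h)` is the matrix of `b ↦ b ◁ S⁻¹(h)` on `E`
(`EG.SpecADA`: `adrQ (g h) = adrQ h * adrQ g`). -/
def SpecR1R : Prop :=
  ∀ (k : Type u) (H Z Q F2 R2 : Type v) [Field k] [Ring H] [IsDomain H] [HopfAlgebra k H]
    [Field Z] [Algebra k Z] [DivisionRing Q] [Algebra k Q] [Algebra Z Q] [IsScalarTower k Z Q]
    [Field F2] [Algebra k F2] [Ring R2] [Algebra k R2] [Algebra F2 R2] [IsScalarTower k F2 R2]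
    (ι : H →ₐ[k] Q) (jF : Z ⊗[k] Z →ₐ[k] F2) (j : Q ⊗[k] Q →ₐ[k] R2) (D : Q →ₐ[k] R2),
    IsCQ k H Z Q ι → IsR2 ι jF j D →
    Function.Bijective (antipode k (A := H)) →
    ∀ E : Submodule k Q, IsEr Z ι E → ∀ (Ω : Type v) [Field Ω] [IsAlgClosed Ω] [Algebra k Ω]
      (x y z : Z →ₐ[k] Ω) (ξ ξ' : F2 →ₐ[k] Ω), Pr jF ξ x y → Pr jF ξ' x z →
      Rel D (embR j E) z y → ∀ w : Z →ₐ[k] Ω, Mul D ξ' w →
      ∃ w₀ : Z →ₐ[k] Ω, Mul D ξ w₀ ∧ Rel D (embR j E) w w₀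

end Pool.Agent.Lib.MP_c37a72_al.LB
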