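import Pool.Agent.Lib.MP_c37a72_al.LB.Spec
import Pool.Agent.Lib.MP_c37a72_al.EG.Spec

/-!
# RTL: the matrix of `E ⊗ 1` and the relation `RelT`, left
-/

set_option autoImplicit false
set_option linter.unusedSectionVars false

open scoped TensorProduct
open Coalgebra HopfAlgebra

namespace Pool.Agent.Lib.MP_c37a72_al.LB

universe u v w

namespace RTLM

section

variable {k : Type u} (Z : Type v) {H Q : Type v} [Field k] [Ring H] [IsDomain H] [HopfAlgebra k H]
  [Field Z] [Algebra k Z] [DivisionRing Q] [Algebra k Q] [Algebra Z Q] [IsScalarTower k Z Q]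
  (ι : H →ₐ[k] Q)

/-- `h ↦ h ▷ a` -/
noncomputable def ad (a : Q) : H →ₗ[k] Q where
  toFun h := EG.adlQ k Z ι h a
  map_add' g h := by rw [map_add, LinearMap.add_apply]
  map_smul' c h := by rw [map_smul, LinearMap.smul_apply, RingHom.id_apply]

@[simp] theorem ad_apply (a : Q) (h : H) : ad Z ι a h = EG.adlQ k Z ι h a := rfl

/-- `p ⊗ u ↦ ((p ▷ a) ⊗ 1) ι(u)` -/
noncomputable def A (a : Q) : H ⊗[k] (H ⊗[k] H) →ₗ[k] Q ⊗[k] Q :=
  LinearMap.mul' k (Q ⊗[k] Q) ∘ₗ TensorProduct.map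
    ((TensorProduct.mk k Q Q).flip 1 ∘ₗ ad Z ι a)
    (TensorProduct.map ι.toLinearMap ι.toLinearMap)

@[simp] theorem A_tmul (a : Q) (p : H) (u : H ⊗[k] H) :
    A Z ι a (p ⊗ₜ[k] u) =
      (EG.adlQ k Z ι p a ⊗ₜ[k] 1) * TensorProduct.map ι.toLinearMap ι.toLinearMap u := by
  simp [A]

/-- `p ⊗ q ↦ (p ▷ a) ι(q)` -/
noncomputable def B (a : Q) : H ⊗[k] H →ₗ[k] Q :=
  LinearMap.mul' k Q ∘ₗ TensorProduct.map (ad Z ι a) ι.toLinearMap

@[simp] theorem B_tmul (a : Q) (p q : H) :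
    B Z ι a (p ⊗ₜ[k] q) = EG.adlQ k Z ι p a * ι q := by
  simp [B]

omit [IsDomain H] in
theorem exists_fin_repr (x : H) : ∃ (n : ℕ) (a b : Fin n → H),
    comul (R := k) x = ∑ i, a i ⊗ₜ[k] b i := by
  obtain ⟨s, hs⟩ := TensorProduct.exists_finset (R := k) (comul (R := k) x)
  refine ⟨s.card, fun i => (s.equivFin.symm i : H × H).1,
    fun i => (s.equivFin.symm i : H × H).2, ?_⟩
  rw [hs, ← Finset.sum_coe_sort s (fun i => i.1 ⊗ₜ[k] i.2)]
  exact (Equiv.sum_comp s.equivFin.symm (fun i : s => (i : H × H).1 ⊗ₜ[k] (i : H × H).2)).symm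

theorem B_comul (hADB : EG.SpecADB.{u, v}) (a : Q) (x : H) :
    B Z ι a (comul (R := k) x) = ι x * a := by
  obtain ⟨n, p, q, e⟩ := exists_fin_repr (k := k) x
  rw [e, map_sum, (hADB k H Z Q ι x n p q e a).1]
  exact Finset.sum_congr rfl fun i _ => B_tmul Z ι a _ _

/-- `Δ(h)(a ⊗ 1) = ((h₁ ▷ a) ⊗ 1) Δ(h₂)` -/
theorem dQ_mul (hADB : EG.SpecADB.{u, v}) (a : Q) (h : H) {n : ℕ} (x y : Fin n → H)
    (e : comul (R := k) h = ∑ i, x i ⊗ₜ[k] y i) :
    dQ ι h * (a ⊗ₜ[k] 1) = ∑ i, (EG.adlQ k Z ι (x i) a ⊗ₜ[k] 1) * dQ ι (y i) := by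
  have h1 : ∑ i, (EG.adlQ k Z ι (x i) a ⊗ₜ[k] (1 : Q)) * dQ ι (y i) =
      A Z ι a ((comul (R := k) (A := H)).lTensor H (comul (R := k) h)) := by
    rw [e, map_sum, map_sum]
    refine Finset.sum_congr rfl fun i _ => ?_
    rw [LinearMap.lTensor_tmul, A_tmul, dQ_apply]
  rw [h1, ← Coalgebra.coassoc_apply, e, map_sum, map_sum, map_sum]
  have h2 : ∀ (u : H ⊗[k] H) (y : H), A Z ι a (TensorProduct.assoc k H H H (u ⊗ₜ[k] y)) =
      B Z ι a u ⊗ₜ[k] ι y := by
    intro u y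
    induction u with
    | zero => simp
    | add u v hu hv =>
      rw [TensorProduct.add_tmul, map_add, map_add, hu, hv, map_add, TensorProduct.add_tmul]
    | tmul p q =>
      rw [TensorProduct.assoc_tmul, A_tmul, TensorProduct.map_tmul,
        Algebra.TensorProduct.tmul_mul_tmul, one_mul, B_tmul]
      rfl
  have h3 : dQ ι h = ∑ i, ι (x i) ⊗ₜ[k] ι (y i) := by
    rw [dQ_apply, e, map_sum]
    rfl
  rw [h3, Finset.sum_mul]
  refine Finset.sum_congr rfl fun i _ => ?_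
  rw [LinearMap.rTensor_tmul, h2, B_comul Z ι hADB, Algebra.TensorProduct.tmul_mul_tmul, mul_one]

/-- a property of the elements of `Q` which holds on `H` and is stable under products and inverses -/
theorem frac_ind (hQ : IsCQ k H Z Q ι) (S : Q → Prop) (h1 : ∀ h : H, S (ι h))
    (h2 : ∀ a b, S a → S b → S (a * b)) (h3 : ∀ a, a ≠ 0 → S a → S a⁻¹) (q : Q) : S q := by
  obtain ⟨c, h, hc0, -, hch⟩ := hQ.frac q
  have hc : ι c ≠ 0 := fun h0 => hc0 (hQ.inj (by rw [h0, map_zero]))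
  have e : q = (ι c)⁻¹ * ι h := by rw [← hch, ← mul_assoc, inv_mul_cancel₀ hc, one_mul]
  rw [e]
  exact h2 _ _ (h3 _ hc (h1 c)) (h1 h)

/-- the rule `D(q) X_i = ∑ X_l D(T(q)_li)` extends from `H` to `Q` -/
theorem rule {R2 : Type v} [Ring R2] [Algebra k R2] (hQ : IsCQ k H Z Q ι) (D : Q →ₐ[k] R2) {n : ℕ}
    (X : Fin n → R2) (T : Q →ₐ[k] Matrix (Fin n) (Fin n) Q)
    (h0 : ∀ h i, D (ι h) * X i = ∑ l, X l * D (T (ι h) l i)) (q : Q) :
    ∀ i, D q * X i = ∑ l, X l * D (T q l i) := by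
  refine frac_ind Z ι hQ (fun q => ∀ i, D q * X i = ∑ l, X l * D (T q l i)) h0 ?_ ?_ q
  · intro a b ha hb i
    rw [map_mul D, mul_assoc, hb i, Finset.mul_sum]
    simp only [← mul_assoc, ha]
    rw [map_mul T]
    simp only [Matrix.mul_apply, map_sum, Finset.mul_sum, Finset.sum_mul, map_mul D, mul_assoc]
    rw [Finset.sum_comm]
  · intro a ha0 ha i
    have h1 : ∑ m, T a m * 1 = ∑ m, T a m * 1 := rfl
    have hTT : T a * T a⁻¹ = 1 := by rw [← map_mul, mul_inv_cancel₀ ha0, map_one]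
    have hD : D a⁻¹ * D a = 1 := by rw [← map_mul, inv_mul_cancel₀ ha0, map_one]
    have h2 : D a * ∑ l, X l * D (T a⁻¹ l i) = X i := by
      rw [Finset.mul_sum]
      simp only [← mul_assoc, ha]
      simp only [Finset.sum_mul, mul_assoc, ← map_mul D]
      rw [Finset.sum_comm]
      simp only [← Finset.mul_sum, ← map_sum D]
      have h3 : ∀ m, ∑ l, T a m l * T a⁻¹ l i = (1 : Matrix (Fin n) (Fin n) Q) m i := by
        intro m
        rw [← hTT, Matrix.mul_apply]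
      simp only [h3, Matrix.one_apply]
      rw [Finset.sum_eq_single i]
      · rw [if_pos rfl, map_one, mul_one]
      · intro m _ hm
        rw [if_neg hm, map_zero, mul_zero]
      · intro hi
        exact absurd (Finset.mem_univ i) hi
    calc D a⁻¹ * X i = D a⁻¹ * (D a * ∑ l, X l * D (T a⁻¹ l i)) := by rw [h2]
      _ = ∑ l, X l * D (T a⁻¹ l i) := by rw [← mul_assoc, hD, one_mul]

/-- the sandwich of `X_i` -/
theorem sand_X {R2 : Type v} [Ring R2] [Algebra k R2] (D : Q →ₐ[k] R2) {n : ℕ}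
    (X : Fin n → R2) (T : Q →ₐ[k] Matrix (Fin n) (Fin n) Q)
    (h0 : ∀ q i, D q * X i = ∑ l, X l * D (T q l i)) (t : Z ⊗[k] Z) (i : Fin n) :
    sand k (DZ D Z) (DZ D Z) (X i) t = ∑ l, X l * D ((mu k (T.comp (zQ k Z Q))
      (IsScalarTower.toAlgHom k Z (Matrix (Fin n) (Fin n) Q)) t) l i) := by
  induction t with
  | zero => simp
  | add s t hs ht =>
    rw [map_add, hs, ht, map_add, ← Finset.sum_add_distrib]
    refine Finset.sum_congr rfl fun l _ => ?_
    rw [Matrix.add_apply, map_add, mul_add]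
  | tmul a b =>
    rw [sand_tmul, DZ_apply, DZ_apply, h0, Finset.sum_mul]
    refine Finset.sum_congr rfl fun l _ => ?_
    have e : (mu k (T.comp (zQ k Z Q))
        (IsScalarTower.toAlgHom k Z (Matrix (Fin n) (Fin n) Q)) (a ⊗ₜ b)) =
        b • T (algebraMap Z Q a) := by
      show T (algebraMap Z Q a) * algebraMap Z (Matrix (Fin n) (Fin n) Q) b = _
      rw [← Algebra.commutes, Algebra.smul_def]
    rw [e, Matrix.smul_apply, Algebra.smul_def, Algebra.commutes, mul_assoc, ← map_mul]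

theorem sand_add {R2 : Type v} [Ring R2] [Algebra k R2] (D : Q →ₐ[k] R2) (r s : R2)
    (t : Z ⊗[k] Z) : sand k (DZ D Z) (DZ D Z) (r + s) t =
      sand k (DZ D Z) (DZ D Z) r t + sand k (DZ D Z) (DZ D Z) s t := by
  induction t with
  | zero => simp
  | add t t' ht ht' => rw [map_add, map_add, map_add, ht, ht']; abel
  | tmul a b => rw [sand_tmul, sand_tmul, sand_tmul, mul_add, add_mul]

theorem sand_smul {R2 : Type v} [Ring R2] [Algebra k R2] (D : Q →ₐ[k] R2) (c : k) (r : R2)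
    (t : Z ⊗[k] Z) : sand k (DZ D Z) (DZ D Z) (c • r) t =
      c • sand k (DZ D Z) (DZ D Z) r t := by
  induction t with
  | zero => simp
  | add t t' ht ht' => rw [map_add, map_add, ht, ht', smul_add]
  | tmul a b => rw [sand_tmul, sand_tmul, mul_smul_comm, smul_mul_assoc]

theorem sand_zero {R2 : Type v} [Ring R2] [Algebra k R2] (D : Q →ₐ[k] R2)
    (t : Z ⊗[k] Z) : sand k (DZ D Z) (DZ D Z) (0 : R2) t = 0 := by
  induction t with
  | zero => simp
  | add t t' ht ht' => rw [map_add, ht, ht', add_zero]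
  | tmul a b => rw [sand_tmul, mul_zero, zero_mul]

/-- the sandwiches of the `X_i` determine those of their span -/
theorem sand_span {R2 : Type v} [Ring R2] [Algebra k R2] (D : Q →ₐ[k] R2) {n : ℕ}
    (X : Fin n → R2) (t : Z ⊗[k] Z) (h : ∀ i, sand k (DZ D Z) (DZ D Z) (X i) t = 0) :
    ∀ r ∈ Submodule.span k (Set.range X), sand k (DZ D Z) (DZ D Z) r t = 0 := by
  intro r hr
  induction hr using Submodule.span_induction with
  | mem x hx =>
    obtain ⟨i, rfl⟩ := hx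
    exact h i
  | zero => exact sand_zero Z D t
  | add x y _ _ hx hy => rw [sand_add, hx, hy, add_zero]
  | smul c x _ hx => rw [sand_smul, hx, smul_zero]

/-- the equivalence of the two relations -/
theorem equiv {R2 : Type v} [Ring R2] [Algebra k R2] (D : Q →ₐ[k] R2) {n : ℕ}
    (X : Fin n → R2) (T : Q →ₐ[k] Matrix (Fin n) (Fin n) Q)
    (h0 : ∀ q i, D q * X i = ∑ l, X l * D (T q l i))
    (hind : ∀ b : Fin n → Q, ∑ l, X l * D (b l) = 0 → ∀ l, b l = 0)
    {Ω : Type v} [Field Ω] [Algebra k Ω] (z x : Z →ₐ[k] Ω) :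
    RelT T z x ↔ Rel D (Submodule.span k (Set.range X)) z x := by
  constructor
  · intro hT t ht
    refine hT t ?_
    ext l i
    have h1 := ht (X i) (Submodule.subset_span ⟨i, rfl⟩)
    rw [sand_X Z D X T h0 t i] at h1
    exact hind _ h1 l
  · intro hR t ht
    refine hR t (sand_span Z D X t fun i => ?_)
    rw [sand_X Z D X T h0 t i]
    apply Finset.sum_eq_zero
    intro l _
    have h1 : (mu k (T.comp (zQ k Z Q))
      (IsScalarTower.toAlgHom k Z (Matrix (Fin n) (Fin n) Q)) t) = 0 := ht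
    rw [h1, Matrix.zero_apply, map_zero, mul_zero]

end

end RTLM

/-- **RTL**. -/
theorem specRTL (hADB : EG.SpecADB.{u, v}) (hMIS : SpecMIS.{u, v}) : SpecRTL.{u, v} := by
  intro k H Z Q F2 R2 _ _ _ _ _ _ _ _ _ _ _ _ _ _ _ _ ι jF j D hQ hR hS n f T hT e he hf
  have h0 : ∀ h i, D (ι h) * j (e i ⊗ₜ 1) = ∑ l, j (e l ⊗ₜ 1) * D (T (ι h) l i) := by
    intro h i
    obtain ⟨m, x, y, hxy⟩ := RTLM.exists_fin_repr (k := k) h
    rw [hR.D_ι, ← map_mul, RTLM.dQ_mul Z ι hADB (e i) h x y hxy, map_sum]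
    have h1 : ∀ s, j ((EG.adlQ k Z ι (x s) (e i) ⊗ₜ[k] 1) * dQ ι (y s)) =
        ∑ l, j (e l ⊗ₜ 1) * D (f (x s) l i • ι (y s)) := by
      intro s
      rw [hf, map_mul, ← hR.D_ι, TensorProduct.sum_tmul, map_sum, Finset.sum_mul]
      refine Finset.sum_congr rfl fun l _ => ?_
      rw [← TensorProduct.smul_tmul', map_smul, map_smul, smul_mul_assoc, mul_smul_comm]
    simp only [h1]
    rw [Finset.sum_comm]
    refine Finset.sum_congr rfl fun l _ => ?_
    rw [hT.eq h m x y hxy l i, map_sum, Finset.mul_sum]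
  have h1 := RTLM.rule Z ι hQ D (fun i => j (e i ⊗ₜ[k] (1 : Q))) T h0
  refine ⟨h1, ?_⟩
  intro Ω _ _ z x
  have h2 := RTLM.equiv Z D (fun i => j (e i ⊗ₜ[k] (1 : Q))) T h1
    (fun b hb => (hMIS k H Z Q F2 R2 ι jF j D hQ hR hS n e he b).1 hb) z x
  rw [h2]
  have h3 : embL j (Submodule.span k (Set.range e)) =
      Submodule.span k (Set.range fun i => j (e i ⊗ₜ[k] (1 : Q))) := by
    unfold embL
    rw [Submodule.map_span, ← Set.range_comp]
    rfl
  rw [h3]

end Pool.Agent.Lib.MP_c37a72_al.LB
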